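import Mathlib

/-! Means over the subsets of a finite set, binomial representation, bounded differences. -/

set_option autoImplicit false

noncomputable section

namespace Pool.Agent.Lib.MP_bd7745_co

open Finset

open Classical in
/-- Indicator of a proposition. -/
def ind (p : Prop) : ℝ := if p then 1 else 0

open Classical in
/-- Number of elements of `s` with property `P`. -/
def cnt {κ : Type*} (s : Finset κ) (P : κ → Prop) : ℕ := (s.filter P).card

/-- Mean of `f` over all subsets of `U`. -/
def av {ι : Type*} (U : Finset ι) (f : Finset ι → ℝ) : ℝ :=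
  (∑ H ∈ U.powerset, f H) / 2 ^ U.card

/-- Binomial weight. -/
def bin (M k : ℕ) : ℝ := (M.choose k : ℝ) / 2 ^ M

/-- Binomial weight at an integer. -/
def binZ (M : ℕ) (t : ℤ) : ℝ := if 0 ≤ t then bin M t.toNat else 0

/-- Central binomial weight. -/
def cb (K : ℕ) : ℝ := bin (2 * K) K

/-- Change the membership of `e`. -/
def flp {ι : Type*} [DecidableEq ι] (e : ι) (H : Finset ι) : Finset ι :=
  if e ∈ H then H.erase e else insert e H

/-- Exchange the memberships of `a` and `b`. -/
def swp {ι : Type*} [DecidableEq ι] (a b : ι) (H : Finset ι) : Finset ι :=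
  H.image (Equiv.swap a b)

theorem ind_true {p : Prop} (h : p) : ind p = 1 := if_pos h

theorem ind_false {p : Prop} (h : ¬ p) : ind p = 0 := if_neg h

theorem ind_nonneg (p : Prop) : 0 ≤ ind p := by
  unfold ind; split_ifs <;> norm_num

theorem ind_le_one (p : Prop) : ind p ≤ 1 := by
  unfold ind; split_ifs <;> norm_num

theorem ind_congr {p q : Prop} (h : p ↔ q) : ind p = ind q := by rw [propext h]

theorem ind_mono {p q : Prop} (h : p → q) : ind p ≤ ind q := by
  by_cases hp : p
  · rw [ind_true hp, ind_true (h hp)]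
  · rw [ind_false hp]; exact ind_nonneg q

theorem ind_and (p q : Prop) : ind (p ∧ q) = ind p * ind q := by
  by_cases hp : p <;> by_cases hq : q <;> simp [ind, hp, hq]

theorem ind_not (p : Prop) : ind (¬ p) = 1 - ind p := by
  by_cases hp : p <;> simp [ind, hp]

theorem cnt_eq {κ : Type*} (s : Finset κ) (P : κ → Prop) [DecidablePred P] :
    cnt s P = (s.filter P).card := by
  unfold cnt; congr

theorem cnt_cast {κ : Type*} (s : Finset κ) (P : κ → Prop) :
    (cnt s P : ℝ) = ∑ j ∈ s, ind (P j) := by
  classical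
  rw [cnt_eq, card_filter]
  push_cast
  exact sum_congr rfl fun j _ => by unfold ind; congr

theorem cnt_congr {κ : Type*} {s : Finset κ} {P Q : κ → Prop} (h : ∀ j ∈ s, P j ↔ Q j) :
    cnt s P = cnt s Q := by
  classical
  rw [cnt_eq, cnt_eq, filter_congr h]

theorem cnt_le {κ : Type*} (s : Finset κ) (P : κ → Prop) : cnt s P ≤ s.card := by
  classical
  rw [cnt_eq]; exact card_filter_le _ _

theorem bin_nonneg (M k : ℕ) : 0 ≤ bin M k := by unfold bin; positivity

theorem sum_bin (M : ℕ) : ∑ k ∈ range (M + 1), bin M k = 1 := by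
  simp only [bin]
  rw [← sum_div, ← Nat.cast_sum, Nat.sum_range_choose]
  push_cast
  exact div_self (by positivity)

section Av

variable {ι : Type*} (U : Finset ι)

theorem av_mono {f g : Finset ι → ℝ} (h : ∀ H, H ⊆ U → f H ≤ g H) : av U f ≤ av U g :=
  div_le_div_of_nonneg_right (sum_le_sum fun H hH => h H (mem_powerset.1 hH)) (by positivity)

theorem av_congr {f g : Finset ι → ℝ} (h : ∀ H, H ⊆ U → f H = g H) : av U f = av U g :=
  le_antisymm (av_mono U fun H hH => (h H hH).le) (av_mono U fun H hH => (h H hH).ge)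

theorem av_const (c : ℝ) : av U (fun _ => c) = c := by
  unfold av
  rw [sum_const, card_powerset, nsmul_eq_mul]
  push_cast
  field_simp

theorem av_add (f g : Finset ι → ℝ) : av U (fun H => f H + g H) = av U f + av U g := by
  unfold av; rw [sum_add_distrib, add_div]

theorem av_sub (f g : Finset ι → ℝ) : av U (fun H => f H - g H) = av U f - av U g := by
  unfold av; rw [sum_sub_distrib, sub_div]

theorem av_mul (c : ℝ) (f : Finset ι → ℝ) : av U (fun H => c * f H) = c * av U f := by
  unfold av; rw [← mul_sum, mul_div_assoc]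

theorem av_neg (f : Finset ι → ℝ) : av U (fun H => - f H) = - av U f := by
  unfold av; rw [sum_neg_distrib, neg_div]

theorem av_div (c : ℝ) (f : Finset ι → ℝ) : av U (fun H => f H / c) = av U f / c := by
  unfold av; rw [← sum_div, div_right_comm]

theorem av_sum {κ : Type*} (s : Finset κ) (f : κ → Finset ι → ℝ) :
    av U (fun H => ∑ j ∈ s, f j H) = ∑ j ∈ s, av U (f j) := by
  unfold av; rw [sum_comm, sum_div]

theorem av_nonneg {f : Finset ι → ℝ} (h : ∀ H, 0 ≤ f H) : 0 ≤ av U f :=
  (av_const U 0).ge.trans (av_mono U fun H _ => h H)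

end Av

section Maps

variable {ι : Type*} [DecidableEq ι]

theorem mem_flp (e a : ι) (H : Finset ι) : a ∈ flp e H ↔ (if a = e then a ∉ H else a ∈ H) := by
  unfold flp
  by_cases h : a = e
  · subst h
    by_cases h' : a ∈ H <;> simp [h']
  · by_cases h' : e ∈ H <;> simp [h, h']

theorem mem_swp (a b c : ι) (H : Finset ι) : c ∈ swp a b H ↔ Equiv.swap a b c ∈ H := by
  unfold swp
  rw [mem_image]
  exact ⟨fun ⟨d, hd, e⟩ => by rwa [← e, Equiv.swap_apply_self],
    fun h => ⟨_, h, Equiv.swap_apply_self _ _ _⟩⟩

theorem basic_inv (U : Finset ι) (R : Finset ι → Finset ι) (h1 : ∀ H, H ⊆ U → R H ⊆ U)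
    (h2 : ∀ H, R (R H) = H) (f : Finset ι → ℝ) : av U (fun H => f (R H)) = av U f := by
  unfold av
  rw [sum_nbij' (t := U.powerset) (g := f) R R
    (fun H hH => mem_powerset.2 (h1 H (mem_powerset.1 hH)))
    (fun H hH => mem_powerset.2 (h1 H (mem_powerset.1 hH))) (fun H _ => h2 H) (fun H _ => h2 H)
    fun _ _ => rfl]

theorem av_flp (U : Finset ι) {e : ι} (he : e ∈ U) (f : Finset ι → ℝ) :
    av U (fun H => f (flp e H)) = av U f := by
  refine basic_inv U _ (fun H hH a ha => ?_) (fun H => Finset.ext fun a => ?_) f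
  · rw [mem_flp] at ha
    by_cases h : a = e
    · exact h ▸ he
    · exact hH (by simpa [h] using ha)
  · by_cases h : a = e <;> simp [mem_flp, h]

theorem av_swp (U : Finset ι) {a b : ι} (ha : a ∈ U) (hb : b ∈ U) (f : Finset ι → ℝ) :
    av U (fun H => f (swp a b H)) = av U f := by
  refine basic_inv U _ (fun H hH c hc => ?_) (fun H => Finset.ext fun c => ?_) f
  · rw [mem_swp] at hc
    by_cases h : c = a
    · exact h ▸ ha
    by_cases h' : c = b
    · exact h' ▸ hb
    exact hH (by rwa [Equiv.swap_apply_of_ne_of_ne h h'] at hc)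
  · rw [mem_swp, mem_swp, Equiv.swap_apply_self]

theorem basic_pascal (n : ℕ) (g : ℕ → ℝ) :
    ∑ k ∈ range (n + 1 + 1), bin (n + 1) k * g k =
      ∑ k ∈ range (n + 1), bin n k * ((g k + g (k + 1)) / 2) := by
  have h := sum_choose_succ_mul (fun i _ => g i / 2 ^ (n + 1)) n
  rw [← sum_add_distrib] at h
  refine (sum_congr rfl fun k _ => ?_).trans (h.trans (sum_congr rfl fun k _ => ?_))
  · rw [bin]
    ring
  · rw [bin]
    field_simp
    ring

theorem basic_cnt {κ : Type*} [DecidableEq κ] {s : Finset κ} {j : κ} (hj : j ∉ s) (P : κ → Prop)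
    [Decidable (P j)] : cnt (insert j s) P = cnt s P + if P j then 1 else 0 := by
  classical
  rw [cnt_eq, cnt_eq, filter_insert]
  by_cases h : P j
  · rw [if_pos h, if_pos h, card_insert_of_notMem fun h' => hj (mem_filter.1 h').1]
  · rw [if_neg h, if_neg h, add_zero]

/-- Binomial representation. -/
theorem bin_rep {κ : Type*} (U : Finset ι) (s : Finset κ) (R : κ → Finset ι → Finset ι)
    (ac sg : κ → Finset ι → Prop)
    (hR : ∀ j ∈ s, ∀ f : Finset ι → ℝ, av U (fun H => f (R j H)) = av U f)
    (hac : ∀ i ∈ s, ∀ j ∈ s, ∀ H, ac i (R j H) ↔ ac i H)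
    (hsg : ∀ i ∈ s, ∀ j ∈ s, i ≠ j → ∀ H, sg i (R j H) ↔ sg i H)
    (hfl : ∀ j ∈ s, ∀ H, ac j H → (sg j (R j H) ↔ ¬ sg j H))
    (G : Finset ι → ℕ → ℝ) (hG : ∀ j ∈ s, ∀ H, G (R j H) = G H) :
    av U (fun H => G H (cnt s fun j => ac j H ∧ sg j H)) =
      av U fun H => ∑ k ∈ range (cnt s (fun j => ac j H) + 1),
        bin (cnt s fun j => ac j H) k * G H k := by
  classical
  induction s using Finset.induction_on generalizing G with
  | empty => simp [bin, cnt]
  | insert j s hj ih =>
    have hm : ∀ i ∈ s, i ∈ insert j s := fun i hi => mem_insert_of_mem hi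
    have hjm : j ∈ insert j s := mem_insert_self j s
    obtain ⟨K, hK⟩ : ∃ K : Finset ι → ℕ, ∀ H, K H = cnt s fun i => ac i H ∧ sg i H :=
      ⟨_, fun _ => rfl⟩
    have hKR : ∀ H, K (R j H) = K H := fun H => by
      rw [hK, hK]
      refine cnt_congr fun i hi => ?_
      rw [hac i (hm i hi) j hjm, hsg i (hm i hi) j hjm (fun h => hj (h ▸ hi))]
    have e2 : av U (fun H => G H (K H + if ac j H ∧ ¬ sg j H then 1 else 0)) =
        av U fun H => G H (K H + if ac j H ∧ sg j H then 1 else 0) := by
      rw [← hR j hjm fun H => G H (K H + if ac j H ∧ sg j H then 1 else 0)]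
      refine av_congr U fun H _ => ?_
      rw [hG j hjm, hKR]
      simp only [hac j hjm j hjm]
      by_cases h : ac j H
      · simp only [hfl j hjm H h]
      · simp only [h, false_and]
    have h := ih (fun i hi => hR i (hm i hi)) (fun i hi k hk => hac i (hm i hi) k (hm k hk))
      (fun i hi k hk => hsg i (hm i hi) k (hm k hk)) (fun i hi => hfl i (hm i hi))
      (fun H k => if ac j H then (G H k + G H (k + 1)) / 2 else G H k)
      fun i hi H => by simp only [hG i (hm i hi), hac j hjm i (hm i hi)]
    simp only [← hK] at h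
    simp only [basic_cnt hj, ← hK]
    have e3 : av U (fun H => G H (K H + if ac j H ∧ sg j H then 1 else 0)) =
        av U fun H => if ac j H then (G H (K H) + G H (K H + 1)) / 2 else G H (K H) := by
      have e4 := av_add U (fun H => G H (K H + if ac j H ∧ sg j H then 1 else 0))
        fun H => G H (K H + if ac j H ∧ ¬ sg j H then 1 else 0)
      rw [e2, ← two_mul] at e4
      rw [← mul_right_inj' (two_ne_zero (α := ℝ)), ← e4, ← av_mul]
      refine av_congr U fun H _ => ?_
      by_cases h1 : ac j H <;> by_cases h2 : sg j H <;>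
        simp only [h1, h2, true_and, false_and, not_true_eq_false, not_false_eq_true, if_true,
          if_false, add_zero] <;> ring
    rw [e3, h]
    refine av_congr U fun H _ => ?_
    by_cases h1 : ac j H
    · simp only [h1, if_true]
      rw [basic_pascal]
    · simp only [h1, if_false, add_zero]

theorem basic_ins {U : Finset ι} {a : ι} (ha : a ∉ U) (f : Finset ι → ℝ) :
    av (insert a U) f = av U fun H => (f H + f (insert a H)) / 2 := by
  unfold av
  rw [sum_powerset_insert ha, card_insert_of_notMem ha, ← sum_div, sum_add_distrib, pow_succ]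
  ring

/-- Bounded differences, exponential moment form. -/
theorem mcd (U : Finset ι) (c : ℝ) (f : Finset ι → ℝ)
    (hf : ∀ e ∈ U, ∀ H, |f (flp e H) - f H| ≤ c) (t : ℝ) :
    av U (fun H => Real.exp (t * f H)) ≤
      Real.exp (t * av U f + t ^ 2 * c ^ 2 * U.card / 8) := by
  induction U using Finset.induction_on generalizing f with
  | empty => simp [av]
  | insert a U ha ih =>
    have h := ih (fun H => (f H + f (insert a H)) / 2) fun e he H => by
      have e1 : insert a (flp e H) = flp e (insert a H) := Finset.ext fun b => by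
        have : e ≠ a := fun h => ha (h ▸ he)
        by_cases h : b = e <;> simp [mem_flp, h, this]
      have h1 := abs_le.1 (hf e (mem_insert_of_mem he) H)
      have h2 := abs_le.1 (hf e (mem_insert_of_mem he) (insert a H))
      rw [e1]
      exact abs_le.2 ⟨by linarith, by linarith⟩
    rw [basic_ins ha, basic_ins ha, card_insert_of_notMem ha]
    refine (av_mono U (g := fun H => Real.exp (t ^ 2 * c ^ 2 / 8) *
      Real.exp (t * ((f H + f (insert a H)) / 2))) fun H hH => ?_).trans ?_
    · have h1 := hf a (mem_insert_self a U) H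
      rw [flp, if_neg fun h => ha (hH h)] at h1
      have h2 := Real.cosh_le_exp_half_sq (t * (f (insert a H) - f H) / 2)
      have h3 : (f (insert a H) - f H) ^ 2 ≤ c ^ 2 := sq_le_sq' (abs_le.1 h1).1 (abs_le.1 h1).2
      have h4 : (t * (f (insert a H) - f H) / 2) ^ 2 / 2 ≤ t ^ 2 * c ^ 2 / 8 := by
        nlinarith [mul_le_mul_of_nonneg_left h3 (sq_nonneg t)]
      refine le_of_eq_of_le ?_ (mul_le_mul_of_nonneg_right (h2.trans (Real.exp_le_exp.2 h4))
        (Real.exp_pos _).le)
      rw [Real.cosh_eq, div_mul_eq_mul_div, add_mul, ← Real.exp_add, ← Real.exp_add, add_comm]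
      congr 3 <;> ring
    · rw [av_mul]
      refine (mul_le_mul_of_nonneg_left h (Real.exp_pos _).le).trans_eq ?_
      rw [← Real.exp_add]
      push_cast
      ring_nf

end Maps

end Pool.Agent.Lib.MP_bd7745_co
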