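import Pool.Agent.Lib.MP_bd7745_co.Sys

/-! Birthday estimates from below. -/

set_option autoImplicit false

noncomputable section

namespace Pool.Agent.Lib.MP_bd7745_co

open Finset

variable {I : Type*}

/-- The values of unit `i` that meet `T` or make the two vertices of the unit agree. -/
theorem bdl_bad (B : I × Bool → ℤ) (i : I) (T : Finset ℤ) :
    ∃ D : Finset ℕ, D.card ≤ 2 * T.card + 1 ∧ ∀ a : ℕ, a ∉ D →
      (∀ c, B (i, c) + eps c * (a : ℤ) ∉ T) ∧
        B (i, true) + eps true * (a : ℤ) ≠ B (i, false) + eps false * (a : ℤ) := by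
  refine ⟨insert ((B (i, false) - B (i, true)) / 2).toNat
    ((T.image fun t => (t - B (i, true)).toNat) ∪ T.image fun t => (B (i, false) - t).toNat),
    ?_, fun a ha => ⟨fun c hc => ha (mem_insert_of_mem ?_), fun e => ha (mem_insert.2 (.inl ?_))⟩⟩
  · have h1 := card_image_le (s := T) (f := fun t => (t - B (i, true)).toNat)
    have h2 := card_image_le (s := T) (f := fun t => (B (i, false) - t).toNat)
    refine (card_insert_le _ _).trans (Nat.succ_le_succ ((card_union_le _ _).trans ?_))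
    omega
  · cases c
    · exact mem_union_right _ (mem_image.2 ⟨_, hc, by simp [eps]⟩)
    · exact mem_union_left _ (mem_image.2 ⟨_, hc, by simp [eps]⟩)
  · simp only [eps, if_true, Bool.false_eq_true, if_false] at e
    omega

theorem bdl_dis {B : I × Bool → ℤ} {Z : Finset ℤ} {S0 S : Finset (I × Bool)} {i : I} {X : I → ℕ}
    (hS : ∀ v ∈ S, v.1 ≠ i → v ∈ S0) (h0 : Dis B Z S0 X) (h1 : ∀ c, val B (i, c) X ∉ Z)
    (h2 : ∀ c, ∀ w ∈ S0, val B (i, c) X ≠ val B w X)
    (h3 : val B (i, true) X ≠ val B (i, false) X) : Dis B Z S X := by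
  refine ⟨fun v hv w hw e => ?_, fun v hv => ?_⟩
  · obtain ⟨j, c⟩ := v
    obtain ⟨k, d⟩ := w
    by_cases hj : j = i <;> by_cases hk : k = i
    · subst hj hk
      cases c <;> cases d
      · rfl
      · exact absurd e.symm h3
      · exact absurd e h3
      · rfl
    · subst hj
      exact absurd e (h2 c _ (hS _ hw hk))
    · subst hk
      exact absurd e.symm (h2 d _ (hS _ hv hj))
    · exact h0.1 _ (hS _ hv hj) _ (hS _ hw hk) e
  · obtain ⟨j, c⟩ := v
    by_cases hj : j = i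
    · subst hj
      exact h1 c
    · exact h0.2 _ (hS _ hv hj)

theorem bdl_sub {B : I × Bool → ℤ} {Z : Finset ℤ} {S0 S : Finset (I × Bool)} {X : I → ℕ}
    (hS : S0 ⊆ S) (h : Dis B Z S X) : Dis B Z S0 X :=
  ⟨fun v hv w hw => h.1 v (hS hv) w (hS hw), fun v hv => h.2 v (hS hv)⟩

theorem bdl_exp {u δ P P' : ℝ} (hu : 0 ≤ u) (hud : u ≤ δ) (hδ : δ ≤ 1 / 4) (hP : 0 ≤ P)
    (h : (1 - δ - u) * P ≤ (1 - δ) * P') : Real.exp (-((1 + 4 * δ) * u)) * P ≤ P' := by
  have h0 : 0 ≤ δ := hu.trans hud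
  have h1 := Real.add_one_le_exp ((1 + 4 * δ) * u)
  have h2 : 1 ≤ (1 - δ - u) * (1 + 4 * δ) := by nlinarith
  have h3 : 1 - δ ≤ (1 - δ - u) * Real.exp ((1 + 4 * δ) * u) := by
    have := mul_le_mul_of_nonneg_left h1 (by linarith : 0 ≤ 1 - δ - u)
    nlinarith
  rw [Real.exp_neg, inv_mul_le_iff₀ (Real.exp_pos _)]
  refine le_of_mul_le_mul_left ?_ (by linarith : 0 < 1 - δ)
  have h4 := mul_le_mul_of_nonneg_right h3 hP
  have h5 := mul_le_mul_of_nonneg_left h (Real.exp_pos ((1 + 4 * δ) * u)).le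
  linarith

theorem bdl_mass {M : ℕ} {p : ℝ} (hp : ∀ a, bin M a ≤ p) (D : Finset ℕ) :
    1 - D.card * p ≤ ∑ a ∈ range (M + 1) \ D, bin M a := by
  have h1 := sum_inter_add_sum_sdiff (range (M + 1)) D (bin M)
  have h2 : ∑ a ∈ range (M + 1) ∩ D, bin M a ≤ ∑ a ∈ D, bin M a :=
    sum_le_sum_of_subset_of_nonneg inter_subset_right fun a _ _ => bin_nonneg M a
  have h3 := sum_le_card_nsmul D (bin M) p fun a _ => hp a
  rw [nsmul_eq_mul] at h3
  rw [sum_bin] at h1
  linarith

variable [DecidableEq I]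

theorem bdl_lam (M : I → ℕ) (B : I × Bool → ℤ) {S : Finset (I × Bool)} {v : I × Bool}
    (hv : v ∉ S) : Lam M B (insert v S) = Lam M B S + ∑ w ∈ S, ind (v.1 ≠ w.1) * qq M B v w := by
  have h : ∑ w ∈ S, ind (w.1 ≠ v.1) * qq M B w v = ∑ w ∈ S, ind (v.1 ≠ w.1) * qq M B v w :=
    sum_congr rfl fun w _ => by rw [qq_symm, ind_congr ne_comm]
  simp only [Lam, sum_insert hv, sum_add_distrib, h]
  rw [ind_false (not_not.2 rfl)]
  ring

theorem bdl_val (B : I × Bool → ℤ) {w : I × Bool} {i : I} (h : w.1 ≠ i) (X : I → ℕ) (a : ℕ) :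
    val B w (Function.update X i a) = val B w X := by
  rw [val, val, Function.update_of_ne h]

theorem bdl_upd (B : I × Bool → ℤ) (Z : Finset ℤ) {S : Finset (I × Bool)} {i : I}
    (h : ∀ w ∈ S, w.1 ≠ i) (X : I → ℕ) (a : ℕ) :
    Dis B Z S (Function.update X i a) ↔ Dis B Z S X :=
  and_congr (forall₂_congr fun v hv => forall₂_congr fun w hw => by
    rw [bdl_val B (h v hv), bdl_val B (h w hw)]) (forall₂_congr fun v hv => by
    rw [bdl_val B (h v hv)])

theorem bdl_mul (Y : Sys I) (c : ℝ) (f : (I → ℕ) → ℝ) : Y.E (fun X => c * f X) = c * Y.E f :=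
  Y.E.map_smul c f

theorem bdl_add (Y : Sys I) (f g : (I → ℕ) → ℝ) :
    Y.E (fun X => f X + g X) = Y.E f + Y.E g := Y.E.map_add f g

theorem bdl_sum {κ : Type*} (Y : Sys I) (s : Finset κ) (f : κ → (I → ℕ) → ℝ) :
    Y.E (fun X => ∑ j ∈ s, f j X) = ∑ j ∈ s, Y.E (f j) := by
  rw [← map_sum]
  exact congrArg Y.E (funext fun X => (Finset.sum_apply X s f).symm)

theorem bdl_nonneg (Y : Sys I) {f : (I → ℕ) → ℝ} (h : ∀ X, 0 ≤ f X) : 0 ≤ Y.E f :=
  Y.E.map_zero.ge.trans (Y.mono 0 f h)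

theorem bd_step (Y : Sys I) (Z : Finset ℤ) (S : Finset (I × Bool)) (i : I) {g : ℝ}
    (hg : ∀ D : Finset ℕ, D.card ≤ 2 * S.card + 2 * Z.card + 1 →
      g ≤ ∑ a ∈ range (Y.M i + 1) \ D, bin (Y.M i) a) :
    g * Y.E (fun X => ind (Dis Y.B Z (S.filter fun v => v.1 ≠ i) X)) ≤
      Y.E fun X => ind (Dis Y.B Z S X) := by
  rw [Y.res i fun X => ind (Dis Y.B Z S X), ← bdl_mul]
  refine Y.mono _ _ fun X => ?_
  by_cases h : Dis Y.B Z (S.filter fun v => v.1 ≠ i) X
  swap
  · rw [ind_false h, mul_zero]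
    exact sum_nonneg fun a _ => mul_nonneg (bin_nonneg _ _) (ind_nonneg _)
  have hS : ∀ w ∈ S.filter fun v => v.1 ≠ i, w.1 ≠ i := fun w hw => (mem_filter.1 hw).2
  obtain ⟨D, hD, hD'⟩ := bdl_bad Y.B i
    (((S.filter fun v => v.1 ≠ i).image fun w => val Y.B w X) ∪ Z)
  have h1 := card_union_le ((S.filter fun v => v.1 ≠ i).image fun w => val Y.B w X) Z
  have h2 := card_image_le (s := S.filter fun v => v.1 ≠ i) (f := fun w => val Y.B w X)
  have h3 := card_filter_le S fun v => v.1 ≠ i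
  have hv : ∀ c a, val Y.B (i, c) (Function.update X i a) = Y.B (i, c) + eps c * (a : ℤ) :=
    fun c a => by rw [val, Function.update_self]
  rw [ind_true h, mul_one]
  refine (hg D (by omega)).trans (le_trans (sum_le_sum fun a ha => ?_)
    (sum_le_sum_of_subset_of_nonneg (sdiff_subset (t := D)) fun a _ _ =>
      mul_nonneg (bin_nonneg _ _) (ind_nonneg _)))
  obtain ⟨e1, e2⟩ := hD' a (mem_sdiff.1 ha).2
  rw [ind_true, mul_one]
  refine bdl_dis (fun v hv hi => mem_filter.2 ⟨hv, hi⟩) ((bdl_upd _ _ hS X a).2 h)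
    (fun c m => e1 c (mem_union_right _ (hv c a ▸ m))) (fun c w hw e => e1 c ?_)
    (by rwa [hv, hv])
  rw [hv, bdl_val _ (hS w hw)] at e
  exact mem_union_left _ (mem_image.2 ⟨w, hw, e.symm⟩)

/-- One more unit. -/
theorem bdl_grow (Y : Sys I) (Z : Finset ℤ) (hZ : Z.card ≤ 1) {p δ : ℝ}
    (hp : ∀ i a, bin (Y.M i) a ≤ p) (hp0 : 0 ≤ p) (hδ4 : δ ≤ 1 / 4) (S : Finset (I × Bool)) (k : I)
    (hk : ∀ w ∈ S, w.1 ≠ k) (hS : (2 * (S.card : ℝ) + 3) * p ≤ δ) :
    Real.exp (-((1 + 4 * δ) *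
        (3 * p + ∑ w ∈ S, (qq Y.M Y.B (k, true) w + qq Y.M Y.B (k, false) w)))) *
      Y.E (fun X => ind (Dis Y.B Z S X)) ≤
        Y.E fun X => ind (Dis Y.B Z (insert (k, true) (insert (k, false) S)) X) := by
  have hP : 0 ≤ Y.E fun X => ind (Dis Y.B Z S X) := bdl_nonneg Y fun _ => ind_nonneg _
  have hδ0 : 0 ≤ δ := le_trans (by positivity) hS
  have q0 : 0 ≤ ∑ w ∈ S, (qq Y.M Y.B (k, true) w + qq Y.M Y.B (k, false) w) :=
    sum_nonneg fun w _ => add_nonneg (qq_nonneg _ _ _ _) (qq_nonneg _ _ _ _)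
  have q1 := sum_le_card_nsmul S (fun w => qq Y.M Y.B (k, true) w + qq Y.M Y.B (k, false) w)
    (p + p) fun w _ => add_le_add (qq_le _ _ hp _ _) (qq_le _ _ hp _ _)
  rw [nsmul_eq_mul] at q1
  refine bdl_exp (by positivity) (by linarith) hδ4 hP ?_
  obtain ⟨D, hD, hD'⟩ := bdl_bad Y.B k Z
  have h1 : Y.E (fun X => ind (Dis Y.B Z S X) * ind (X k ∈ D)) ≤
      3 * p * Y.E fun X => ind (Dis Y.B Z S X) := by
    rw [Y.res k, ← bdl_mul]
    refine Y.mono _ _ fun X => ?_
    simp only [bdl_upd _ _ hk, Function.update_self, mul_left_comm (bin _ _)]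
    rw [← mul_sum, mul_comm]
    refine mul_le_mul_of_nonneg_right ?_ (ind_nonneg _)
    have a1 := bdl_mass (hp k) D
    have a2 := sum_inter_add_sum_sdiff (range (Y.M k + 1)) D (bin (Y.M k))
    have a3 : ∑ a ∈ range (Y.M k + 1), bin (Y.M k) a * ind (a ∈ D) =
        ∑ a ∈ range (Y.M k + 1) ∩ D, bin (Y.M k) a := by
      rw [← sum_ite_mem]
      refine sum_congr rfl fun a _ => ?_
      split_ifs with h
      · rw [ind_true h, mul_one]
      · rw [ind_false h, mul_zero]
    have a4 : (D.card : ℝ) ≤ 3 := by exact_mod_cast (by omega : D.card ≤ 3)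
    have a5 := mul_le_mul_of_nonneg_right a4 hp0
    rw [sum_bin] at a2
    linarith
  have h2 : ∀ c, ∀ w ∈ S, (1 - δ) * Y.E (fun X => ind (Dis Y.B Z (S.filter fun v => v.1 ≠ w.1) X) *
      ind (val Y.B (k, c) X = val Y.B w X)) ≤
        qq Y.M Y.B (k, c) w * Y.E fun X => ind (Dis Y.B Z S X) := fun c w hw => by
    rw [Y.pair (v := (k, c)) (hk w hw).symm _
      (fun X a => ind_congr (bdl_upd _ _ (fun u hu => hk u (mem_filter.1 hu).1) X a))
      (fun X a => ind_congr (bdl_upd _ _ (fun u hu => (mem_filter.1 hu).2) X a)), mul_left_comm]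
    refine mul_le_mul_of_nonneg_left (bd_step Y Z S w.1 fun D hD => ?_) (qq_nonneg _ _ _ _)
    have a1 : (D.card : ℝ) ≤ 2 * S.card + 3 := by
      exact_mod_cast (by omega : D.card ≤ 2 * S.card + 3)
    have a2 := mul_le_mul_of_nonneg_right a1 hp0
    linarith [bdl_mass (hp w.1) D]
  have h3 : Y.E (fun X => ind (Dis Y.B Z S X)) ≤
      Y.E fun X => ind (Dis Y.B Z (insert (k, true) (insert (k, false) S)) X) +
        (ind (Dis Y.B Z S X) * ind (X k ∈ D) + ∑ w ∈ S,
          (ind (Dis Y.B Z (S.filter fun v => v.1 ≠ w.1) X) *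
              ind (val Y.B (k, true) X = val Y.B w X) +
            ind (Dis Y.B Z (S.filter fun v => v.1 ≠ w.1) X) *
              ind (val Y.B (k, false) X = val Y.B w X))) := by
    refine Y.mono _ _ fun X => ?_
    have n1 : ∀ a b : Prop, 0 ≤ ind a * ind b := fun a b => mul_nonneg (ind_nonneg a) (ind_nonneg b)
    have n2 := ind_nonneg (Dis Y.B Z (insert (k, true) (insert (k, false) S)) X)
    have n3 := n1 (Dis Y.B Z S X) (X k ∈ D)
    have n4 := fun w hw => single_le_sum (s := S) (a := w) (f := fun w =>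
      ind (Dis Y.B Z (S.filter fun v => v.1 ≠ w.1) X) * ind (val Y.B (k, true) X = val Y.B w X) +
        ind (Dis Y.B Z (S.filter fun v => v.1 ≠ w.1) X) *
          ind (val Y.B (k, false) X = val Y.B w X)) (fun _ _ => add_nonneg (n1 _ _) (n1 _ _)) hw
    have n5 := sum_nonneg (s := S) (f := fun w =>
      ind (Dis Y.B Z (S.filter fun v => v.1 ≠ w.1) X) * ind (val Y.B (k, true) X = val Y.B w X) +
        ind (Dis Y.B Z (S.filter fun v => v.1 ≠ w.1) X) *
          ind (val Y.B (k, false) X = val Y.B w X)) fun _ _ => add_nonneg (n1 _ _) (n1 _ _)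
    by_cases c1 : Dis Y.B Z S X
    swap
    · have := ind_false c1
      linarith
    have e1 := ind_true c1
    by_cases c2 : X k ∈ D
    · rw [e1, ind_true c2]
      linarith
    by_cases c3 : ∃ c, ∃ w ∈ S, val Y.B (k, c) X = val Y.B w X
    · obtain ⟨c, w, hw, e⟩ := c3
      have n6 := n4 w hw
      have n7 := ind_nonneg (val Y.B (k, true) X = val Y.B w X)
      have n8 := ind_nonneg (val Y.B (k, false) X = val Y.B w X)
      have n9 := ind_true e
      simp only [ind_true (bdl_sub (filter_subset (fun v => v.1 ≠ w.1) S) c1), one_mul] at n6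
      cases c <;> linarith
    have := ind_true (bdl_dis (S := insert (k, true) (insert (k, false) S)) (i := k)
      (fun v hv hi => by
        rcases mem_insert.1 hv with rfl | hv
        · exact absurd rfl hi
        rcases mem_insert.1 hv with rfl | hv
        · exact absurd rfl hi
        exact hv) c1 (hD' _ c2).1 (fun c w hw e => c3 ⟨c, w, hw, e⟩) (hD' _ c2).2)
    linarith
  simp only [bdl_add, bdl_sum] at h3
  have h4 := sum_le_sum fun w hw => add_le_add (h2 true w hw) (h2 false w hw)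
  simp only [← mul_add, ← add_mul] at h4
  rw [← mul_sum, ← sum_mul] at h4
  have h5 := mul_le_mul_of_nonneg_left h3 (by linarith : 0 ≤ 1 - δ)
  have h6 := mul_le_mul_of_nonneg_left h1 (by linarith : 0 ≤ 1 - δ)
  have h7 : 0 ≤ δ * (3 * p * Y.E fun X => ind (Dis Y.B Z S X)) := by positivity
  linarith

theorem bdl_prod {k : I} (J : Finset I) : insert k J ×ˢ (univ : Finset Bool) =
    insert (k, true) (insert (k, false) (J ×ˢ univ)) := by
  ext ⟨j, c⟩
  cases c <;> simp

theorem bdl_empty (Y : Sys I) (Z : Finset ℤ) :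
    (Y.E fun X => ind (Dis Y.B Z ((∅ : Finset I) ×ˢ univ) X)) = Y.E fun _ => 1 :=
  congrArg Y.E (funext fun _ => ind_true (by simp [Dis]))

variable [Fintype I]

omit [DecidableEq I] in
theorem bdl_card (J : Finset I) : (J ×ˢ (univ : Finset Bool)).card ≤ 2 * Fintype.card I := by
  have := card_le_univ J
  rw [card_product, card_univ, Fintype.card_bool]
  omega

theorem bd_low3 (Y : Sys I) (Z : Finset ℤ) (hZ : Z.card ≤ 1) {g : ℝ} (hg0 : 0 ≤ g)
    (hg : ∀ i, ∀ D : Finset ℕ, D.card ≤ 4 * Fintype.card I + 3 →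
      g ≤ ∑ a ∈ range (Y.M i + 1) \ D, bin (Y.M i) a) :
    g ^ Fintype.card I * Y.E (fun _ => 1) ≤ Y.E fun X => ind (Dis Y.B Z univ X) := by
  have key : ∀ J : Finset I,
      g ^ J.card * Y.E (fun _ => 1) ≤ Y.E fun X => ind (Dis Y.B Z (J ×ˢ univ) X) := fun J => by
    induction J using Finset.induction_on with
    | empty => rw [bdl_empty, card_empty, pow_zero, one_mul]
    | insert k J hk ih =>
      have h1 := bdl_card (insert k J)
      have h2 := bd_step Y Z (insert k J ×ˢ univ) k fun D hD => hg k D (by omega)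
      have h3 : ((insert k J ×ˢ (univ : Finset Bool)).filter fun v => v.1 ≠ k) = J ×ˢ univ := by
        ext ⟨j, c⟩
        simp only [mem_filter, mem_product, mem_insert, mem_univ, and_true]
        exact ⟨fun h => h.1.resolve_left h.2, fun h => ⟨.inr h, fun e => hk (e ▸ h)⟩⟩
      rw [h3] at h2
      rw [card_insert_of_notMem hk, pow_succ', mul_assoc]
      exact (mul_le_mul_of_nonneg_left ih hg0).trans h2
  have := key univ
  rwa [univ_product_univ, card_univ] at this

theorem bd_low (Y : Sys I) (Z : Finset ℤ) (hZ : Z.card ≤ 1) {p δ : ℝ}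
    (hp : ∀ i a, bin (Y.M i) a ≤ p) (hp0 : 0 ≤ p)
    (hδ : δ = (4 * (Fintype.card I : ℝ) + 3) * p) (hδ4 : δ ≤ 1 / 4) :
    Real.exp (-(2 * δ + (1 + 8 * δ) * Lam Y.M Y.B univ)) * Y.E (fun _ => 1) ≤
      Y.E fun X => ind (Dis Y.B Z univ X) := by
  have key : ∀ J : Finset I,
      Real.exp (-((1 + 4 * δ) * (3 * p * J.card + Lam Y.M Y.B (J ×ˢ univ)))) * Y.E (fun _ => 1) ≤
        Y.E fun X => ind (Dis Y.B Z (J ×ˢ univ) X) := fun J => by
    induction J using Finset.induction_on with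
    | empty =>
      rw [bdl_empty]
      simp [Lam]
    | insert k J hk ih =>
      have h0 : ∀ w ∈ J ×ˢ (univ : Finset Bool), w.1 ≠ k := fun w hw e =>
        hk (e ▸ (mem_product.1 hw).1)
      have h1 : ((J ×ˢ (univ : Finset Bool)).card : ℝ) ≤ 2 * Fintype.card I := by
        exact_mod_cast bdl_card J
      have h2 := bdl_grow Y Z hZ hp hp0 hδ4 (J ×ˢ univ) k h0
        (hδ ▸ mul_le_mul_of_nonneg_right (by linarith) hp0)
      have h3 : (k, false) ∉ J ×ˢ (univ : Finset Bool) := fun m => h0 _ m rfl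
      have h4 : (k, true) ∉ insert (k, false) (J ×ˢ (univ : Finset Bool)) := fun m =>
        (mem_insert.1 m).elim (by simp) fun m => h0 _ m rfl
      have h5 : ∀ c, ∑ w ∈ J ×ˢ (univ : Finset Bool), ind (k ≠ w.1) * qq Y.M Y.B (k, c) w =
          ∑ w ∈ J ×ˢ (univ : Finset Bool), qq Y.M Y.B (k, c) w := fun c =>
        sum_congr rfl fun w hw => by rw [ind_true (h0 w hw).symm, one_mul]
      rw [bdl_prod, bdl_lam _ _ h4, bdl_lam _ _ h3, sum_insert h3, ind_false (not_not.2 rfl), h5,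
        h5, card_insert_of_notMem hk]
      refine le_trans (le_of_eq ?_)
        ((mul_le_mul_of_nonneg_left ih (Real.exp_pos _).le).trans h2)
      rw [← mul_assoc, ← Real.exp_add, sum_add_distrib]
      push_cast
      congr 2
      ring
  have h1 := key univ
  rw [univ_product_univ, card_univ] at h1
  refine le_trans (mul_le_mul_of_nonneg_right (Real.exp_le_exp.2 ?_)
    (bdl_nonneg Y fun _ => zero_le_one)) h1
  have h2 : 0 ≤ Lam Y.M Y.B univ :=
    div_nonneg (sum_nonneg fun _ _ => sum_nonneg fun _ _ =>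
      mul_nonneg (ind_nonneg _) (qq_nonneg _ _ _ _)) zero_le_two
  have h3 : 0 ≤ p * Fintype.card I := by positivity
  have h4 : 0 ≤ δ := by
    rw [hδ]
    positivity
  have h5 := mul_nonneg h4 h2
  have h6 := mul_le_mul_of_nonneg_right hδ4 h3
  linarith

end Pool.Agent.Lib.MP_bd7745_co
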