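import Pool.Agent.Lib.MP_bd7745_co.Sys

/-! Birthday estimate from above. -/

set_option autoImplicit false

noncomputable section

namespace Pool.Agent.Lib.MP_bd7745_co

open Finset

theorem bu_mem {M : ℕ} {p : ℝ} (hp : ∀ a, bin M a ≤ p) (hp0 : 0 ≤ p) (b e : ℤ) (he : e ≠ 0)
    (T : Finset ℤ) :
    ∑ y ∈ range (M + 1), bin M y * ind (b + e * (y : ℤ) ∈ T) ≤ T.card * p := by
  have h1 : cnt (range (M + 1)) (fun y : ℕ => b + e * (y : ℤ) ∈ T) ≤ T.card := by
    rw [cnt_eq]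
    refine card_le_card_of_injOn (fun y : ℕ => b + e * (y : ℤ))
      (fun y hy => (mem_filter.1 hy).2) fun y _ z _ h => ?_
    have h2 := mul_left_cancel₀ he (add_left_cancel h)
    exact_mod_cast h2
  have h2 : (cnt (range (M + 1)) (fun y : ℕ => b + e * (y : ℤ) ∈ T) : ℝ) ≤ T.card := by
    exact_mod_cast h1
  rw [cnt_cast] at h2
  refine le_trans (sum_le_sum fun y _ => mul_le_mul_of_nonneg_right (hp y) (ind_nonneg _)) ?_
  rw [← mul_sum, mul_comm]
  exact mul_le_mul_of_nonneg_right h2 hp0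

theorem bu_two {M M' : ℕ} {p K : ℝ} (hp0 : 0 ≤ p) (Q : ℕ → ℕ → Prop) (α : ℕ → ℝ)
    (h0 : ∀ x, 0 ≤ α x) (hQ : ∀ x, ∑ y ∈ range (M' + 1), bin M' y * ind (Q x y) ≤ p)
    (hK : ∑ x ∈ range (M + 1), bin M x * α x ≤ K) :
    ∑ x ∈ range (M + 1), ∑ y ∈ range (M' + 1),
      bin M x * bin M' y * (ind (Q x y) * α x) ≤ p * K := by
  refine le_trans ?_ (mul_le_mul_of_nonneg_left hK hp0)
  rw [mul_sum]
  refine sum_le_sum fun x _ => ?_
  have h1 := mul_le_mul_of_nonneg_right (hQ x) (mul_nonneg (bin_nonneg M x) (h0 x))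
  refine le_trans (le_of_eq ?_) h1
  rw [sum_mul]
  exact sum_congr rfl fun y _ => by ring

theorem bu_eps_ne (c : Bool) : eps c ≠ 0 := by cases c <;> simp [eps]

theorem bu_eps_not (c : Bool) : eps (!c) = - eps c := by cases c <;> simp [eps]

theorem bu_unit {I : Type*} {u v : I × Bool} (h : u.1 = v.1) : u = v ∨ u = pt v := by
  obtain ⟨i, c⟩ := u
  obtain ⟨j, d⟩ := v
  simp only at h
  subst h
  cases c <;> cases d <;> simp [pt]

theorem bu_bad_symm {I : Type*} (B : I × Bool → ℤ) (S : Finset (I × Bool)) (v w : I × Bool) :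
    Bad B S v w ↔ Bad B S w v :=
  ⟨fun h => ⟨h.1.symm, h.2.2.1, h.2.1, h.2.2.2.symm⟩,
    fun h => ⟨h.1.symm, h.2.2.1, h.2.1, h.2.2.2.symm⟩⟩

theorem bu_dis_mono {I : Type*} {B : I × Bool → ℤ} {S S' : Finset (I × Bool)} (h : S' ⊆ S)
    {X : I → ℕ} (hd : Dis B ∅ S X) : Dis B ∅ S' X :=
  ⟨fun a ha b hb => hd.1 a (h ha) b (h hb), fun _ _ => notMem_empty _⟩

variable {I : Type*} [DecidableEq I]

theorem bu_nonneg (Y : Sys I) {f : (I → ℕ) → ℝ} (h : ∀ X, 0 ≤ f X) : 0 ≤ Y.E f := by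
  have h1 := Y.mono 0 f h
  rwa [map_zero] at h1

theorem bu_smul (Y : Sys I) (c : ℝ) (f : (I → ℕ) → ℝ) :
    Y.E (fun X => c * f X) = c * Y.E f := by
  have h1 := map_smul Y.E c f
  exact h1

/-- Distinctness after resampling two units. -/
theorem bu_dis {B : I × Bool → ℤ} {S0 S : Finset (I × Bool)} (hS : S ⊆ S0) {v w : I × Bool}
    (hv : v ∉ S) (hvw : v.1 ≠ w.1) (hb : ¬ Bad B S0 v w) {X : I → ℕ} (T : Finset ℤ)
    (hT : ∀ u ∈ S, u.1 ≠ v.1 → u.1 ≠ w.1 → val B u X ∈ T)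
    (hd : Dis B ∅ (S.filter fun u => u.1 ≠ v.1 ∧ u.1 ≠ w.1) X) (x y : ℕ)
    (hq : B v + eps v.2 * (x : ℤ) = B w + eps w.2 * (y : ℤ))
    (h1 : B (pt v) + -eps v.2 * (x : ℤ) ∉ T)
    (h2 : B v - B (pt v) + 2 * eps v.2 * (x : ℤ) ∉ ({0} : Finset ℤ))
    (h3 : B w + eps w.2 * (y : ℤ) ∉ T) (h4 : B (pt w) + -eps w.2 * (y : ℤ) ∉ T)
    (h5 : B w - B (pt w) + 2 * eps w.2 * (y : ℤ) ∉ ({0} : Finset ℤ)) :
    Dis B ∅ S (Function.update (Function.update X v.1 x) w.1 y) := by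
  set X' := Function.update (Function.update X v.1 x) w.1 y with hX
  have e1 : val B (pt v) X' = B (pt v) + -eps v.2 * (x : ℤ) := by
    simp only [val, pt, hX, bu_eps_not, Function.update_of_ne hvw, Function.update_self]
  have e2 : val B w X' = B w + eps w.2 * (y : ℤ) := by
    simp only [val, hX, Function.update_self]
  have e3 : val B (pt w) X' = B (pt w) + -eps w.2 * (y : ℤ) := by
    simp only [val, pt, hX, bu_eps_not, Function.update_self]
  have e4 : ∀ u : I × Bool, u.1 ≠ v.1 → u.1 ≠ w.1 → val B u X' = val B u X := by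
    intro u a b
    simp only [val, hX, Function.update_of_ne a, Function.update_of_ne b]
  have hc : ∀ u ∈ S, u = pt v ∨ u = w ∨ u = pt w ∨ (u.1 ≠ v.1 ∧ u.1 ≠ w.1) := by
    intro u hu
    by_cases a : u.1 = v.1
    · rcases bu_unit a with h | h
      · exact absurd (h ▸ hu) hv
      · exact Or.inl h
    · by_cases b : u.1 = w.1
      · rcases bu_unit b with h | h
        · exact Or.inr (Or.inl h)
        · exact Or.inr (Or.inr (Or.inl h))
      · exact Or.inr (Or.inr (Or.inr ⟨a, b⟩))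
  rw [mem_singleton] at h2 h5
  have hbad : pt v ∈ S → pt w ∈ S → val B (pt v) X' ≠ val B (pt w) X' := by
    intro a b h
    rw [e1, e3] at h
    exact hb ⟨hvw, hS a, hS b, by linarith⟩
  have k1 : val B (pt v) X' ≠ val B w X' := fun h => h2 (by rw [e1, e2] at h; linarith)
  have k2 : val B w X' ≠ val B (pt w) X' := fun h => h5 (by rw [e2, e3] at h; linarith)
  have k3 : ∀ u ∈ S, u.1 ≠ v.1 ∧ u.1 ≠ w.1 → val B u X' ∈ T := fun u hu h => by
    rw [e4 u h.1 h.2]; exact hT u hu h.1 h.2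
  rw [← e1] at h1
  rw [← e2] at h3
  rw [← e3] at h4
  refine ⟨fun a ha b hb' h => ?_, fun _ _ => notMem_empty _⟩
  rcases hc a ha with rfl | rfl | rfl | a1 <;> rcases hc b hb' with rfl | rfl | rfl | b1
  · rfl
  · exact absurd h k1
  · exact absurd h (hbad ha hb')
  · exact absurd (h ▸ k3 b hb' b1) h1
  · exact absurd h.symm k1
  · rfl
  · exact absurd h k2
  · exact absurd (h ▸ k3 b hb' b1) h3
  · exact absurd h.symm (hbad hb' ha)
  · exact absurd h.symm k2
  · rfl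
  · exact absurd (h ▸ k3 b hb' b1) h4
  · exact absurd (h ▸ k3 a ha a1) h1
  · exact absurd (h ▸ k3 a ha a1) h3
  · exact absurd (h ▸ k3 a ha a1) h4
  · rw [e4 a a1.1 a1.2, e4 b b1.1 b1.2] at h
    exact hd.1 a (mem_filter.2 ⟨ha, a1⟩) b (mem_filter.2 ⟨hb', b1⟩) h

theorem bu_ind {D Q A1 A2 A3 A4 A5 : Prop} (h : Q → ¬ A1 → ¬ A2 → ¬ A3 → ¬ A4 → ¬ A5 → D) :
    ind Q - ind Q * (ind A1 + ind A2) - ind Q * (ind A3 + ind A4 + ind A5) ≤ ind D * ind Q := by
  by_cases hq : Q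
  · rw [ind_true hq]
    have n1 := ind_nonneg A1
    have n2 := ind_nonneg A2
    have n3 := ind_nonneg A3
    have n4 := ind_nonneg A4
    have n5 := ind_nonneg A5
    have n6 := ind_nonneg D
    by_cases a1 : A1
    · rw [ind_true a1]; linarith
    by_cases a2 : A2
    · rw [ind_true a2]; linarith
    by_cases a3 : A3
    · rw [ind_true a3]; linarith
    by_cases a4 : A4
    · rw [ind_true a4]; linarith
    by_cases a5 : A5
    · rw [ind_true a5]; linarith
    rw [ind_true (h hq a1 a2 a3 a4 a5)]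
    linarith
  · rw [ind_false hq]
    simp

/-- The pointwise inequality. -/
theorem bu_point {M : I → ℕ} {B : I × Bool → ℤ} {p : ℝ} (hp : ∀ i a, bin (M i) a ≤ p)
    (hp0 : 0 ≤ p) {S0 S : Finset (I × Bool)} (hS : S ⊆ S0) {v w : I × Bool}
    (hv : v ∉ S) (hvw : v.1 ≠ w.1) (hb : ¬ Bad B S0 v w) {X : I → ℕ}
    (hd : Dis B ∅ (S.filter fun u => u.1 ≠ v.1 ∧ u.1 ≠ w.1) X) :
    qq M B v w - (3 * (S0.card : ℝ) + 2) * p ^ 2 ≤
      ∑ x ∈ range (M v.1 + 1), ∑ y ∈ range (M w.1 + 1), bin (M v.1) x * bin (M w.1) y *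
        (ind (Dis B ∅ S (Function.update (Function.update X v.1 x) w.1 y)) *
          ind (B v + eps v.2 * (x : ℤ) = B w + eps w.2 * (y : ℤ))) := by
  set T := S.image fun u => val B u X with hT
  have hTc : (T.card : ℝ) ≤ S0.card := by
    exact_mod_cast card_image_le.trans (card_le_card hS)
  have hTp := mul_le_mul_of_nonneg_right hTc hp0
  have n1 := neg_ne_zero.2 (bu_eps_ne v.2)
  have n2 := neg_ne_zero.2 (bu_eps_ne w.2)
  have n3 := mul_ne_zero (two_ne_zero (α := ℤ)) (bu_eps_ne v.2)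
  have n4 := mul_ne_zero (two_ne_zero (α := ℤ)) (bu_eps_ne w.2)
  have hA := bu_two (M := M v.1) (M' := M w.1) (K := (S0.card + 1) * p) hp0
    (fun x y => B v + eps v.2 * (x : ℤ) = B w + eps w.2 * (y : ℤ))
    (fun x => ind (B (pt v) + -eps v.2 * (x : ℤ) ∈ T) +
      ind (B v - B (pt v) + 2 * eps v.2 * (x : ℤ) ∈ ({0} : Finset ℤ)))
    (fun x => add_nonneg (ind_nonneg _) (ind_nonneg _))
    (fun x => by
      have h := bu_mem (hp w.1) hp0 (B w) _ (bu_eps_ne w.2) {B v + eps v.2 * (x : ℤ)}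
      rw [card_singleton, Nat.cast_one, one_mul] at h
      refine le_trans (le_of_eq (sum_congr rfl fun y _ => ?_)) h
      rw [ind_congr (mem_singleton.trans eq_comm)])
    (by
      have h1 := bu_mem (hp v.1) hp0 (B (pt v)) _ n1 T
      have h2 := bu_mem (hp v.1) hp0 (B v - B (pt v)) _ n3 {0}
      rw [card_singleton, Nat.cast_one, one_mul] at h2
      simp only [mul_add, sum_add_distrib]
      linarith)
  have hB := bu_two (M := M w.1) (M' := M v.1) (K := (2 * S0.card + 1) * p) hp0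
    (fun y x => B v + eps v.2 * (x : ℤ) = B w + eps w.2 * (y : ℤ))
    (fun y => ind (B w + eps w.2 * (y : ℤ) ∈ T) + ind (B (pt w) + -eps w.2 * (y : ℤ) ∈ T) +
      ind (B w - B (pt w) + 2 * eps w.2 * (y : ℤ) ∈ ({0} : Finset ℤ)))
    (fun x => add_nonneg (add_nonneg (ind_nonneg _) (ind_nonneg _)) (ind_nonneg _))
    (fun y => by
      have h := bu_mem (hp v.1) hp0 (B v) _ (bu_eps_ne v.2) {B w + eps w.2 * (y : ℤ)}
      rw [card_singleton, Nat.cast_one, one_mul] at h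
      refine le_trans (le_of_eq (sum_congr rfl fun y _ => ?_)) h
      rw [ind_congr mem_singleton])
    (by
      have h0 := bu_mem (hp w.1) hp0 (B w) _ (bu_eps_ne w.2) T
      have h1 := bu_mem (hp w.1) hp0 (B (pt w)) _ n2 T
      have h2 := bu_mem (hp w.1) hp0 (B w - B (pt w)) _ n4 {0}
      rw [card_singleton, Nat.cast_one, one_mul] at h2
      simp only [mul_add, sum_add_distrib]
      linarith)
  rw [sum_comm] at hB
  have hC : qq M B v w - p * ((S0.card + 1) * p) - p * ((2 * S0.card + 1) * p) =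
      qq M B v w - (3 * (S0.card : ℝ) + 2) * p ^ 2 := by ring
  rw [← hC]
  refine le_trans (sub_le_sub (sub_le_sub_left hA _) hB) ?_
  unfold qq
  rw [← sum_sub_distrib, ← sum_sub_distrib]
  refine sum_le_sum fun x _ => ?_
  rw [← sum_sub_distrib, ← sum_sub_distrib]
  refine sum_le_sum fun y _ => ?_
  rw [mul_comm (bin (M w.1) y), ← mul_sub, ← mul_sub]
  refine mul_le_mul_of_nonneg_left (bu_ind fun hq h1 h2 h3 h4 h5 => ?_)
    (mul_nonneg (bin_nonneg _ _) (bin_nonneg _ _))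
  exact bu_dis hS hv hvw hb T (fun u hu _ _ => mem_image_of_mem _ hu) hd x y hq h1 h2 h3 h4 h5

/-- One coincidence on the event that the values on `S` are distinct. -/
theorem bd_hit (Y : Sys I) {p : ℝ} (hp : ∀ i a, bin (Y.M i) a ≤ p) (hp0 : 0 ≤ p)
    (S0 S : Finset (I × Bool)) (hS : S ⊆ S0) {v w : I × Bool} (hv0 : v ∈ S0) (hv : v ∉ S)
    (hw : w ∈ S) (hvw : v.1 ≠ w.1) :
    (qq Y.M Y.B v w - p * ind (Bad Y.B S0 v w) - (3 * (S0.card : ℝ) + 2) * p ^ 2) *
        Y.E (fun X => ind (Dis Y.B ∅ S X)) ≤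
      Y.E fun X => ind (Dis Y.B ∅ S X) * ind (val Y.B v X = val Y.B w X) := by
  have _ := And.intro hv0 hw
  have h0 : 0 ≤ Y.E (fun X => ind (Dis Y.B ∅ S X)) := bu_nonneg Y fun X => ind_nonneg _
  have h1 : 0 ≤ Y.E fun X => ind (Dis Y.B ∅ S X) * ind (val Y.B v X = val Y.B w X) :=
    bu_nonneg Y fun X => mul_nonneg (ind_nonneg _) (ind_nonneg _)
  rcases le_total (qq Y.M Y.B v w - p * ind (Bad Y.B S0 v w) -
    (3 * (S0.card : ℝ) + 2) * p ^ 2) 0 with hc | hc
  · exact (mul_nonpos_of_nonpos_of_nonneg hc h0).trans h1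
  by_cases hb : Bad Y.B S0 v w
  · refine (mul_nonpos_of_nonpos_of_nonneg ?_ h0).trans h1
    have h2 := qq_le Y.M Y.B hp v w
    have h3 : 0 ≤ (3 * (S0.card : ℝ) + 2) * p ^ 2 := by positivity
    rw [ind_true hb]
    linarith
  rw [ind_false hb, mul_zero, sub_zero] at hc ⊢
  have h2 : Y.E (fun X => ind (Dis Y.B ∅ S X)) ≤
      Y.E fun X => ind (Dis Y.B ∅ (S.filter fun u => u.1 ≠ v.1 ∧ u.1 ≠ w.1) X) :=
    Y.mono _ _ fun X => ind_mono (bu_dis_mono (filter_subset _ _))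
  refine (mul_le_mul_of_nonneg_left h2 hc).trans ?_
  rw [← bu_smul, Y.res2 hvw fun X => ind (Dis Y.B ∅ S X) * ind (val Y.B v X = val Y.B w X)]
  refine Y.mono _ _ fun X => ?_
  by_cases hd : Dis Y.B ∅ (S.filter fun u => u.1 ≠ v.1 ∧ u.1 ≠ w.1) X
  · rw [ind_true hd, mul_one]
    refine (bu_point hp hp0 hS hv hvw hb hd).trans (le_of_eq ?_)
    simp only [val, Function.update_of_ne hvw, Function.update_self]
  · rw [ind_false hd, mul_zero]
    exact sum_nonneg fun x _ => sum_nonneg fun y _ => mul_nonneg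
      (mul_nonneg (bin_nonneg _ _) (bin_nonneg _ _)) (mul_nonneg (ind_nonneg _) (ind_nonneg _))

theorem bu_ins {B : I × Bool → ℤ} {S : Finset (I × Bool)} {v : I × Bool} (hv : v ∉ S)
    (X : I → ℕ) : ind (Dis B ∅ (insert v S) X) ≤
      ind (Dis B ∅ S X) - ∑ w ∈ S, ind (Dis B ∅ S X) * ind (val B v X = val B w X) := by
  by_cases hd : Dis B ∅ S X
  · rw [ind_true hd]
    by_cases h : ∃ w ∈ S, val B v X = val B w X
    · obtain ⟨w, hw, h⟩ := h
      rw [ind_false fun h2 : Dis B ∅ (insert v S) X =>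
        hv (h2.1 v (mem_insert_self _ _) w (mem_insert_of_mem hw) h ▸ hw),
        sum_eq_single_of_mem w hw fun u hu hne => by
          rw [ind_false fun h3 => hne (hd.1 u hu w hw (h3.symm.trans h)), mul_zero],
        ind_true h]
      norm_num
    · rw [sum_eq_zero fun u hu => by rw [ind_false fun h3 => h ⟨u, hu, h3⟩, mul_zero], sub_zero]
      exact ind_le_one _
  · rw [ind_false hd, ind_false fun h => hd (bu_dis_mono (subset_insert _ _) h)]
    simp

theorem bu_ind_step (Y : Sys I) (S0 : Finset (I × Bool)) (k : I × Bool → I × Bool → ℝ)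
    (hs : ∀ v w, k v w = k w v) (hz : ∀ v, k v v = 0)
    (hk : ∀ S ⊆ S0, ∀ v ∈ S0, v ∉ S → ∀ w ∈ S, k v w * Y.E (fun X => ind (Dis Y.B ∅ S X)) ≤
      Y.E fun X => ind (Dis Y.B ∅ S X) * ind (val Y.B v X = val Y.B w X))
    (S : Finset (I × Bool)) (hS : S ⊆ S0) :
    Y.E (fun X => ind (Dis Y.B ∅ S X)) ≤
      Real.exp (-((∑ v ∈ S, ∑ w ∈ S, k v w) / 2)) * Y.E (fun _ => 1) := by
  induction S using Finset.induction_on with
  | empty =>
    rw [sum_empty, zero_div, neg_zero, Real.exp_zero, one_mul]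
    exact Y.mono _ _ fun X => ind_le_one _
  | insert v S hv ih =>
    have hS' := (subset_insert v S).trans hS
    have h0 : 0 ≤ Y.E (fun X => ind (Dis Y.B ∅ S X)) := bu_nonneg Y fun X => ind_nonneg _
    have h1 := Y.mono _ _ (bu_ins (B := Y.B) hv)
    have h2 : Y.E (fun X => ind (Dis Y.B ∅ S X) -
        ∑ w ∈ S, ind (Dis Y.B ∅ S X) * ind (val Y.B v X = val Y.B w X)) =
        Y.E (fun X => ind (Dis Y.B ∅ S X)) -
          ∑ w ∈ S, Y.E fun X => ind (Dis Y.B ∅ S X) * ind (val Y.B v X = val Y.B w X) := by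
      rw [← map_sum, ← map_sub]
      congr 1
      funext X
      simp only [Pi.sub_apply, Finset.sum_apply]
    have h3 := sum_le_sum fun w hw => hk S hS' v (hS (mem_insert_self _ _)) hv w hw
    rw [← sum_mul] at h3
    have h4 := mul_le_mul_of_nonneg_right (Real.one_sub_le_exp_neg (∑ w ∈ S, k v w)) h0
    have h5 := mul_le_mul_of_nonneg_left (ih hS') (Real.exp_pos (-∑ w ∈ S, k v w)).le
    have e : -((∑ a ∈ insert v S, ∑ w ∈ insert v S, k a w) / 2) =
        -∑ w ∈ S, k v w + -((∑ a ∈ S, ∑ w ∈ S, k a w) / 2) := by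
      simp only [sum_insert hv, sum_add_distrib, hz]
      rw [sum_congr rfl fun a _ => hs a v]
      ring
    rw [e, Real.exp_add, mul_assoc]
    linarith

theorem bd_up (Y : Sys I) {p : ℝ} (hp : ∀ i a, bin (Y.M i) a ≤ p) (hp0 : 0 ≤ p)
    (S : Finset (I × Bool)) :
    Y.E (fun X => ind (Dis Y.B ∅ S X)) ≤
      Real.exp (-Lam Y.M Y.B S + p * Rb Y.B S / 2 +
        (S.card : ℝ) ^ 2 * (3 * (S.card : ℝ) + 2) * p ^ 2) * Y.E (fun _ => 1) := by
  have h := bu_ind_step Y S (fun v w => ind (v.1 ≠ w.1) * (qq Y.M Y.B v w -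
      p * ind (Bad Y.B S v w) - (3 * (S.card : ℝ) + 2) * p ^ 2))
    (fun v w => by rw [qq_symm, ind_congr (bu_bad_symm Y.B S v w), ind_congr ne_comm])
    (fun v => by rw [ind_false fun h => h rfl, zero_mul])
    (fun S' hS' v hv0 hv w hw => by
      by_cases hvw : v.1 ≠ w.1
      · rw [ind_true hvw, one_mul]
        exact bd_hit Y hp hp0 S S' hS' hv0 hv hw hvw
      · rw [ind_false hvw, zero_mul, zero_mul]
        exact bu_nonneg Y fun X => mul_nonneg (ind_nonneg _) (ind_nonneg _))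
    S subset_rfl
  refine h.trans (mul_le_mul_of_nonneg_right (Real.exp_le_exp.2 ?_)
    (bu_nonneg Y fun _ => zero_le_one))
  set c := (3 * (S.card : ℝ) + 2) * p ^ 2 with hc
  have hc0 : 0 ≤ c := by positivity
  have h1 : ∑ v ∈ S, ∑ w ∈ S, (ind (v.1 ≠ w.1) * qq Y.M Y.B v w - p * ind (Bad Y.B S v w) - c) ≤
      ∑ v ∈ S, ∑ w ∈ S, ind (v.1 ≠ w.1) * (qq Y.M Y.B v w - p * ind (Bad Y.B S v w) - c) := by
    refine sum_le_sum fun v _ => sum_le_sum fun w _ => ?_
    have a1 := mul_nonneg hp0 (ind_nonneg (Bad Y.B S v w))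
    have a2 := mul_nonneg (sub_nonneg.2 (ind_le_one (v.1 ≠ w.1))) (add_nonneg a1 hc0)
    linarith
  simp only [sum_sub_distrib, ← mul_sum, sum_const, nsmul_eq_mul] at h1
  have h2 : 0 ≤ (S.card : ℝ) * (S.card * c) := by positivity
  have h3 : (S.card : ℝ) ^ 2 * (3 * (S.card : ℝ) + 2) * p ^ 2 = S.card * (S.card * c) := by
    rw [hc]; ring
  rw [h3]
  unfold Lam Rb
  linarith

end Pool.Agent.Lib.MP_bd7745_co
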