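import Pool.Agent.Lib.MP_bd7745_co.Basic

/-! Binomial weights: maximum, lower tail, differences, convolution. -/

set_option autoImplicit false

noncomputable section

namespace Pool.Agent.Lib.MP_bd7745_co

open Finset

/-- Sign of a vertex in its unit. -/
def eps (c : Bool) : ℤ := if c then 1 else -1

/-- Binomial weight with a cut-off for small `M`. -/
def gg (M0 M : ℕ) (t : ℤ) : ℝ := binZ M t * max 0 (min 1 (((M : ℝ) - M0) / M0))

theorem binx_central (n : ℕ) : n.centralBinom ^ 2 * (2 * n + 1) ≤ 16 ^ n := by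
  induction n with
  | zero => simp
  | succ n ih =>
    have h := Nat.succ_mul_centralBinom_succ n
    refine Nat.le_of_mul_le_mul_left (c := (n + 1) ^ 2) ?_ (by positivity)
    calc (n + 1) ^ 2 * ((n + 1).centralBinom ^ 2 * (2 * (n + 1) + 1))
        = ((n + 1) * (n + 1).centralBinom) ^ 2 * (2 * n + 3) := by ring
      _ = (4 * ((2 * n + 1) * (2 * n + 3))) * (n.centralBinom ^ 2 * (2 * n + 1)) := by
          rw [h]; ring
      _ ≤ (16 * (n + 1) ^ 2) * 16 ^ n := Nat.mul_le_mul (by nlinarith) ih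
      _ = (n + 1) ^ 2 * 16 ^ (n + 1) := by ring

theorem binx_middle (N : ℕ) : N.choose (N / 2) ^ 2 * N ≤ 4 ^ N := by
  obtain ⟨n, rfl | rfl⟩ := Nat.even_or_odd' N
  · have h := binx_central n
    rw [Nat.centralBinom_eq_two_mul_choose] at h
    rw [Nat.mul_div_cancel_left n two_pos, pow_mul 4 2 n]
    exact (Nat.mul_le_mul_left _ (Nat.le_succ _)).trans h
  · have h := binx_central (n + 1)
    have e : (n + 1).centralBinom = 2 * (2 * n + 1).choose n := by
      rw [Nat.centralBinom_eq_two_mul_choose, show 2 * (n + 1) = (2 * n + 1) + 1 by ring,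
        Nat.choose_succ_succ', Nat.choose_symm_half]
      ring
    rw [show (2 * n + 1) / 2 = n by omega]
    refine Nat.le_of_mul_le_mul_left (c := 4) ?_ (by norm_num)
    calc 4 * ((2 * n + 1).choose n ^ 2 * (2 * n + 1))
        = (n + 1).centralBinom ^ 2 * (2 * n + 1) := by rw [e]; ring
      _ ≤ (n + 1).centralBinom ^ 2 * (2 * (n + 1) + 1) := Nat.mul_le_mul_left _ (by omega)
      _ ≤ 16 ^ (n + 1) := h
      _ = 4 * 4 ^ (2 * n + 1) := by
          rw [show (16 : ℕ) = 4 ^ 2 by norm_num, ← pow_mul]; ring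

theorem bin_le {M M0 : ℕ} (h0 : 1 ≤ M0) (h : M0 ≤ M) (k : ℕ) :
    bin M k ≤ 1 / Real.sqrt M0 := by
  have h0' : (0 : ℝ) < M0 := by exact_mod_cast h0
  have h1 : M.choose k ^ 2 * M0 ≤ 4 ^ M :=
    (Nat.mul_le_mul (Nat.pow_le_pow_left (Nat.choose_le_middle k M) 2) h).trans (binx_middle M)
  have h2 : (M.choose k : ℝ) ^ 2 * M0 ≤ 4 ^ M := by exact_mod_cast h1
  rw [bin, div_le_div_iff₀ (by positivity) (Real.sqrt_pos.2 h0'), one_mul]
  refine le_of_sq_le_sq ?_ (by positivity)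
  rw [mul_pow, Real.sq_sqrt h0'.le, ← pow_mul, mul_comm M 2, pow_mul]
  norm_num
  exact h2

theorem bin_tail {N M0 : ℕ} (h : 4 * M0 ≤ N) :
    ∑ k ∈ range (N + 1), bin N k * ind (k < M0) ≤ Real.exp (-(N : ℝ) / 8) := by
  have h0 : 4 * (M0 : ℝ) ≤ N := by exact_mod_cast h
  have h1 : ∑ k ∈ range (N + 1), bin N k * Real.exp (-(1 / 2) * (2 * (k : ℝ) - N)) =
      Real.cosh (-(1 / 2)) ^ N := by
    rw [Real.cosh_eq, div_pow, add_pow, sum_div]
    refine sum_congr rfl fun k hk => ?_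
    have hk' : k ≤ N := Nat.lt_succ_iff.1 (mem_range.1 hk)
    rw [← Real.exp_nat_mul, ← Real.exp_nat_mul, ← Real.exp_add, Nat.cast_sub hk', bin,
      show (k : ℝ) * -(1 / 2) + (N - k) * - -(1 / 2) = -(1 / 2) * (2 * (k : ℝ) - N) by ring]
    ring
  calc ∑ k ∈ range (N + 1), bin N k * ind (k < M0)
      ≤ ∑ k ∈ range (N + 1), Real.exp (-(N : ℝ) / 4) *
          (bin N k * Real.exp (-(1 / 2) * (2 * (k : ℝ) - N))) := by
        refine sum_le_sum fun k _ => ?_
        rw [mul_left_comm, ← Real.exp_add]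
        refine mul_le_mul_of_nonneg_left ?_ (bin_nonneg _ _)
        by_cases hk : k < M0
        · have hk' : (k : ℝ) ≤ M0 := by exact_mod_cast hk.le
          rw [ind_true hk]
          exact Real.one_le_exp (by linarith)
        · rw [ind_false hk]
          exact (Real.exp_pos _).le
    _ = Real.exp (-(N : ℝ) / 4) * Real.cosh (-(1 / 2)) ^ N := by rw [← mul_sum, h1]
    _ ≤ Real.exp (-(N : ℝ) / 4) * Real.exp ((-(1 / 2)) ^ 2 / 2) ^ N :=
        mul_le_mul_of_nonneg_left (pow_le_pow_left₀ (Real.cosh_pos _).le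
          (Real.cosh_le_exp_half_sq _) N) (Real.exp_pos _).le
    _ = Real.exp (-(N : ℝ) / 8) := by
        rw [← Real.exp_nat_mul, ← Real.exp_add]
        congr 1
        ring

theorem binZ_nonneg (M : ℕ) (t : ℤ) : 0 ≤ binZ M t := by
  unfold binZ
  split_ifs
  · exact bin_nonneg _ _
  · exact le_rfl

theorem binZ_le_one (M : ℕ) (t : ℤ) : binZ M t ≤ 1 := by
  unfold binZ
  split_ifs
  · rw [bin, div_le_one (by positivity)]
    exact_mod_cast Nat.choose_le_two_pow M _
  · exact zero_le_one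

theorem binx_mono {N a b : ℕ} (hab : a ≤ b) (hb : b ≤ N / 2) : N.choose a ≤ N.choose b := by
  induction b, hab using Nat.le_induction with
  | base => exact le_rfl
  | succ b _ ih => exact (ih (by omega)).trans (Nat.choose_le_succ_of_lt_half_left (by omega))

theorem binx_uni {N j : ℕ} (hj : 2 * j ≤ N) : N.choose j * (N - 2 * j) ≤ 2 ^ N := by
  have h1 : ∀ i ∈ Ico j (N - j), N.choose j ≤ N.choose i := by
    intro i hi
    obtain ⟨a, b⟩ := mem_Ico.1 hi
    by_cases h : i ≤ N / 2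
    · exact binx_mono a h
    · rw [← Nat.choose_symm (show i ≤ N by omega)]
      exact binx_mono (by omega) (by omega)
  have h2 := card_nsmul_le_sum _ _ _ h1
  rw [Nat.card_Ico, smul_eq_mul, show N - j - j = N - 2 * j by omega, mul_comm] at h2
  rw [← Nat.sum_range_choose]
  exact h2.trans (sum_le_sum_of_subset fun i hi => mem_range.2 (by
    have := (mem_Ico.1 hi).2
    omega))

theorem binx_abs (N j : ℕ) : bin N j * |(N : ℝ) - 2 * j| ≤ 1 := by
  have key : ∀ j : ℕ, 2 * j ≤ N → bin N j * |(N : ℝ) - 2 * j| ≤ 1 := by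
    intro j hj
    have h1 : ((N.choose j * (N - 2 * j) : ℕ) : ℝ) ≤ ((2 ^ N : ℕ) : ℝ) := by
      exact_mod_cast binx_uni hj
    have h2 : 2 * (j : ℝ) ≤ N := by exact_mod_cast hj
    rw [Nat.cast_mul, Nat.cast_sub hj] at h1
    push_cast at h1
    rw [abs_of_nonneg (by linarith), bin, div_mul_eq_mul_div, div_le_one (by positivity)]
    exact h1
  by_cases h : 2 * j ≤ N
  · exact key j h
  by_cases h' : j ≤ N
  · have h1 := key (N - j) (by omega)
    rw [Nat.cast_sub h', bin, Nat.choose_symm h',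
      show (N : ℝ) - 2 * (N - j) = -(N - 2 * j) by ring, abs_neg] at h1
    exact h1
  · rw [bin, Nat.choose_eq_zero_of_lt (by omega)]
    simp

theorem binx_nat (M k : ℕ) : binZ M k = bin M k := by simp [binZ]

theorem binx_neg (M : ℕ) {t : ℤ} (h : t < 0) : binZ M t = 0 := if_neg (by omega)

theorem binZ_diff (M : ℕ) (t : ℤ) : |binZ M (t + 1) - binZ M t| ≤ 2 / ((M : ℝ) + 1) := by
  have M0 : (0 : ℝ) < (M : ℝ) + 1 := by positivity
  have fin : ∀ (j : ℕ) (d : ℝ), d * ((M : ℝ) + 1) = 2 * (bin (M + 1) j * ((M : ℝ) + 1 - 2 * j)) →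
      |d| ≤ 2 / ((M : ℝ) + 1) := by
    intro j d e
    have h1 := binx_abs (M + 1) j
    push_cast at h1
    rw [le_div_iff₀ M0, ← abs_of_pos M0, ← abs_mul, e, abs_mul, abs_mul, abs_two,
      abs_of_nonneg (bin_nonneg _ _)]
    linarith
  rcases lt_trichotomy t (-1) with h | rfl | h
  · rw [binx_neg M (by omega), binx_neg M (by omega), sub_zero, abs_zero]
    positivity
  · refine fin 0 _ ?_
    rw [binx_neg M (t := -1) (by norm_num), show (-1 + 1 : ℤ) = ((0 : ℕ) : ℤ) by norm_num, binx_nat]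
    simp only [bin, Nat.choose_zero_right]
    push_cast
    field_simp
    ring
  · obtain ⟨k, rfl⟩ := Int.eq_ofNat_of_zero_le (show 0 ≤ t by omega)
    refine fin (k + 1) _ ?_
    rw [show ((k : ℤ) + 1) = ((k + 1 : ℕ) : ℤ) by push_cast; rfl, binx_nat, binx_nat]
    have e1 : ((M : ℝ) + 1) * M.choose k = (M + 1).choose (k + 1) * ((k : ℝ) + 1) := by
      exact_mod_cast Nat.add_one_mul_choose_eq M k
    have e2 : ((M + 1).choose (k + 1) : ℝ) = M.choose k + M.choose (k + 1) := by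
      exact_mod_cast Nat.choose_succ_succ' M k
    rw [e2] at e1
    simp only [bin]
    rw [e2, pow_succ]
    push_cast
    linear_combination (-2 / (2 : ℝ) ^ M) * e1

theorem binx_pascal (M : ℕ) (t : ℤ) : binZ (M + 1) t = (binZ M (t - 1) + binZ M t) / 2 := by
  rcases lt_trichotomy t 0 with h | rfl | h
  · rw [binx_neg _ h, binx_neg _ h, binx_neg _ (by omega)]
    norm_num
  · rw [binx_neg M (t := 0 - 1) (by norm_num), show (0 : ℤ) = ((0 : ℕ) : ℤ) by norm_num, binx_nat,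
      binx_nat]
    simp only [bin, Nat.choose_zero_right]
    ring
  · obtain ⟨k, hk⟩ := Int.eq_ofNat_of_zero_le (show 0 ≤ t - 1 by omega)
    rw [hk, show t = ((k + 1 : ℕ) : ℤ) by omega, binx_nat, binx_nat, binx_nat]
    simp only [bin, Nat.choose_succ_succ' M k]
    push_cast
    ring

theorem binx_w_nonneg (x : ℝ) : 0 ≤ max 0 (min 1 x) := le_max_left _ _

theorem binx_w_le (x : ℝ) : max 0 (min 1 x) ≤ 1 := max_le zero_le_one (min_le_left _ _)

theorem binx_w_lip (x y : ℝ) : |max 0 (min 1 x) - max 0 (min 1 y)| ≤ |x - y| := by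
  refine (abs_max_sub_max_le_max _ _ _ _).trans (max_le (by simp) ?_)
  exact (abs_min_sub_min_le_max _ _ _ _).trans (max_le (by simp) le_rfl)

theorem binx_w_zero {M0 M : ℕ} (h : M ≤ M0) : max 0 (min 1 (((M : ℝ) - M0) / M0)) = 0 := by
  have h1 : (M : ℝ) ≤ M0 := by exact_mod_cast h
  exact max_eq_left ((min_le_right _ _).trans
    (div_nonpos_of_nonpos_of_nonneg (by linarith) (Nat.cast_nonneg _)))

theorem gg_nonneg (M0 M : ℕ) (t : ℤ) : 0 ≤ gg M0 M t :=
  mul_nonneg (binZ_nonneg _ _) (binx_w_nonneg _)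

theorem gg_le (M0 M : ℕ) (t : ℤ) : gg M0 M t ≤ binZ M t :=
  mul_le_of_le_one_right (binZ_nonneg _ _) (binx_w_le _)

theorem gg_eq {M0 M : ℕ} (h0 : 1 ≤ M0) (h : 2 * M0 ≤ M) (t : ℤ) : gg M0 M t = binZ M t := by
  have h1 : (0 : ℝ) < M0 := by exact_mod_cast h0
  have h2 : 2 * (M0 : ℝ) ≤ M := by exact_mod_cast h
  rw [gg, min_eq_left ((one_le_div h1).2 (by linarith)), max_eq_right zero_le_one, mul_one]

theorem binx_steps {f : ℤ → ℝ} {c : ℝ} {a : ℤ} (n : ℕ)
    (h : ∀ i : ℕ, |f (a + i + 1) - f (a + i)| ≤ c) : |f (a + n) - f a| ≤ c * n := by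
  induction n with
  | zero => simp
  | succ n ih =>
    have h1 := abs_sub_le (f (a + n + 1)) (f (a + n)) (f a)
    have h2 := h n
    push_cast
    rw [← add_assoc]
    linarith

theorem binx_step_t {M0 : ℕ} (h0 : 1 ≤ M0) (M : ℕ) (t : ℤ) :
    |gg M0 M (t + 1) - gg M0 M t| ≤ 2 / (M0 : ℝ) := by
  have h1 : (0 : ℝ) < M0 := by exact_mod_cast h0
  unfold gg
  by_cases h : M ≤ M0
  · rw [binx_w_zero h, mul_zero, mul_zero, sub_zero, abs_zero]
    positivity
  · have h2 : (M0 : ℝ) ≤ (M : ℝ) + 1 := by exact_mod_cast (by omega : M0 ≤ M + 1)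
    rw [← sub_mul, abs_mul, abs_of_nonneg (binx_w_nonneg _)]
    exact (mul_le_of_le_one_right (abs_nonneg _) (binx_w_le _)).trans
      ((binZ_diff M t).trans (div_le_div_of_nonneg_left zero_le_two h1 h2))

theorem binx_step_M {M0 : ℕ} (h0 : 1 ≤ M0) (M : ℕ) (t : ℤ) :
    |gg M0 (M + 1) t - gg M0 M t| ≤ 2 / (M0 : ℝ) := by
  have h1 : (0 : ℝ) < M0 := by exact_mod_cast h0
  unfold gg
  by_cases h : M + 1 ≤ M0
  · rw [binx_w_zero h, binx_w_zero (by omega : M ≤ M0), mul_zero, mul_zero, sub_zero, abs_zero]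
    positivity
  have h2 : (M0 : ℝ) ≤ (M : ℝ) + 1 := by exact_mod_cast (by omega : M0 ≤ M + 1)
  have h3 : |binZ (M + 1) t - binZ M t| ≤ 1 / (M0 : ℝ) := by
    have a1 := (binZ_diff M (t - 1)).trans (div_le_div_of_nonneg_left zero_le_two h1 h2)
    rw [sub_add_cancel, abs_sub_comm] at a1
    rw [binx_pascal, show (binZ M (t - 1) + binZ M t) / 2 - binZ M t =
      (binZ M (t - 1) - binZ M t) / 2 by ring, abs_div, abs_two]
    calc _ ≤ 2 / (M0 : ℝ) / 2 := by gcongr
      _ = _ := by ring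
  have h4 := binx_w_lip ((((M + 1 : ℕ) : ℝ) - M0) / M0) (((M : ℝ) - M0) / M0)
  rw [show (((M + 1 : ℕ) : ℝ) - M0) / M0 - ((M : ℝ) - M0) / M0 = 1 / (M0 : ℝ) by
    push_cast; ring, abs_of_pos (show 0 < 1 / (M0 : ℝ) by positivity)] at h4
  have h5 := binx_w_nonneg ((((M + 1 : ℕ) : ℝ) - M0) / M0)
  have h6 := binx_w_le ((((M + 1 : ℕ) : ℝ) - M0) / M0)
  generalize max 0 (min 1 ((((M + 1 : ℕ) : ℝ) - M0) / M0)) = u at h4 h5 h6 ⊢
  generalize max 0 (min 1 (((M : ℝ) - M0) / M0)) = v at h4 ⊢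
  rw [show binZ (M + 1) t * u - binZ M t * v =
    (binZ (M + 1) t - binZ M t) * u + binZ M t * (u - v) by ring]
  refine (abs_add_le _ _).trans ?_
  rw [abs_mul, abs_mul, abs_of_nonneg h5, abs_of_nonneg (binZ_nonneg _ _)]
  have h7 := (mul_le_of_le_one_right (abs_nonneg _) h6).trans h3
  have h8 := (mul_le_of_le_one_left (abs_nonneg _) (binZ_le_one M t)).trans h4
  calc _ ≤ 1 / (M0 : ℝ) + 1 / (M0 : ℝ) := add_le_add h7 h8
    _ = _ := by ring

theorem gg_lip {M0 : ℕ} (h0 : 1 ≤ M0) (M M' : ℕ) (t t' : ℤ) :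
    |gg M0 M t - gg M0 M' t'| ≤ 2 / (M0 : ℝ) * (|(M : ℝ) - M'| + |(t : ℝ) - t'|) := by
  have k1 : ∀ (a b : ℕ) (s : ℤ), b ≤ a →
      |gg M0 a s - gg M0 b s| ≤ 2 / (M0 : ℝ) * |(a : ℝ) - b| := by
    intro a b s hab
    obtain ⟨n, rfl⟩ := Nat.exists_eq_add_of_le hab
    have h := binx_steps (f := fun z => gg M0 z.toNat s) (c := 2 / (M0 : ℝ)) (a := b) n
      fun i => by
        rw [show ((b : ℤ) + i + 1).toNat = b + i + 1 by omega,
          show ((b : ℤ) + i).toNat = b + i by omega]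
        exact binx_step_M h0 _ s
    rw [show ((b : ℤ) + n).toNat = b + n by omega, Int.toNat_natCast] at h
    rwa [Nat.cast_add, add_sub_cancel_left, Nat.abs_cast]
  have k2 : ∀ (a : ℕ) (s s' : ℤ), s' ≤ s →
      |gg M0 a s - gg M0 a s'| ≤ 2 / (M0 : ℝ) * |(s : ℝ) - s'| := by
    intro a s s' hs
    obtain ⟨n, rfl⟩ := Int.le.dest hs
    have h := binx_steps (f := gg M0 a) (c := 2 / (M0 : ℝ)) (a := s') n
      fun i => binx_step_t h0 a _
    rwa [Int.cast_add, add_sub_cancel_left, Int.cast_natCast, Nat.abs_cast]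
  have k3 : |gg M0 M t - gg M0 M' t| ≤ 2 / (M0 : ℝ) * |(M : ℝ) - M'| := by
    rcases le_total M' M with h | h
    · exact k1 _ _ _ h
    · rw [abs_sub_comm, abs_sub_comm (M : ℝ)]
      exact k1 _ _ _ h
  have k4 : |gg M0 M' t - gg M0 M' t'| ≤ 2 / (M0 : ℝ) * |(t : ℝ) - t'| := by
    rcases le_total t' t with h | h
    · exact k2 _ _ _ h
    · rw [abs_sub_comm, abs_sub_comm (t : ℝ)]
      exact k2 _ _ _ h
  rw [mul_add]
  exact (abs_sub_le _ _ _).trans (add_le_add k3 k4)

theorem binx_flip (M : ℕ) (g : ℤ → ℝ) : ∑ x ∈ range (M + 1), bin M x * g x =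
    ∑ x ∈ range (M + 1), bin M x * g (M - x) := by
  rw [← sum_flip (fun x : ℕ => bin M x * g x)]
  refine sum_congr rfl fun x hx => ?_
  have h : x ≤ M := Nat.lt_succ_iff.1 (mem_range.1 hx)
  rw [bin, bin, Nat.choose_symm h, Nat.cast_sub h]

theorem binx_conv (M M' : ℕ) (T : ℤ) :
    ∑ x ∈ range (M + 1), bin M x * ∑ y ∈ range (M' + 1), bin M' y * ind ((x : ℤ) + y = T) =
      binZ (M + M') T := by
  rcases lt_or_ge T 0 with h | h
  · rw [binx_neg _ h]
    refine sum_eq_zero fun x _ => mul_eq_zero_of_right _ (sum_eq_zero fun y _ => ?_)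
    rw [ind_false (by omega), mul_zero]
  obtain ⟨n, rfl⟩ := Int.eq_ofNat_of_zero_le h
  have e1 : bin (M + M') n = ∑ p ∈ antidiagonal n, bin M p.1 * bin M' p.2 := by
    rw [bin, Nat.add_choose_eq]
    push_cast
    rw [sum_div]
    exact sum_congr rfl fun p _ => by rw [bin, bin, pow_add, div_mul_div_comm]
  have e2 : ∑ p ∈ (range (M + 1) ×ˢ range (M' + 1)).filter (fun p => p.1 + p.2 = n),
      bin M p.1 * bin M' p.2 = ∑ p ∈ antidiagonal n, bin M p.1 * bin M' p.2 := by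
    refine sum_subset (fun p hp => mem_antidiagonal.2 (mem_filter.1 hp).2) fun p hp hn => ?_
    rw [mem_filter, mem_product, mem_range, mem_range] at hn
    have h1 := mem_antidiagonal.1 hp
    by_cases h2 : p.1 < M + 1
    · rw [bin, bin, Nat.choose_eq_zero_of_lt (show M' < p.2 by omega)]
      simp
    · rw [bin, Nat.choose_eq_zero_of_lt (show M < p.1 by omega)]
      simp
  rw [binx_nat, e1, ← e2, sum_filter, sum_product]
  refine sum_congr rfl fun x _ => ?_
  rw [mul_sum]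
  refine sum_congr rfl fun y _ => ?_
  split_ifs with h1
  · rw [ind_true (by omega), mul_one]
  · rw [ind_false (by omega), mul_zero, mul_zero]

/-- Symmetry and Vandermonde. -/
theorem conv_eq (M M' : ℕ) (b b' : ℤ) (c c' : Bool) :
    ∑ x ∈ range (M + 1), ∑ y ∈ range (M' + 1),
        bin M x * bin M' y * ind (b + eps c * (x : ℤ) = b' + eps c' * (y : ℤ)) =
      binZ (M + M') (b' - b + (if c then 0 else (M : ℤ)) + (if c' then (M' : ℤ) else 0)) := by
  have h1 : ∀ u : ℤ, ∑ y ∈ range (M' + 1), bin M' y * ind (u = b' + eps c' * (y : ℤ)) =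
      ∑ y ∈ range (M' + 1), bin M' y * ind (u + y = b' + (if c' then (M' : ℤ) else 0)) := by
    intro u
    cases c'
    · exact sum_congr rfl fun y _ => congrArg _ (ind_congr (by simp [eps]; omega))
    · rw [binx_flip M' fun y => ind (u = b' + eps true * y)]
      exact sum_congr rfl fun y _ => congrArg _ (ind_congr (by simp [eps]; omega))
  simp only [mul_assoc, ← mul_sum, h1]
  rw [← binx_conv]
  cases c
  · rw [binx_flip M fun x => ∑ y ∈ range (M' + 1), bin M' y *
      ind (b + eps false * x + y = b' + (if c' then (M' : ℤ) else 0))]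
    exact sum_congr rfl fun x _ => congrArg _ (sum_congr rfl fun y _ =>
      congrArg _ (ind_congr (by simp only [eps, Bool.false_eq_true, if_false]; omega)))
  · exact sum_congr rfl fun x _ => congrArg _ (sum_congr rfl fun y _ =>
      congrArg _ (ind_congr (by simp only [eps, if_true]; omega)))

end Pool.Agent.Lib.MP_bd7745_co
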