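import Pool.Agent.Lib.MP_bd7745_co.Hyp

/-! Few units have the same degree sum. -/

set_option autoImplicit false

noncomputable section

namespace Pool.Agent.Lib.MP_bd7745_co

open Finset

variable {V I : Type*} [Fintype V] [DecidableEq V] [Fintype I] [DecidableEq I]

theorem mult_rep {ι κ : Type*} [DecidableEq ι] (U : Finset ι) (s : Finset κ) (ε : κ → ι)
    (hε : ∀ j ∈ s, ε j ∈ U) (sg : κ → Finset ι → Prop)
    (hsg : ∀ i ∈ s, ∀ j ∈ s, i ≠ j → ∀ H, sg i (flp (ε j) H) ↔ sg i H)
    (hfl : ∀ j ∈ s, ∀ H, sg j (flp (ε j) H) ↔ ¬ sg j H)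
    (G : Finset ι → ℕ → ℝ) (hG : ∀ j ∈ s, ∀ H, G (flp (ε j) H) = G H) :
    av U (fun H => G H (cnt s fun j => sg j H)) =
      av U fun H => ∑ k ∈ range (s.card + 1), bin s.card k * G H k := by
  have h := bin_rep U s (fun j => flp (ε j)) (fun _ _ => True) sg
    (fun j hj f => av_flp U (hε j hj) f) (fun _ _ _ _ _ => Iff.rfl) hsg
    (fun j hj H _ => hfl j hj H) G hG
  have e : cnt s (fun _ => True) = s.card := by rw [cnt_eq, filter_true]
  simpa only [true_and, e] using h

omit [Fintype V] in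
theorem mult_deg {e : Finset V} {u : V} (h : u ∉ e) (H : Finset (Finset V)) :
    deg (flp e H) u = deg H u := by
  rw [deg, deg, cnt_eq, cnt_eq]
  congr 1
  ext s
  by_cases hs : s = e <;> simp [mem_flp, hs, h]

omit [Fintype V] in
theorem mult_split {κ : Type*} (s : Finset κ) (ε : κ → Finset V) (hε : Set.InjOn ε s) {u : V}
    (hu : ∀ j ∈ s, u ∈ ε j) (H : Finset (Finset V)) :
    deg H u = cnt s (fun j => ε j ∈ H) + deg (H \ s.image ε) u := by
  rw [deg, deg, cnt_eq, cnt_eq, cnt_eq, ← card_image_of_injOn (hε.mono (filter_subset _ _)),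
    ← card_union_of_disjoint]
  · congr 1
    ext e
    simp only [mem_filter, mem_union, mem_image, mem_sdiff]
    constructor
    · rintro ⟨h1, h2⟩
      by_cases h : ∃ j ∈ s, ε j = e
      · obtain ⟨j, hj, rfl⟩ := h
        exact .inl ⟨j, ⟨hj, h1⟩, rfl⟩
      · exact .inr ⟨⟨h1, h⟩, h2⟩
    · rintro (⟨j, ⟨h1, h2⟩, rfl⟩ | ⟨⟨h1, -⟩, h2⟩)
      exacts [⟨h2, hu j h1⟩, ⟨h1, h2⟩]
  · refine disjoint_left.2 fun e h1 h2 => (mem_sdiff.1 (mem_filter.1 h2).1).2 ?_
    exact image_subset_image (filter_subset _ _) h1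

theorem mult_bin {N N0 : ℕ} (h0 : 1 ≤ N0) (h : N0 ≤ N) (r m : ℕ) :
    ∑ c ∈ range (N + 1), bin N c * ind (c + r = m) ≤ 1 / Real.sqrt N0 := by
  rw [sum_eq_single (m - r) (fun c _ hc => by rw [ind_false (by omega), mul_zero])]
  · exact (mul_le_of_le_one_right (bin_nonneg _ _) (ind_le_one _)).trans (bin_le h0 h _)
  · intro hc
    rw [bin, Nat.choose_eq_zero_of_lt (not_le.1 fun e => hc (mem_range_succ_iff.2 e)),
      Nat.cast_zero, zero_div, zero_mul]

namespace Pr

variable (P : Pr V I)

/-- Degree sum of a unit. -/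
def ss (H : Finset (Finset V)) (i : I) : ℕ := deg H (P.e (i, true)) + deg H (P.e (i, false))

theorem law_mult {k : ℕ} (hk : 2 ≤ k) {N0 : ℕ} (h0 : 1 ≤ N0) (hN : ∀ i, N0 ≤ (P.F k i).card)
    (i0 : I) (J : Finset I) (hi0 : i0 ∉ J) (hJ : ∀ i ∈ J, P.side i = P.side i0) :
    av (UU V k) (fun H => ind (∀ i ∈ J, P.ss H i = P.ss H i0)) ≤
      (1 / Real.sqrt N0) ^ J.card := by
  induction J using Finset.induction_on with
  | empty => simp [ind, av_const]
  | insert i J hi ih =>
    have hs := hJ i (mem_insert_self _ _)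
    have hne : i0 ≠ i := fun e => hi0 (e ▸ mem_insert_self _ _)
    have h1 : ∀ S ∈ P.F k i, ∀ v : I × Bool, P.side v.1 = P.side i → v ≠ (i, true) →
        P.e v ∉ P.ed (i, true) S := fun S hS v hv hvi h =>
      (mem_insert.1 h).elim (fun e => hvi (P.inj e)) fun h2 =>
        P.e_mem_A.1 ((mem_powersetCard.1 hS).1 h2) hv
    have h2 : ∀ S ∈ P.F k i, ∀ j, P.side j = P.side i → j ≠ i → ∀ H,
        P.ss (flp (P.ed (i, true) S) H) j = P.ss H j := fun S hS j hj hji H => by
      rw [ss, ss, mult_deg (h1 S hS _ hj (by simp [hji])), mult_deg (h1 S hS _ hj (by simp))]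
    have h3 : Set.InjOn (P.ed (i, true)) (P.F k i) := fun S hS T hT e =>
      (P.ed_inj hk (v := (i, true)) (w := (i, true)) hS hT e).2
    have h := mult_rep (UU V k) (P.F k i) (P.ed (i, true))
      (fun S hS => P.ed_mem_UU (v := (i, true)) hS) (fun S H => P.ed (i, true) S ∈ H)
      (fun S hS T hT hne H => by rw [mem_flp, if_neg fun e => hne (h3 hS hT e)])
      (fun S _ H => by rw [mem_flp, if_pos rfl])
      (fun H c => ind (c + (deg (H \ (P.F k i).image (P.ed (i, true))) (P.e (i, true)) +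
        deg H (P.e (i, false))) = P.ss H i0) * ind (∀ j ∈ J, P.ss H j = P.ss H i0))
      fun S hS H => by
        have e1 : flp (P.ed (i, true) S) H \ (P.F k i).image (P.ed (i, true)) =
            H \ (P.F k i).image (P.ed (i, true)) := by
          ext e
          rw [mem_sdiff, mem_sdiff]
          refine and_congr_left fun he => ?_
          rw [mem_flp, if_neg fun e2 : e = _ => he (e2 ▸ mem_image_of_mem _ hS)]
        funext c
        rw [e1, mult_deg (h1 S hS (i, false) rfl (by simp)), h2 S hS i0 hs.symm hne]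
        refine congrArg _ (ind_congr (forall₂_congr fun j hj => ?_))
        rw [h2 S hS j ((hJ j (mem_insert_of_mem hj)).trans hs.symm) fun e => hi (e ▸ hj)]
    refine ((av_congr _ fun H _ => ?_).trans h).le.trans ((av_mono _ (g := fun H =>
      1 / Real.sqrt N0 * ind (∀ j ∈ J, P.ss H j = P.ss H i0)) fun H _ => ?_).trans ?_)
    · rw [← ind_and, forall_mem_insert, ← add_assoc,
        ← mult_split _ _ h3 (fun S _ => mem_insert_self _ _) H]
      rfl
    · simp only [← mul_assoc]
      rw [← sum_mul]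
      exact mul_le_mul_of_nonneg_right (mult_bin h0 (hN i) _ _) (ind_nonneg _)
    · rw [av_mul, card_insert_of_notMem hi, pow_succ']
      exact mul_le_mul_of_nonneg_left (ih (fun h => hi0 (mem_insert_of_mem h))
        fun j hj => hJ j (mem_insert_of_mem hj)) (by positivity)

theorem law_Rb {k : ℕ} (hk : 2 ≤ k) {N0 : ℕ} (h0 : 1 ≤ N0) (hN : ∀ i, N0 ≤ (P.F k i).card)
    (t : ℕ) :
    av (UU V k) (fun H => ind (8 * (t : ℝ) * Fintype.card I < Rb (P.BB k H) univ)) ≤
      Fintype.card I * (Fintype.card I / Real.sqrt N0) ^ t := by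
  let T : I → Finset (Finset I) := fun i0 =>
    (univ.filter fun i => i ≠ i0 ∧ P.side i = P.side i0).powersetCard t
  refine (av_mono _ (g := fun H => ∑ i0, ∑ J ∈ T i0, ind (∀ i ∈ J, P.ss H i = P.ss H i0))
    fun H _ => ?_).trans ?_
  · by_cases h : ∃ i0, t ≤ (univ.filter fun i =>
        (i ≠ i0 ∧ P.side i = P.side i0) ∧ P.ss H i = P.ss H i0).card
    · obtain ⟨i0, h⟩ := h
      obtain ⟨J, h1, h2⟩ := exists_subset_card_eq h
      have h3 : J ∈ T i0 := mem_powersetCard.2
        ⟨fun i hi => mem_filter.2 ⟨mem_univ _, (mem_filter.1 (h1 hi)).2.1⟩, h2⟩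
      refine (ind_le_one _).trans ((ind_true fun i hi => (mem_filter.1 (h1 hi)).2.2).ge.trans
        ((single_le_sum (f := fun J : Finset I => ind (∀ i ∈ J, P.ss H i = P.ss H i0))
          (fun _ _ => ind_nonneg _) h3).trans ?_))
      exact single_le_sum (f := fun i0 => ∑ J ∈ T i0, ind (∀ i ∈ J, P.ss H i = P.ss H i0))
        (fun _ _ => sum_nonneg fun _ _ => ind_nonneg _) (mem_univ i0)
    · refine (ind_false (not_lt.2 ?_)).le.trans
        (sum_nonneg fun _ _ => sum_nonneg fun _ _ => ind_nonneg _)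
      have h1 : ∀ (b : Bool) (c : ℕ), ∑ j, ind (P.side j = b ∧ P.ss H j = c) ≤ t := fun b c => by
        rw [← cnt_cast, cnt_eq, Nat.cast_le]
        rcases (univ.filter fun j => P.side j = b ∧ P.ss H j = c).eq_empty_or_nonempty with
          e | ⟨i0, hi0⟩
        · rw [e, card_empty]
          exact Nat.zero_le _
        · have h2 := not_le.1 (not_exists.1 h i0)
          refine (card_le_card (t := insert i0 _) fun j hj => ?_).trans
            ((card_insert_le _ _).trans h2)
          rw [mem_filter] at hj hi0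
          by_cases e : j = i0
          · exact e ▸ mem_insert_self _ _
          · exact mem_insert_of_mem (mem_filter.2 ⟨mem_univ _,
              ⟨e, hj.2.1.trans hi0.2.1.symm⟩, hj.2.2.trans hi0.2.2.symm⟩)
      have h2 : ∀ v, ∑ w, ind (Bad (P.BB k H) univ v w) ≤ 4 * t := fun v => by
        refine (sum_le_sum (g := fun w : I × Bool => ind (P.side w.1 = true ∧
          P.ss H w.1 = P.ss H v.1) + ind (P.side w.1 = false ∧ P.ss H w.1 = P.ss H v.1))
            fun w _ => ?_).trans ?_
        · by_cases hb : Bad (P.BB k H) univ v w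
          · have h3 := hb.2.2.2
            rw [BB_add, BB_add] at h3
            have h4 : P.ss H w.1 = P.ss H v.1 := by
              unfold ss
              omega
            cases h5 : P.side w.1 <;> simp [ind, hb, h4]
          · rw [ind_false hb]
            exact add_nonneg (ind_nonneg _) (ind_nonneg _)
        · rw [Fintype.sum_prod_type]
          simp only [sum_const, card_univ, Fintype.card_bool, nsmul_eq_mul]
          rw [← mul_sum, sum_add_distrib]
          push_cast
          linarith [h1 true (P.ss H v.1), h1 false (P.ss H v.1)]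
      refine (sum_le_card_nsmul _ _ _ fun v _ => h2 v).trans_eq ?_
      rw [card_univ, Fintype.card_prod, Fintype.card_bool, nsmul_eq_mul]
      push_cast
      ring
  · rw [av_sum]
    refine (sum_le_card_nsmul _ _ ((Fintype.card I / Real.sqrt N0) ^ t) fun i0 _ => ?_).trans_eq
      (by rw [card_univ, nsmul_eq_mul])
    rw [av_sum]
    refine (sum_le_card_nsmul _ _ ((1 / Real.sqrt N0) ^ t) fun J hJ => ?_).trans ?_
    · obtain ⟨h1, h2⟩ := mem_powersetCard.1 hJ
      exact h2 ▸ P.law_mult hk h0 hN i0 J (fun h => (mem_filter.1 (h1 h)).2.1 rfl)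
        fun i hi => (mem_filter.1 (h1 hi)).2.2
    · rw [nsmul_eq_mul, div_eq_mul_one_div (Fintype.card I : ℝ), mul_pow]
      refine mul_le_mul_of_nonneg_right ?_ (by positivity)
      rw [card_powersetCard]
      exact_mod_cast (Nat.choose_le_pow _ _).trans (Nat.pow_le_pow_left (card_le_univ _) _)

end Pr

end Pool.Agent.Lib.MP_bd7745_co
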