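import Pool.Agent.Lib.MP_bd7745_co.Basic

/-! Central binomial weights (Wallis), the window bound, the mean number of equal pairs. -/

set_option autoImplicit false

noncomputable section

namespace Pool.Agent.Lib.MP_bd7745_co

open Finset

theorem cb_pos (K : ℕ) : 0 < cb K := by
  unfold cb bin
  have : 0 < (2 * K).choose K := Nat.choose_pos (by omega)
  positivity

theorem win_cb_succ (K : ℕ) : cb (K + 1) * (2 * (K : ℝ) + 2) = cb K * (2 * (K : ℝ) + 1) := by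
  have h := Nat.succ_mul_centralBinom_succ K
  rw [Nat.centralBinom_eq_two_mul_choose, Nat.centralBinom_eq_two_mul_choose] at h
  have h' : ((K : ℝ) + 1) * ((2 * (K + 1)).choose (K + 1) : ℝ) =
      2 * (2 * (K : ℝ) + 1) * ((2 * K).choose K : ℝ) := by exact_mod_cast h
  unfold cb bin
  have e : (2 : ℝ) ^ (2 * (K + 1)) = 4 * 2 ^ (2 * K) := by ring
  rw [e]
  field_simp
  linear_combination 2 * h'

theorem win_cb_W (K : ℕ) : cb K ^ 2 * Real.Wallis.W K * (2 * (K : ℝ) + 1) = 1 := by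
  induction K with
  | zero => simp [cb, bin, Real.Wallis.W]
  | succ K ih =>
    have h : cb (K + 1) = cb K * (2 * (K : ℝ) + 1) / (2 * (K : ℝ) + 2) := by
      rw [eq_div_iff (by positivity)]
      exact win_cb_succ K
    refine Eq.trans ?_ ih
    rw [Real.Wallis.W_succ, h]
    push_cast
    field_simp
    ring

theorem cb_sq_ge (K : ℕ) : 2 / (Real.pi * (2 * (K : ℝ) + 1)) ≤ cb K ^ 2 := by
  have h1 := win_cb_W K
  have h2 := Real.Wallis.W_le K
  have h3 : 0 ≤ cb K ^ 2 * (2 * (K : ℝ) + 1) := by positivity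
  rw [div_le_iff₀ (by positivity)]
  nlinarith [mul_le_mul_of_nonneg_left h2 h3]

theorem cb_sq_le {K : ℕ} (hK : 1 ≤ K) : cb K ^ 2 ≤ 1 / (Real.pi * (K : ℝ)) := by
  have h1 := win_cb_W K
  have h2 := Real.Wallis.le_W K
  have hK' : (1 : ℝ) ≤ K := by exact_mod_cast hK
  have hp := Real.pi_pos
  have h4 : Real.pi * (K : ℝ) ≤ Real.Wallis.W K * (2 * (K : ℝ) + 1) := by
    refine le_trans ?_ (mul_le_mul_of_nonneg_right h2 (by positivity))
    rw [div_mul_eq_mul_div, div_mul_eq_mul_div, le_div_iff₀ (by positivity)]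
    nlinarith
  rw [le_div_iff₀ (by positivity)]
  nlinarith [mul_le_mul_of_nonneg_left h4 (sq_nonneg (cb K))]

theorem win_mid (M : ℕ) : cb (M / 2 + 1) ≤ bin M (M / 2) := by
  obtain ⟨h, rfl | rfl⟩ := Nat.even_or_odd' M
  · have e : 2 * h / 2 = h := by omega
    rw [e]
    have h1 := win_cb_succ h
    have h2 := cb_pos h
    have h3 := cb_pos (h + 1)
    have h4 : (0 : ℝ) ≤ h := Nat.cast_nonneg h
    change cb (h + 1) ≤ cb h
    by_contra hc
    push Not at hc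
    nlinarith
  · have e : (2 * h + 1) / 2 = h := by omega
    rw [e]
    unfold cb bin
    have h1 : (2 * (h + 1)).choose (h + 1) = 2 * (2 * h + 1).choose h := by
      have e1 : 2 * (h + 1) = (2 * h + 1) + 1 := by ring
      rw [e1, Nat.choose_succ_succ', Nat.choose_symm_half]
      ring
    have e2 : (2 : ℝ) ^ (2 * (h + 1)) = 2 * 2 ^ (2 * h + 1) := by ring
    rw [h1, e2]
    push_cast
    apply le_of_eq
    field_simp

theorem win_step (M a : ℕ) (ha : a ≤ M) :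
    bin M (a + 1) * ((a : ℝ) + 1) = bin M a * ((M : ℝ) - a) := by
  have h := Nat.choose_succ_right_eq M a
  have h' : (M.choose (a + 1) : ℝ) * ((a : ℝ) + 1) = (M.choose a : ℝ) * ((M : ℝ) - a) := by
    rw [← Nat.cast_sub ha]
    exact_mod_cast h
  unfold bin
  field_simp
  linear_combination h'

theorem win_decay (M h T : ℕ) (y : ℝ) (hM : 2 * h ≤ M) (hT : 2 * T ≤ h) (hy0 : 0 ≤ y)
    (hy : 2 * (2 * (T : ℝ) + 1) ≤ y * h) :
    ∀ t ≤ T, bin M h * Real.exp (-(t * y)) ≤ bin M (h + t) := by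
  intro t
  induction t with
  | zero => intro _; simp
  | succ t ih =>
    intro ht
    have h1 := ih (by omega)
    have h2 := win_step M (h + t) (by omega)
    have hM' : 2 * (h : ℝ) ≤ M := by exact_mod_cast hM
    have hT' : 2 * (T : ℝ) ≤ h := by exact_mod_cast hT
    have ht' : (t : ℝ) + 1 ≤ T := by exact_mod_cast ht
    have t0 : (0 : ℝ) ≤ t := Nat.cast_nonneg t
    have e1 : Real.exp (-(((t + 1 : ℕ) : ℝ) * y)) = Real.exp (-(t * y)) * Real.exp (-y) := by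
      rw [← Real.exp_add]
      push_cast
      ring_nf
    have e2 : Real.exp (-y) * (1 + y) ≤ 1 := by
      have h3 := Real.add_one_le_exp y
      have h4 : Real.exp (-y) * Real.exp y = 1 := by rw [← Real.exp_add]; simp
      nlinarith [Real.exp_pos (-y)]
    have e3 : (h : ℝ) + t + 1 ≤ ((M : ℝ) - (h + t)) * (1 + y) := by
      have : (h : ℝ) / 2 ≤ (M : ℝ) - (h + t) := by linarith
      nlinarith [mul_le_mul_of_nonneg_right this hy0]
    have e4 : Real.exp (-y) * ((h : ℝ) + t + 1) ≤ (M : ℝ) - (h + t) := by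
      have p1 : 0 ≤ (M : ℝ) - (h + t) := by linarith
      nlinarith [mul_le_mul_of_nonneg_left e3 (Real.exp_pos (-y)).le,
        mul_le_mul_of_nonneg_left e2 p1]
    push_cast at h2
    have b0 := bin_nonneg M (h + t)
    have p2 : (0 : ℝ) < (h : ℝ) + t + 1 := by positivity
    rw [e1, ← mul_assoc, ← add_assoc]
    refine le_trans (mul_le_mul_of_nonneg_right h1 (Real.exp_pos _).le) ?_
    refine le_of_mul_le_mul_right ?_ p2
    rw [h2, mul_assoc]
    exact mul_le_mul_of_nonneg_left e4 b0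

/-- Outside a set of `O(√M)` points a positive mass remains. -/
theorem window (L : ℕ) : ∃ g : ℝ, 0 < g ∧ ∃ M1 : ℕ, ∀ M : ℕ, M1 ≤ M → ∀ D : Finset ℕ,
    D.card ^ 2 ≤ L * M → g ≤ ∑ a ∈ range (M + 1) \ D, bin M a := by
  refine ⟨Real.exp (-(72 * ((L : ℝ) + 1) ^ 2)) / 2, by positivity, 144 * (L + 1) ^ 2 + 2,
    fun M hM D hD => ?_⟩
  obtain ⟨s, hs1, hs2⟩ : ∃ s : ℕ, M < s ^ 2 ∧ s ^ 2 ≤ 4 * M := by
    refine ⟨M.sqrt + 1, Nat.lt_succ_sqrt' M, ?_⟩
    have h1 := Nat.sqrt_le' M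
    have h2 : 0 < M.sqrt := Nat.sqrt_pos.2 (by omega)
    nlinarith
  have s0 : 0 < s := by
    rcases Nat.eq_zero_or_pos s with h | h
    · subst h; simp at hs1
    · exact h
  have hDs : D.card ≤ L * s := by
    refine le_of_pow_le_pow_left₀ (n := 2) two_ne_zero (Nat.zero_le _) ?_
    calc D.card ^ 2 ≤ L * M := hD
      _ ≤ L ^ 2 * s ^ 2 := Nat.mul_le_mul (Nat.le_self_pow (by norm_num) L) hs1.le
      _ = (L * s) ^ 2 := by ring
  set h := M / 2 with hh
  set T := (L + 1) * s with hT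
  have h3 : M ≤ 3 * h := by omega
  have hT2 : T ^ 2 ≤ 4 * (L + 1) ^ 2 * M := by
    calc T ^ 2 = (L + 1) ^ 2 * s ^ 2 := by rw [hT]; ring
      _ ≤ (L + 1) ^ 2 * (4 * M) := Nat.mul_le_mul_left _ hs2
      _ = _ := by ring
  have hTh : 2 * T ≤ h := by
    refine le_of_pow_le_pow_left₀ (n := 2) two_ne_zero (Nat.zero_le _) ?_
    have a1 : 144 * (L + 1) ^ 2 * M ≤ M * M := Nat.mul_le_mul_right _ (by omega)
    have a2 : M * M ≤ (3 * h) * (3 * h) := Nat.mul_le_mul h3 h3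
    nlinarith
  have T1 : 1 ≤ T := Nat.mul_pos (by omega) s0
  have h0 : (0 : ℝ) < h := by exact_mod_cast (show 0 < h by omega)
  have dec := win_decay M h T (2 * (2 * (T : ℝ) + 1) / h) (by omega) hTh (by positivity)
    (by rw [div_mul_cancel₀ _ h0.ne'])
  have s0' : (0 : ℝ) < s := by exact_mod_cast s0
  have mid : 1 / (2 * (s : ℝ)) ≤ bin M h := by
    refine le_trans ?_ (win_mid M)
    refine le_of_pow_le_pow_left₀ (n := 2) two_ne_zero (cb_pos _).le (le_trans ?_ (cb_sq_ge _))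
    have a1 : (2 * (h + 1) + 1 : ℕ) ≤ 2 * s ^ 2 := by omega
    have a2 : 2 * ((h + 1 : ℕ) : ℝ) + 1 ≤ 2 * (s : ℝ) ^ 2 := by exact_mod_cast a1
    have a3 := Real.pi_le_four
    have a4 := Real.pi_pos
    rw [div_pow, div_le_div_iff₀ (by positivity) (by positivity)]
    have a5 : (0 : ℝ) ≤ 2 * ((h + 1 : ℕ) : ℝ) + 1 := by positivity
    nlinarith [mul_le_mul a3 a2 a5 (by norm_num : (0 : ℝ) ≤ 4)]
  have each : ∀ a ∈ Ico h (h + T) \ D,
      1 / (2 * (s : ℝ)) * Real.exp (-(72 * ((L : ℝ) + 1) ^ 2)) ≤ bin M a := by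
    intro a ha
    obtain ⟨a1, a2⟩ := mem_Ico.1 (mem_sdiff.1 ha).1
    obtain ⟨t, rfl⟩ : ∃ t, a = h + t := ⟨a - h, by omega⟩
    refine le_trans ?_ (dec t (by omega))
    refine mul_le_mul mid (Real.exp_le_exp.2 ?_) (Real.exp_pos _).le (bin_nonneg _ _)
    have t1 : (t : ℝ) ≤ T := by exact_mod_cast (show t ≤ T by omega)
    have t2 : (1 : ℝ) ≤ T := by exact_mod_cast T1
    have t3 : (T : ℝ) ^ 2 ≤ 4 * ((L : ℝ) + 1) ^ 2 * M := by exact_mod_cast hT2
    have t4 : (M : ℝ) ≤ 3 * h := by exact_mod_cast h3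
    have t5 : (0 : ℝ) ≤ t := Nat.cast_nonneg t
    rw [neg_le_neg_iff, ← mul_div_assoc, div_le_iff₀ h0]
    have t6 : (t : ℝ) * (2 * (2 * (T : ℝ) + 1)) ≤ 6 * (T : ℝ) ^ 2 := by nlinarith
    nlinarith [mul_le_mul_of_nonneg_left t4 (by positivity : (0 : ℝ) ≤ ((L : ℝ) + 1) ^ 2)]
  have sub : Ico h (h + T) \ D ⊆ range (M + 1) \ D := by
    refine sdiff_subset_sdiff (fun a ha => mem_range.2 ?_) subset_rfl
    have := (mem_Ico.1 ha).2
    omega
  refine le_trans ?_ (sum_le_sum_of_subset_of_nonneg sub fun a _ _ => bin_nonneg M a)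
  refine le_trans ?_ (card_nsmul_le_sum _ _ _ each)
  have c1 : s ≤ (Ico h (h + T) \ D).card := by
    have a1 := le_card_sdiff D (Ico h (h + T))
    rw [Nat.card_Ico] at a1
    have a2 : T = L * s + s := by rw [hT]; ring
    omega
  have c2 : (s : ℝ) ≤ ((Ico h (h + T) \ D).card : ℝ) := by exact_mod_cast c1
  rw [nsmul_eq_mul]
  refine le_trans (le_of_eq ?_) (mul_le_mul_of_nonneg_right c2 (by positivity))
  field_simp

theorem win_choose (m : ℕ) :
    6 * (((m + 5 - 2).choose 3 : ℕ) : ℝ) = ((m : ℝ) + 3) * (m + 2) * (m + 1) := by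
  have h := Nat.descFactorial_eq_factorial_mul_choose (m + 3) 3
  have e : m + 5 - 2 = m + 3 := by omega
  rw [e]
  have h2 : (m + 3).descFactorial 3 = (m + 3) * (m + 2) * (m + 1) := by
    simp [Nat.descFactorial]
    ring
  rw [h2] at h
  have h3 : 6 * (m + 3).choose 3 = (m + 3) * (m + 2) * (m + 1) := by
    rw [h]; rfl
  exact_mod_cast h3

theorem lam_ge {n : ℕ} (hn : 5 ≤ n) :
    Real.sqrt (3 * n / (2 * Real.pi)) ≤ (n : ℝ) * (n - 1) / 2 * cb ((n - 2).choose 3) := by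
  obtain ⟨m, rfl⟩ : ∃ m, n = m + 5 := ⟨n - 5, by omega⟩
  have h1 := win_choose m
  have h2 := cb_sq_ge ((m + 5 - 2).choose 3)
  have h3 := cb_pos ((m + 5 - 2).choose 3)
  generalize cb ((m + 5 - 2).choose 3) = c at h2 h3
  generalize (m + 5 - 2).choose 3 = K at h1 h2
  have m0 : (0 : ℝ) ≤ m := Nat.cast_nonneg m
  have hp := Real.pi_pos
  push_cast
  have e : ((m : ℝ) + 5 - 1) = m + 4 := by ring
  rw [e]
  refine Real.sqrt_le_iff.2 ⟨by positivity, ?_⟩
  rw [mul_pow]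
  refine le_trans ?_ (mul_le_mul_of_nonneg_left h2 (by positivity))
  rw [← mul_div_assoc, div_le_div_iff₀ (by positivity) (by positivity)]
  have a1 : 3 * (2 * (K : ℝ) + 1) ≤ ((m : ℝ) + 5) * (m + 4) ^ 2 := by nlinarith
  have a2 := mul_le_mul_of_nonneg_left a1 (by positivity : 0 ≤ Real.pi * ((m : ℝ) + 5))
  nlinarith

theorem lam_le {n : ℕ} (hn : 10 ≤ n) :
    (n : ℝ) * (n - 1) / 2 * cb ((n - 2).choose 3) ≤ Real.sqrt (3 * n / (2 * Real.pi)) + 4 := by
  obtain ⟨m, rfl⟩ : ∃ m, n = m + 5 := ⟨n - 5, by omega⟩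
  have h1 := win_choose m
  have hK : 1 ≤ (m + 5 - 2).choose 3 := Nat.choose_pos (by omega)
  have h2 := cb_sq_le hK
  have h3 := cb_pos ((m + 5 - 2).choose 3)
  generalize cb ((m + 5 - 2).choose 3) = c at h2 h3
  generalize (m + 5 - 2).choose 3 = K at h1 h2 hK
  have K0 : (0 : ℝ) < K := by exact_mod_cast hK
  have m0 : (5 : ℝ) ≤ m := by exact_mod_cast (show 5 ≤ m by omega)
  have hp := Real.pi_pos
  have hp3 := Real.pi_gt_three
  push_cast
  have e : ((m : ℝ) + 5 - 1) = m + 4 := by ring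
  rw [e]
  have A0 := Real.sqrt_nonneg (3 * ((m : ℝ) + 5) / (2 * Real.pi))
  have A2 := Real.sq_sqrt (show 0 ≤ 3 * ((m : ℝ) + 5) / (2 * Real.pi) by positivity)
  generalize Real.sqrt (3 * ((m : ℝ) + 5) / (2 * Real.pi)) = A at A0 A2
  refine le_of_pow_le_pow_left₀ (n := 2) two_ne_zero (by positivity) ?_
  rw [mul_pow]
  refine le_trans (mul_le_mul_of_nonneg_left h2 (by positivity)) ?_
  have a1 : (((m : ℝ) + 5) * (m + 4)) ^ 2 ≤ (m + 35) * (6 * K) := by
    rw [h1]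
    obtain ⟨u, hu, u0⟩ : ∃ u : ℝ, (m : ℝ) = u + 5 ∧ 0 ≤ u := ⟨m - 5, by ring, by linarith⟩
    rw [hu]
    nlinarith [pow_nonneg u0 2, pow_nonneg u0 3]
  have a2 : (((m : ℝ) + 5) * (m + 4) / 2) ^ 2 * (1 / (Real.pi * K)) ≤
      3 * ((m : ℝ) + 5) / (2 * Real.pi) + 16 := by
    rw [mul_one_div, div_le_iff₀ (by positivity)]
    have e2 : (3 * ((m : ℝ) + 5) / (2 * Real.pi) + 16) * (Real.pi * K) =
        3 * ((m : ℝ) + 5) * K / 2 + 16 * Real.pi * K := by field_simp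
    rw [e2]
    nlinarith [mul_le_mul_of_nonneg_right hp3.le K0.le]
  nlinarith

end Pool.Agent.Lib.MP_bd7745_co
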