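import Pool.Agent.Lib.MP_bd7745_co.Core
import Pool.Agent.Lib.MP_bd7745_co.Mult
import Pool.Agent.Lib.MP_bd7745_co.Win

/-! The pairing of `Fin n` and the resulting inequalities between real numbers. -/

set_option autoImplicit false

noncomputable section

namespace Pool.Agent.Lib.MP_bd7745_co

open Finset

/-- Unit `i` consists of `2 i` and `2 i + 1`. -/
def stdPr (n : ℕ) : Pr (Fin n) (Fin (n / 2)) where
  e v := ⟨2 * v.1.1 + (if v.2 then 0 else 1), by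
    have := v.1.2
    split_ifs <;> omega⟩
  side i := decide (i.1 < n / 4)
  inj := by
    rintro ⟨i, c⟩ ⟨j, d⟩ h
    have h1 := congrArg Fin.val h
    have h2 : i.1 = j.1 ∧ c = d := by
      cases c <;> cases d <;> simp at h1 ⊢ <;> omega
    exact Prod.ext (Fin.ext h2.1) h2.2

/-- Probability that the random `(k + 1)`-uniform hypergraph on `n` vertices is irregular. -/
def PP (k n : ℕ) : ℝ := av (UU (Fin n) k) fun H => ind (Irr H)

/-- Lower bound for the number of coins of a unit. -/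
def N0 (k n : ℕ) : ℕ := (2 * (n / 4)).choose k

theorem std_cover (n : ℕ) : (univ \ univ.image (stdPr n).e).card ≤ 1 := by
  have h : ∀ a ∈ univ \ univ.image (stdPr n).e, 2 * (n / 2) ≤ a.1 := fun a ha => by
    by_contra hlt
    refine (mem_sdiff.1 ha).2 (mem_image.2
      ⟨(⟨a.1 / 2, by omega⟩, decide (a.1 % 2 = 0)), mem_univ _, Fin.ext ?_⟩)
    by_cases h2 : a.1 % 2 = 0 <;> simp [stdPr, h2] <;> omega
  refine card_le_one.2 fun a ha b hb => Fin.ext ?_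
  have := h a ha
  have := h b hb
  have := a.2
  have := b.2
  omega

theorem std_F (k n : ℕ) (i : Fin (n / 2)) : N0 k n ≤ ((stdPr n).F k i).card := by
  rw [Pr.card_F, N0, cnt_eq]
  refine Nat.choose_le_choose k (Nat.mul_le_mul_left 2 ?_)
  refine (Fintype.card_fin (n / 4)).ge.trans (card_le_card_of_injOn
    (fun j : Fin (n / 4) => (⟨j.1 + if i.1 < n / 4 then n / 4 else 0, by
      have := j.2
      split_ifs <;> omega⟩ : Fin (n / 2))) (fun j _ => ?_) fun j _ j' _ h => Fin.ext ?_)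
  · have := j.2
    by_cases h : i.1 < n / 4 <;> simp [stdPr, h]
  · simpa using h

theorem conc_cr {I : Type*} (J : Finset I) (T : Finset Bool) :
    cr (J ×ˢ T) = (T.card : ℝ) ^ 2 * (J.card * ((J.card : ℝ) - 1)) := by
  classical
  have h : ∀ i ∈ J, ∑ j ∈ J, ind (i ≠ j) = (J.card : ℝ) - 1 := fun i hi => by
    simp only [ne_eq, ind_not, sum_sub_distrib, sum_const, nsmul_eq_mul, mul_one]
    rw [sum_eq_single_of_mem i hi fun j _ hj => ind_false (Ne.symm hj), ind_true rfl]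
  unfold cr
  simp only [sum_product, sum_const, nsmul_eq_mul, ← mul_sum]
  rw [sum_congr rfl h, sum_const, nsmul_eq_mul]
  ring

theorem conc_half (n : ℕ) : (n : ℝ) = 2 * (n / 2 : ℕ) ∨ (n : ℝ) = 2 * (n / 2 : ℕ) + 1 := by
  rcases (show n = 2 * (n / 2) ∨ n = 2 * (n / 2) + 1 by omega) with h | h
  · exact Or.inl (by exact_mod_cast h)
  · exact Or.inr (by exact_mod_cast h)

theorem conc_le (n : ℕ) : ((n / 2 : ℕ) : ℝ) ≤ n := by exact_mod_cast Nat.div_le_self n 2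

theorem conc_choose (n k : ℕ) : (n.choose k : ℝ) ≤ (n : ℝ) ^ k := by
  exact_mod_cast Nat.choose_le_pow n k

theorem cr_univ (m : ℕ) :
    cr (univ : Finset (Fin m × Bool)) = 2 * (m : ℝ) * (2 * (m : ℝ) - 2) := by
  rw [← univ_product_univ, conc_cr, card_univ, card_univ, Fintype.card_fin, Fintype.card_bool]
  push_cast
  ring

theorem std_low3 {k n M0 : ℕ} (hk : 2 ≤ k) (h4 : 4 * M0 ≤ N0 k n) {g : ℝ} (hg0 : 0 ≤ g)
    (hg : ∀ M : ℕ, M0 ≤ M → ∀ D : Finset ℕ, D.card ≤ 2 * n + 3 →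
      g ≤ ∑ a ∈ range (M + 1) \ D, bin M a) (hg1 : g ≤ 1)
    (he : (n : ℝ) * Real.exp (-(N0 k n : ℝ) / 8) ≤ 1 / 2) : g ^ n / 2 ≤ PP k n := by
  have h1 := (stdPr n).core_low3 hk (std_cover n) h4 (std_F k n) hg0 fun M hM D hD =>
    hg M hM D (by rw [Fintype.card_fin] at hD; omega)
  rw [Fintype.card_fin] at h1
  refine le_trans ?_ h1
  have h2 := mul_le_mul_of_nonneg_right (conc_le n) (Real.exp_pos (-(N0 k n : ℝ) / 8)).le
  rw [div_eq_mul_one_div]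
  exact mul_le_mul (pow_le_pow_of_le_one hg0 hg1 (Nat.div_le_self n 2)) (by linarith)
    (by norm_num) (pow_nonneg hg0 _)

theorem std_low {k n M0 : ℕ} (hk : 2 ≤ k) (h0 : 1 ≤ M0) (h4 : 4 * M0 ≤ N0 k n) {d c : ℝ}
    (hd : (2 * (n : ℝ) + 3) / Real.sqrt M0 ≤ d) (hd4 : d ≤ 1 / 4)
    (hc : 2 * d + (1 + 8 * d) * ((n : ℝ) * (n - 1) / 2 * cb ((n - 2).choose k)) ≤ c)
    (he : (1 + c) * ((n : ℝ) * Real.exp (-(N0 k n : ℝ) / 8)) ≤ 1 / 2) :
    Real.exp (-c) / 2 ≤ PP k n := by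
  have hm : (0 : ℝ) ≤ (n / 2 : ℕ) := Nat.cast_nonneg _
  have hcb := (cb_pos ((n - 2).choose k)).le
  have h2 : (4 * ((n / 2 : ℕ) : ℝ) + 3) * (1 / Real.sqrt M0) ≤ d := by
    rw [mul_one_div]
    refine le_trans (div_le_div_of_nonneg_right ?_ (Real.sqrt_nonneg _)) hd
    rcases conc_half n with h | h <;> linarith
  have h3 : 0 ≤ (4 * ((n / 2 : ℕ) : ℝ) + 3) * (1 / Real.sqrt M0) := by positivity
  have h5 : cr (univ : Finset (Fin (n / 2) × Bool)) / 2 ≤ (n : ℝ) * (n - 1) / 2 := by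
    rw [cr_univ]
    rcases conc_half n with h | h <;> rw [h] <;> nlinarith
  have h6 : 0 ≤ cr (univ : Finset (Fin (n / 2) × Bool)) / 2 :=
    div_nonneg (sum_nonneg fun _ _ => sum_nonneg fun _ _ => ind_nonneg _) (by norm_num)
  have h7 := mul_le_mul
    (show 1 + 8 * ((4 * ((n / 2 : ℕ) : ℝ) + 3) * (1 / Real.sqrt M0)) ≤ 1 + 8 * d by linarith)
    (mul_le_mul_of_nonneg_right h5 hcb) (mul_nonneg h6 hcb) (by linarith)
  have h1 := (stdPr n).core_low hk (std_cover n) h0 h4 (std_F k n) (c := c) rfl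
    (by rw [Fintype.card_fin]; linarith) (by rw [Fintype.card_fin, Fintype.card_fin]; linarith)
  rw [Fintype.card_fin] at h1
  refine le_trans ?_ h1
  have h8 : 0 ≤ 1 + c := by
    linarith [mul_nonneg (show 0 ≤ 1 + 8 * d by linarith) (mul_nonneg (h6.trans h5) hcb)]
  have h9 := mul_le_mul_of_nonneg_left
    (mul_le_mul_of_nonneg_right (conc_le n) (Real.exp_pos (-(N0 k n : ℝ) / 8)).le) h8
  rw [div_eq_mul_one_div]
  exact mul_le_mul_of_nonneg_left (by linarith) (Real.exp_pos _).le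

/-- All paired vertices, `θ = 1`. -/
theorem std_up {k n M0 : ℕ} (hk : 2 ≤ k) (hn : 4 ≤ n) (h0 : 1 ≤ M0) (h4 : 4 * M0 ≤ N0 k n)
    (t : ℕ) :
    PP k n ≤ n * Real.exp (-(N0 k n : ℝ) / 8) + n * (n / Real.sqrt M0) ^ t +
      Real.exp (-((n : ℝ) * (n - 1) / 2 * cb ((n - 2).choose k)) +
        2 * n * cb ((n - 2).choose k) + (n : ℝ) ^ 2 * Real.exp (-(N0 k n : ℝ) / 8) +
        2 * t * n / Real.sqrt M0 + 5 * (n : ℝ) ^ 3 / M0 +
        128 * ((k : ℝ) + 1) ^ 2 * (n : ℝ) ^ (k + 3) / (M0 : ℝ) ^ 2) := by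
  have hM : (0 : ℝ) < M0 := by exact_mod_cast h0
  have hs : 0 < Real.sqrt M0 := Real.sqrt_pos.2 hM
  have hn' : (4 : ℝ) ≤ n := by exact_mod_cast hn
  have h1 := (stdPr n).core_up hk h0 h4 (std_F k n) univ zero_le_one le_rfl
    (8 * (t : ℝ) * Fintype.card (Fin (n / 2)))
  have h2 := (stdPr n).law_Rb hk (show 1 ≤ N0 k n by omega) (std_F k n) t
  refine h1.trans ?_
  rw [cr_univ, card_univ, Fintype.card_prod, Fintype.card_bool, Fintype.card_fin,
    Fintype.card_fin]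
  rw [Fintype.card_fin] at h2
  have hle := conc_le n
  have hh := conc_half n
  have hch := conc_choose n (k + 1)
  have hcb := (cb_pos ((n - 2).choose k)).le
  have he := (Real.exp_pos (-(N0 k n : ℝ) / 8)).le
  push_cast
  generalize cb ((n - 2).choose k) = b at hcb ⊢
  generalize Real.exp (-(N0 k n : ℝ) / 8) = e at he ⊢
  have hm : (0 : ℝ) ≤ (n / 2 : ℕ) := Nat.cast_nonneg _
  refine add_le_add (add_le_add (mul_le_mul_of_nonneg_right hle he) (h2.trans ?_))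
    (Real.exp_le_exp.2 ?_)
  · refine mul_le_mul hle (pow_le_pow_left₀ (by positivity) (div_le_div₀ (by positivity) hle hs
      (Real.sqrt_le_sqrt ?_)) t) (by positivity) (by positivity)
    exact_mod_cast (show M0 ≤ N0 k n by omega)
  generalize ((n / 2 : ℕ) : ℝ) = m at hm hle hh
  have hm2 : m * 2 ≤ n := by rcases hh with h | h <;> linarith
  have a1 : ((n : ℝ) * (n - 1) / 2 - 2 * n) * b ≤ 2 * m * (2 * m - 2) / 2 * b :=
    mul_le_mul_of_nonneg_right (by rcases hh with h | h <;> rw [h] <;> nlinarith) hcb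
  have a2 : 2 * m * (2 * m - 2) * e ≤ (n : ℝ) ^ 2 * e :=
    mul_le_mul_of_nonneg_right (by nlinarith) he
  have a3 : 1 / Real.sqrt M0 * (8 * t * m) / 2 ≤ 2 * t * n / Real.sqrt M0 := by
    rw [show 1 / Real.sqrt M0 * (8 * t * m) / 2 = 2 * t * (m * 2) / Real.sqrt M0 by ring]
    gcongr
  have a4 : (m * 2) ^ 2 * (3 * (m * 2) + 2) / M0 ≤ 5 * (n : ℝ) ^ 3 / M0 := by
    rw [show 5 * (n : ℝ) ^ 3 = (n : ℝ) ^ 2 * (5 * n) by ring]
    gcongr
    linarith
  have a5 : (32 * ((k : ℝ) + 1) * (m * 2) / M0) ^ 2 * (n.choose (k + 1) : ℝ) / 8 ≤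
      128 * ((k : ℝ) + 1) ^ 2 * (n : ℝ) ^ (k + 3) / (M0 : ℝ) ^ 2 := by
    rw [show 128 * ((k : ℝ) + 1) ^ 2 * (n : ℝ) ^ (k + 3) / (M0 : ℝ) ^ 2 =
      (32 * ((k : ℝ) + 1) * n / M0) ^ 2 * (n : ℝ) ^ (k + 1) / 8 by ring]
    gcongr
  linarith

/-- First vertices of `j` units. -/
theorem std_up3 {k n M0 j : ℕ} (hk : 2 ≤ k) (h0 : 1 ≤ M0) (h4 : 4 * M0 ≤ N0 k n)
    (hj : j ≤ n / 2) (hj1 : 1 ≤ j) {θ : ℝ} (hθ0 : 0 ≤ θ) (hθ1 : θ ≤ 1) :
    PP k n ≤ n * Real.exp (-(N0 k n : ℝ) / 8) +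
      Real.exp (θ * (-((j : ℝ) * (j - 1) / 2 * cb ((n - 2).choose k)) +
        (n : ℝ) ^ 2 * Real.exp (-(N0 k n : ℝ) / 8) + 5 * (j : ℝ) ^ 3 / M0) +
        θ ^ 2 * (128 * ((k : ℝ) + 1) ^ 2 * (j : ℝ) ^ 2 * (n : ℝ) ^ (k + 1) / (M0 : ℝ) ^ 2)) := by
  have hM : (0 : ℝ) < M0 := by exact_mod_cast h0
  obtain ⟨J, -, hJ⟩ := exists_subset_card_eq (s := (univ : Finset (Fin (n / 2)))) (n := j)
    (by rwa [card_univ, Fintype.card_fin])
  have h1 := (stdPr n).core_up hk h0 h4 (std_F k n) (J ×ˢ {true}) hθ0 hθ1 0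
  have h2 : (av (UU (Fin n) k) fun H => ind (0 < Rb ((stdPr n).BB k H) (J ×ˢ {true}))) = 0 := by
    refine (av_congr _ fun H _ => ind_false (Eq.not_lt (Eq.symm ?_))).trans (av_const _ 0)
    refine sum_eq_zero fun v hv => sum_eq_zero fun w _ => ind_false fun h => ?_
    have h3 := (mem_product.1 h.2.1).2
    have h5 := (mem_product.1 hv).2
    simp only [pt, mem_singleton] at h3 h5
    simp [h5] at h3
  refine h1.trans ?_
  rw [h2, add_zero, conc_cr, card_product, card_singleton, hJ, Fintype.card_fin, Fintype.card_fin]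
  have hj' : (1 : ℝ) ≤ j := by exact_mod_cast hj1
  have hjn : (j : ℝ) ≤ n := by exact_mod_cast hj.trans (Nat.div_le_self n 2)
  have hch := conc_choose n (k + 1)
  have he := (Real.exp_pos (-(N0 k n : ℝ) / 8)).le
  push_cast
  generalize cb ((n - 2).choose k) = b
  generalize Real.exp (-(N0 k n : ℝ) / 8) = e at he ⊢
  refine add_le_add (mul_le_mul_of_nonneg_right (conc_le n) he) (Real.exp_le_exp.2
    (add_le_add (mul_le_mul_of_nonneg_left ?_ hθ0) ?_))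
  · have a2 : (j : ℝ) * (j - 1) * e ≤ (n : ℝ) ^ 2 * e :=
      mul_le_mul_of_nonneg_right (by nlinarith) he
    have a4 : ((j : ℝ) * 1) ^ 2 * (3 * (j * 1) + 2) / M0 ≤ 5 * (j : ℝ) ^ 3 / M0 := by
      rw [show 5 * (j : ℝ) ^ 3 = (j : ℝ) ^ 2 * (5 * j) by ring, mul_one]
      gcongr
      linarith
    linarith
  · rw [show θ ^ 2 * (128 * ((k : ℝ) + 1) ^ 2 * (j : ℝ) ^ 2 * (n : ℝ) ^ (k + 1) / (M0 : ℝ) ^ 2) =
      θ ^ 2 * (32 * ((k : ℝ) + 1) * (j * 1) / M0) ^ 2 * (n : ℝ) ^ (k + 1) / 8 by ring]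
    gcongr

end Pool.Agent.Lib.MP_bd7745_co
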