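import Pool.Agent.Lib.MP_bd7745_co.Lip
import Pool.Agent.Lib.MP_bd7745_co.BdLow
import Pool.Agent.Lib.MP_bd7745_co.BdUp

/-! Bounds for the probability of irregularity, for a fixed paired vertex set. -/

set_option autoImplicit false

noncomputable section

namespace Pool.Agent.Lib.MP_bd7745_co

open Finset

variable {V I : Type*} [Fintype V] [DecidableEq V] [Fintype I] [DecidableEq I]

omit [Fintype I] in
theorem core_E_nonneg (Y : Sys I) (p : (I → ℕ) → Prop) : 0 ≤ Y.E fun X => ind (p X) :=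
  (map_zero Y.E).ge.trans (Y.mono _ _ fun _ => ind_nonneg _)

omit [Fintype I] in
theorem core_E_le (Y : Sys I) (p : (I → ℕ) → Prop) :
    (Y.E fun X => ind (p X)) ≤ Y.E fun _ => 1 := Y.mono _ _ fun _ => ind_le_one _

omit [Fintype I] [DecidableEq I] in
theorem core_Lam_nonneg (M : I → ℕ) (B : I × Bool → ℤ) (S : Finset (I × Bool)) :
    0 ≤ Lam M B S :=
  div_nonneg (sum_nonneg fun _ _ => sum_nonneg fun _ _ =>
    mul_nonneg (ind_nonneg _) (qq_nonneg _ _ _ _)) (by norm_num)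

theorem core_theta {θ y y0 a b : ℝ} (hθ0 : 0 ≤ θ) (hθ1 : θ ≤ 1) (hy : y0 ≤ y) (hb : 0 ≤ b)
    (h1 : a ≤ b) (h2 : a ≤ Real.exp y0 * b) : a ≤ Real.exp (θ * y) * b := by
  rcases le_total y 0 with h | h
  · exact h2.trans (mul_le_mul_of_nonneg_right (Real.exp_le_exp.2 (by nlinarith)) hb)
  · exact h1.trans (le_mul_of_one_le_left hb (Real.one_le_exp (mul_nonneg hθ0 h)))

namespace Pr

variable (P : Pr V I)

omit [DecidableEq I] in
theorem core_ZZ (hc : (univ \ univ.image P.e).card ≤ 1) (H : Finset (Finset V)) :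
    (P.ZZ H).card ≤ 1 := card_image_le.trans hc

theorem core_irr (hc : (univ \ univ.image P.e).card ≤ 1) (k : ℕ) (H : Finset (Finset V))
    (h : Dis (P.BB k H) (P.ZZ H) univ (P.XX k H)) : Irr H := by
  have h1 : ∀ (v : I × Bool) (w : V), w ∉ univ.image P.e → deg H (P.e v) ≠ deg H w :=
    fun v w hw e => h.2 v (mem_univ _) (by
      rw [val_BB, e]; exact mem_image.2 ⟨w, mem_sdiff.2 ⟨mem_univ _, hw⟩, rfl⟩)
  intro u w huw e
  by_cases hu : u ∈ univ.image P.e <;> by_cases hw : w ∈ univ.image P.e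
  · obtain ⟨v, -, rfl⟩ := mem_image.1 hu
    obtain ⟨v', -, rfl⟩ := mem_image.1 hw
    exact huw (congrArg _ (h.1 v (mem_univ _) v' (mem_univ _) (by rw [val_BB, val_BB, e])))
  · obtain ⟨v, -, rfl⟩ := mem_image.1 hu
    exact h1 v w hw e
  · obtain ⟨v, -, rfl⟩ := mem_image.1 hw
    exact h1 v u hu e.symm
  · exact huw (card_le_one.1 hc u (mem_sdiff.2 ⟨mem_univ _, hu⟩) w
      (mem_sdiff.2 ⟨mem_univ _, hw⟩))

theorem core_dis (k : ℕ) (S : Finset (I × Bool)) (H : Finset (Finset V)) (h : Irr H) :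
    Dis (P.BB k H) ∅ S (P.XX k H) := by
  refine ⟨fun v _ w _ e => P.inj (by_contra fun hne => h _ _ hne ?_), fun _ _ => notMem_empty _⟩
  rw [val_BB, val_BB] at e
  exact_mod_cast e

theorem core_low3 {k : ℕ} (hk : 2 ≤ k) (hc : (univ \ univ.image P.e).card ≤ 1) {M0 N0 : ℕ}
    (h4 : 4 * M0 ≤ N0) (hN : ∀ i, N0 ≤ (P.F k i).card) {g : ℝ} (hg0 : 0 ≤ g)
    (hg : ∀ M : ℕ, M0 ≤ M → ∀ D : Finset ℕ, D.card ≤ 4 * Fintype.card I + 3 →
      g ≤ ∑ a ∈ range (M + 1) \ D, bin M a) :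
    g ^ Fintype.card I * (1 - Fintype.card I * Real.exp (-(N0 : ℝ) / 8)) ≤
      av (UU V k) fun H => ind (Irr H) := by
  have h1 := P.cond' hk (fun _ B Z X => ind (Dis B Z univ X))
    (fun M _ Z => ind (Z.card ≤ 1 ∧ ∀ i, M0 ≤ M i) * g ^ Fintype.card I) fun Y Z => by
      by_cases h : Z.card ≤ 1 ∧ ∀ i, M0 ≤ Y.M i
      · rw [ind_true h, one_mul]
        exact bd_low3 Y Z h.1 hg0 fun i => hg _ (h.2 i)
      · rw [ind_false h, zero_mul, zero_mul]
        exact core_E_nonneg Y _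
  refine le_trans ?_ (h1.trans (av_mono _ fun H _ => ind_mono (P.core_irr hc k H)))
  have h2 : (av (UU V k) fun H => ind ((P.ZZ H).card ≤ 1 ∧ ∀ i, M0 ≤ P.MM k H i) *
      g ^ Fintype.card I) = av (UU V k) fun H =>
        g ^ Fintype.card I * (1 - ind (¬ ∀ i, M0 ≤ P.MM k H i)) := av_congr _ fun H _ => by
    rw [ind_not, sub_sub_cancel, mul_comm, ind_congr (and_iff_right (P.core_ZZ hc H))]
  rw [h2, av_mul, av_sub, av_const]
  exact mul_le_mul_of_nonneg_left (sub_le_sub_left (P.law_good hk h4 hN) _) (pow_nonneg hg0 _)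

theorem core_low {k : ℕ} (hk : 2 ≤ k) (hc : (univ \ univ.image P.e).card ≤ 1) {M0 N0 : ℕ}
    (h0 : 1 ≤ M0) (h4 : 4 * M0 ≤ N0) (hN : ∀ i, N0 ≤ (P.F k i).card) {δ c : ℝ}
    (hδ : δ = (4 * (Fintype.card I : ℝ) + 3) * (1 / Real.sqrt M0)) (hδ4 : δ ≤ 1 / 4)
    (hcc : 2 * δ + (1 + 8 * δ) *
      (cr (univ : Finset (I × Bool)) / 2 * cb ((Fintype.card V - 2).choose k)) ≤ c) :
    Real.exp (-c) * (1 - (1 + c) * (Fintype.card I * Real.exp (-(N0 : ℝ) / 8))) ≤
      av (UU V k) fun H => ind (Irr H) := by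
  have hδ0 : 0 ≤ δ := by rw [hδ]; positivity
  have h1 := P.cond' hk (fun _ B Z X => ind (Dis B Z univ X))
    (fun M B Z => ind (Z.card ≤ 1 ∧ ∀ i, M0 ≤ M i) *
      Real.exp (-(2 * δ + (1 + 8 * δ) * Lam M B univ))) fun Y Z => by
      by_cases h : Z.card ≤ 1 ∧ ∀ i, M0 ≤ Y.M i
      · rw [ind_true h, one_mul]
        exact bd_low Y Z h.1 (fun i => bin_le h0 (h.2 i)) (by positivity) hδ hδ4
      · rw [ind_false h, zero_mul, zero_mul]
        exact core_E_nonneg Y _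
  refine le_trans ?_ (h1.trans (av_mono _ fun H _ => ind_mono (P.core_irr hc k H)))
  have h2 : (av (UU V k) fun H => Real.exp (-c) * (1 + c - 2 * δ -
      (1 + 8 * δ) * Lam (P.MM k H) (P.BB k H) univ - (1 + c) * ind (¬ ∀ i, M0 ≤ P.MM k H i))) ≤
      av (UU V k) fun H => ind ((P.ZZ H).card ≤ 1 ∧ ∀ i, M0 ≤ P.MM k H i) *
        Real.exp (-(2 * δ + (1 + 8 * δ) * Lam (P.MM k H) (P.BB k H) univ)) := by
    refine av_mono _ fun H _ => ?_
    have h3 : 0 ≤ (1 + 8 * δ) * Lam (P.MM k H) (P.BB k H) univ :=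
      mul_nonneg (by positivity) (core_Lam_nonneg _ _ _)
    generalize (1 + 8 * δ) * Lam (P.MM k H) (P.BB k H) univ = L at h3
    rw [ind_congr (and_iff_right (P.core_ZZ hc H)), ind_not]
    by_cases h : ∀ i, M0 ≤ P.MM k H i
    · rw [ind_true h, one_mul, show -(2 * δ + L) = -c + (c - (2 * δ + L)) by ring, Real.exp_add]
      refine mul_le_mul_of_nonneg_left ?_ (Real.exp_pos _).le
      linarith [Real.add_one_le_exp (c - (2 * δ + L))]
    · rw [ind_false h, zero_mul]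
      exact mul_nonpos_of_nonneg_of_nonpos (Real.exp_pos _).le (by linarith)
  refine le_trans ?_ h2
  rw [av_mul, av_sub, av_sub, av_const, av_mul, av_mul]
  refine mul_le_mul_of_nonneg_left ?_ (Real.exp_pos _).le
  have h5 : 0 ≤ (1 + 8 * δ) * av (UU V k) fun H => Lam (P.MM k H) (P.BB k H) univ :=
    mul_nonneg (by positivity) (av_nonneg _ fun H => core_Lam_nonneg _ _ _)
  rw [P.av_Lam hk] at h5 ⊢
  have h6 := mul_le_mul_of_nonneg_left (P.law_good hk h4 hN) (show 0 ≤ 1 + c by linarith)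
  linarith

theorem core_up {k : ℕ} (hk : 2 ≤ k) {M0 N0 : ℕ} (h0 : 1 ≤ M0) (h4 : 4 * M0 ≤ N0)
    (hN : ∀ i, N0 ≤ (P.F k i).card) (S : Finset (I × Bool)) {θ : ℝ} (hθ0 : 0 ≤ θ) (hθ1 : θ ≤ 1)
    (ρ : ℝ) :
    (av (UU V k) fun H => ind (Irr H)) ≤
      Fintype.card I * Real.exp (-(N0 : ℝ) / 8) +
      av (UU V k) (fun H => ind (ρ < Rb (P.BB k H) S)) +
      Real.exp (θ * (-(cr S / 2 *
          (cb ((Fintype.card V - 2).choose k) - 2 * Real.exp (-(N0 : ℝ) / 8))) +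
          1 / Real.sqrt M0 * ρ / 2 + (S.card : ℝ) ^ 2 * (3 * (S.card : ℝ) + 2) / M0) +
        θ ^ 2 * (32 * ((k : ℝ) + 1) * S.card / M0) ^ 2 * ((Fintype.card V).choose (k + 1)) / 8) := by
  have hM : (0 : ℝ) < M0 := by exact_mod_cast h0
  obtain ⟨K, hK⟩ : ∃ K : ℝ, K = 1 / Real.sqrt M0 * ρ / 2 +
    (S.card : ℝ) ^ 2 * (3 * (S.card : ℝ) + 2) / M0 := ⟨_, rfl⟩
  have h1 := P.cond hk (fun _ B _ X => ind (Dis B ∅ S X))
    (fun M B _ => ind (¬ ∀ i, M0 ≤ M i) + ind (ρ < Rb B S) + Real.exp (θ * (-Lam M B S + K)))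
    fun Y Z => by
      have e0 : 0 ≤ Y.E fun _ => 1 := (core_E_nonneg Y _).trans (core_E_le Y (Dis Y.B ∅ S))
      have e1 := ind_nonneg (¬ ∀ i, M0 ≤ Y.M i)
      have e2 := ind_nonneg (ρ < Rb Y.B S)
      have e3 := (Real.exp_pos (θ * (-Lam Y.M Y.B S + K))).le
      by_cases h : ∀ i, M0 ≤ Y.M i
      · by_cases h' : ρ < Rb Y.B S
        · exact (core_E_le Y _).trans (le_mul_of_one_le_left e0 (by rw [ind_true h']; linarith))
        · refine (core_theta hθ0 hθ1 (y := -Lam Y.M Y.B S + K) ?_ e0 (core_E_le Y _)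
            (bd_up Y (fun i => bin_le h0 (h i)) (by positivity) S)).trans
            (mul_le_mul_of_nonneg_right (by linarith) e0)
          have e4 := mul_le_mul_of_nonneg_left (not_lt.1 h')
            (show 0 ≤ 1 / Real.sqrt M0 by positivity)
          rw [hK, div_pow, one_pow, Real.sq_sqrt hM.le, mul_one_div]
          linarith
      · exact (core_E_le Y _).trans (le_mul_of_one_le_left e0 (by rw [ind_true h]; linarith))
  refine ((av_mono _ fun H _ => ind_mono (P.core_dis k S H)).trans h1).trans ?_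
  rw [av_add, av_add]
  refine add_le_add (add_le_add (P.law_good hk h4 hN) le_rfl) ?_
  have h2 : (av (UU V k) fun H => Real.exp (θ * (-Lam (P.MM k H) (P.BB k H) S + K))) ≤
      av (UU V k) fun H => Real.exp (θ * K) * Real.exp (-θ * P.ff k M0 S H) :=
    av_mono _ fun H _ => by
      rw [← Real.exp_add]
      exact Real.exp_le_exp.2 (by
        linarith [mul_le_mul_of_nonneg_left (P.ff_le k M0 S H) hθ0])
  have h3 := mcd (UU V k) _ (P.ff k M0 S) (fun e he H => P.ff_lip hk h0 S he H) (-θ)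
  have h5 : (UU V k).card = (Fintype.card V).choose (k + 1) := by
    rw [UU, card_powersetCard, card_univ]
  rw [av_mul] at h2
  refine h2.trans ((mul_le_mul_of_nonneg_left h3 (Real.exp_pos _).le).trans ?_)
  rw [← Real.exp_add, h5, neg_sq, add_assoc (-_), ← hK]
  exact Real.exp_le_exp.2 (by
    linarith [mul_le_mul_of_nonneg_left (P.av_ff hk h0 h4 hN S) hθ0])

end Pr

end Pool.Agent.Lib.MP_bd7745_co
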