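import Pool.Agent.Lib.MP_bd7745_co.Conc

/-! The probability `PP` as a quotient of two cardinalities. -/

set_option autoImplicit false

noncomputable section

namespace Pool.Agent.Lib.MP_bd7745_co

open Finset

theorem PP_eq (k n : ℕ) :
    ((((univ : Finset (Fin n)).powersetCard (k + 1)).powerset.filter fun H =>
        ∀ v w : Fin n, v ≠ w →
          (H.filter fun e => v ∈ e).card ≠ (H.filter fun e => w ∈ e).card).card : ℝ) /
      (((univ : Finset (Fin n)).powersetCard (k + 1)).powerset.card : ℝ) = PP k n := by
  unfold PP av UU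
  rw [← cnt_eq, cnt_cast, card_powerset, Nat.cast_pow, Nat.cast_ofNat]
  congr 1
  refine sum_congr rfl fun H _ => ind_congr ?_
  unfold Irr deg
  simp only [cnt_eq]

end Pool.Agent.Lib.MP_bd7745_co
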