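import Pool.Agent.Lib.MP_bd7745_co.Conc

/-! The 3-uniform case. -/

set_option autoImplicit false

noncomputable section

namespace Pool.Agent.Lib.MP_bd7745_co

open Finset

theorem thr_choose (m : ℕ) : 2 * m.choose 2 + m = m * m := by
  induction m with
  | zero => simp
  | succ m ih =>
    rw [Nat.choose_succ_succ, Nat.choose_one_right]
    nlinarith

theorem thr_M0 {n : ℕ} (hn : 200 ≤ n) : n * n ≤ 40 * (N0 2 n / 4) := by
  have h1 := thr_choose (2 * (n / 4))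
  unfold N0
  obtain ⟨m, hm⟩ : ∃ m, m = n / 4 := ⟨_, rfl⟩
  rw [← hm] at h1 ⊢
  have h2 : n ≤ 4 * m + 3 := by omega
  have h3 : 50 ≤ m := by omega
  have h4 : n * n ≤ (4 * m + 3) * (4 * m + 3) := Nat.mul_le_mul h2 h2
  have h5 : (2 * m).choose 2 ≤ 4 * ((2 * m).choose 2 / 4) + 3 := by omega
  have h6 : 50 * m ≤ m * m := Nat.mul_le_mul_right m h3
  nlinarith

theorem thr_tail {n : ℕ} (hn : 200 ≤ n) :
    Real.exp (-(N0 2 n : ℝ) / 8) ≤ Real.exp (-((n : ℝ) ^ 2 / 80)) := by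
  have h1 := thr_M0 hn
  have h2 : n * n ≤ 10 * N0 2 n := by omega
  have h3 : (n : ℝ) * n ≤ 10 * (N0 2 n : ℝ) := by exact_mod_cast h2
  exact Real.exp_le_exp.2 (by nlinarith)

theorem thr_tail' {n : ℕ} (hn : 200 ≤ n) : (n : ℝ) ^ 2 * Real.exp (-(N0 2 n : ℝ) / 8) ≤ 80 := by
  have h1 := thr_tail hn
  have h2 := Real.add_one_le_exp ((n : ℝ) ^ 2 / 80)
  have h3 : Real.exp ((n : ℝ) ^ 2 / 80) * Real.exp (-((n : ℝ) ^ 2 / 80)) = 1 := by
    rw [← Real.exp_add, add_neg_cancel, Real.exp_zero]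
  have h4 := Real.exp_pos (-((n : ℝ) ^ 2 / 80))
  have h5 : (n : ℝ) ^ 2 * Real.exp (-(N0 2 n : ℝ) / 8) ≤
      (n : ℝ) ^ 2 * Real.exp (-((n : ℝ) ^ 2 / 80)) := mul_le_mul_of_nonneg_left h1 (by positivity)
  nlinarith

theorem thr_half {x : ℝ} (hx : 1 ≤ x) : Real.exp (-x) ≤ 1 / 2 := by
  have h2 := Real.add_one_le_exp x
  have h3 : Real.exp x * Real.exp (-x) = 1 := by
    rw [← Real.exp_add, add_neg_cancel, Real.exp_zero]
  have h4 := Real.exp_pos (-x)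
  nlinarith

theorem thr_cb {n : ℕ} (hn : 200 ≤ n) : 1 / (2 * (n : ℝ)) ≤ cb ((n - 2).choose 2) := by
  have h1 := cb_sq_ge ((n - 2).choose 2)
  have h2 := thr_choose (n - 2)
  have h3 : (n - 2) * (n - 2) ≤ n * n := Nat.mul_le_mul (by omega) (by omega)
  have h4 : 2 * (n - 2).choose 2 + 1 ≤ n * n := by omega
  have h5 : 2 * (((n - 2).choose 2 : ℕ) : ℝ) + 1 ≤ (n : ℝ) * n := by exact_mod_cast h4
  have h6 : (0 : ℝ) < n := by exact_mod_cast (by omega : 0 < n)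
  have h7 := Real.pi_le_four
  have h8 := Real.pi_pos
  have h9 : (0 : ℝ) < 2 * (((n - 2).choose 2 : ℕ) : ℝ) + 1 := by positivity
  refine le_of_sq_le_sq ?_ (cb_pos _).le
  refine le_trans ?_ h1
  rw [div_pow, div_le_div_iff₀ (by positivity) (by positivity)]
  nlinarith [mul_le_mul h7 h5 h9.le (by norm_num : (0 : ℝ) ≤ 4)]

theorem three_low : ∃ C : ℝ, ∃ N : ℕ, ∀ n : ℕ, N ≤ n → Real.exp (-C * n) ≤ PP 2 n := by
  obtain ⟨g, hg, M1, hw⟩ := window 360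
  have hg' : 0 < min g 1 := lt_min hg one_pos
  refine ⟨1 - Real.log (min g 1), 40 * M1 + 200, fun n hn => ?_⟩
  have hn2 : 200 ≤ n := by omega
  have hM := thr_M0 hn2
  have hnR : (200 : ℝ) ≤ n := by exact_mod_cast hn2
  have hnn : n ≤ n * n := Nat.le_mul_self n
  have h := std_low3 (k := 2) (n := n) (M0 := N0 2 n / 4) le_rfl (by omega) hg'.le
    (fun M hM0 D hD => (min_le_left g 1).trans (hw M (by omega) D (by
      have a1 : D.card ≤ 3 * n := by omega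
      have a2 : D.card ^ 2 ≤ (3 * n) ^ 2 := Nat.pow_le_pow_left a1 2
      have a3 : (3 * n) ^ 2 = 9 * (n * n) := by ring
      omega))) (min_le_right g 1) (by
      have a1 := thr_tail' hn2
      have a2 := Real.exp_pos (-(N0 2 n : ℝ) / 8)
      have a3 : 0 ≤ (n : ℝ) * Real.exp (-(N0 2 n : ℝ) / 8) := by positivity
      nlinarith)
  refine le_trans ?_ h
  have e : Real.exp (-(1 - Real.log (min g 1)) * n) = min g 1 ^ n * Real.exp (-(n : ℝ)) := by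
    have e1 : min g 1 ^ n = Real.exp (n * Real.log (min g 1)) := by
      rw [Real.exp_nat_mul, Real.exp_log hg']
    rw [e1, ← Real.exp_add]
    exact congrArg Real.exp (by ring)
  rw [e]
  have a1 := thr_half (x := n) (by linarith)
  have a2 : 0 < min g 1 ^ n := pow_pos hg' n
  nlinarith

theorem thr_expo {n j M K E θ : ℝ} (hn : 10 ^ 12 ≤ n) (hj : 6400 * j ≤ n) (hj' : n ≤ 12800 * j)
    (hM : n * n ≤ 40 * M) (hK : 1 / (2 * n) ≤ K) (hE : n ^ 2 * E ≤ 80)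
    (hθ : θ = 1 / (32 * 1843200)) :
    θ * (-(j * (j - 1) / 2 * K) + n ^ 2 * E + 5 * j ^ 3 / M) +
      θ ^ 2 * (128 * ((2 : ℝ) + 1) ^ 2 * j ^ 2 * n ^ (2 + 1) / M ^ 2) ≤
        -(θ / (32 * 12800 ^ 2) * n) := by
  have hn0 : 0 < n := by linarith [show (0 : ℝ) < 10 ^ 12 by norm_num]
  have hj2 : 2 ≤ j := by linarith [show (25600 : ℝ) ≤ 10 ^ 12 by norm_num]
  have hM0 : 0 < M := by nlinarith
  obtain ⟨u, hu⟩ : ∃ u, u = j ^ 2 / n := ⟨_, rfl⟩
  have hun : u * n = j ^ 2 := by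
    rw [hu]
    exact div_mul_cancel₀ _ hn0.ne'
  have hu0 : 0 < u := by
    rw [hu]
    positivity
  have u1 : n ≤ 12800 ^ 2 * u := by
    have : n * n ≤ 12800 ^ 2 * u * n := by nlinarith
    exact le_of_mul_le_mul_right this hn0
  have a1 : u / 8 ≤ j * (j - 1) / 2 * K := by
    have b1 : j ^ 2 / 4 ≤ j * (j - 1) / 2 := by nlinarith
    have b2 : u / 8 = j ^ 2 / 4 * (1 / (2 * n)) := by
      rw [hu]
      field_simp
      norm_num
    rw [b2]
    exact mul_le_mul b1 hK (by positivity) (by nlinarith)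
  have a2 : n ^ 2 * E ≤ u / 32 := by
    have : (80 : ℝ) * 32 * 12800 ^ 2 ≤ 10 ^ 12 := by norm_num
    nlinarith
  have a3 : 5 * j ^ 3 / M ≤ u / 32 := by
    rw [div_le_iff₀ hM0]
    have b1 : 5 * j ^ 3 = 5 * j * (u * n) := by
      rw [hun]
      ring
    have b2 : u * (n * n) ≤ u * (40 * M) := mul_le_mul_of_nonneg_left hM hu0.le
    have b3 : u * n * (6400 * j) ≤ u * n * n := mul_le_mul_of_nonneg_left hj (by positivity)
    nlinarith
  have a4 : 128 * ((2 : ℝ) + 1) ^ 2 * j ^ 2 * n ^ (2 + 1) / M ^ 2 ≤ 1843200 * u := by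
    rw [div_le_iff₀ (by positivity), ← hun]
    have b1 : (n * n) ^ 2 ≤ (40 * M) ^ 2 := pow_le_pow_left₀ (by positivity) hM 2
    have b2 : u * (n * n) ^ 2 ≤ u * (40 * M) ^ 2 := mul_le_mul_of_nonneg_left b1 hu0.le
    have b3 : 128 * ((2 : ℝ) + 1) ^ 2 * (u * n) * n ^ (2 + 1) = 1152 * (u * (n * n) ^ 2) := by
      ring
    have b4 : 1843200 * u * M ^ 2 = 1152 * (u * (40 * M) ^ 2) := by ring
    rw [b3, b4]
    linarith
  subst hθ
  linarith

theorem three_up : ∃ c : ℝ, 0 < c ∧ ∃ N : ℕ, ∀ n : ℕ, N ≤ n → PP 2 n ≤ Real.exp (-c * n) := by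
  obtain ⟨θ, hθ⟩ : ∃ θ : ℝ, θ = 1 / (32 * 1843200) := ⟨_, rfl⟩
  have hθ0 : 0 < θ := by
    rw [hθ]
    norm_num
  have hθ1 : θ ≤ 1 := by
    rw [hθ]
    norm_num
  obtain ⟨c, hc⟩ : ∃ c : ℝ, c = θ / (32 * 12800 ^ 2) / 2 := ⟨_, rfl⟩
  have hc0 : 1 / 10 ^ 20 ≤ c := by
    rw [hc, hθ]
    norm_num
  have hc1 : c ≤ 1 := by
    rw [hc, hθ]
    norm_num
  refine ⟨c, lt_of_lt_of_le (by norm_num) hc0, 10 ^ 20, fun n hn => ?_⟩
  have hn2 : 200 ≤ n := le_trans (by norm_num) hn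
  have hn3 : 12800 ≤ n := le_trans (by norm_num) hn
  have hnR : (10 : ℝ) ^ 20 ≤ n := by exact_mod_cast hn
  have hM := thr_M0 hn2
  have hnn : n ≤ n * n := Nat.le_mul_self n
  have h := std_up3 (k := 2) (n := n) (M0 := N0 2 n / 4) (j := n / 6400) le_rfl (by omega)
    (by omega) (by omega) (by omega) hθ0.le hθ1
  have hj : (6400 : ℝ) * ((n / 6400 : ℕ) : ℝ) ≤ n := by
    exact_mod_cast (by omega : 6400 * (n / 6400) ≤ n)
  have hj' : (n : ℝ) ≤ 12800 * ((n / 6400 : ℕ) : ℝ) := by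
    exact_mod_cast (by omega : n ≤ 12800 * (n / 6400))
  have hMR : (n : ℝ) * n ≤ 40 * ((N0 2 n / 4 : ℕ) : ℝ) := by exact_mod_cast hM
  have hx := thr_expo (le_trans (by norm_num) hnR) hj hj' hMR (thr_cb hn2) (thr_tail' hn2) hθ
  have e2 : ((2 : ℕ) : ℝ) = 2 := Nat.cast_ofNat
  rw [e2] at h
  have hn0 : (240 : ℝ) ≤ n := le_trans (by norm_num) hnR
  have b1 : (n : ℝ) * Real.exp (-(N0 2 n : ℝ) / 8) ≤ Real.exp (-(2 * c * n)) := by
    have c1 : (n : ℝ) ≤ Real.exp n := by linarith [Real.add_one_le_exp (n : ℝ)]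
    refine (mul_le_mul c1 (thr_tail hn2) (Real.exp_pos _).le (Real.exp_pos _).le).trans ?_
    rw [← Real.exp_add]
    exact Real.exp_le_exp.2 (by nlinarith)
  have b2 := Real.exp_le_exp.2 hx
  have e3 : -(θ / (32 * 12800 ^ 2) * (n : ℝ)) = -(2 * c * n) := by
    rw [hc]
    ring
  rw [e3] at b2
  have b3 : Real.exp (-(2 * c * n)) = Real.exp (-c * n) * Real.exp (-(c * n)) := by
    rw [← Real.exp_add]
    exact congrArg Real.exp (by ring)
  have b4 : Real.exp (-(c * n)) ≤ 1 / 2 := thr_half (by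
    have d1 : (1 : ℝ) / 10 ^ 20 * 10 ^ 20 ≤ c * n :=
      mul_le_mul hc0 hnR (by norm_num) (le_trans (by norm_num) hc0)
    linarith [show (1 : ℝ) / 10 ^ 20 * 10 ^ 20 = 1 by norm_num])
  have b5 := Real.exp_pos (-c * n)
  have b6 : Real.exp (-c * n) * Real.exp (-(c * n)) ≤ Real.exp (-c * n) * (1 / 2) :=
    mul_le_mul_of_nonneg_left b4 b5.le
  linarith

end Pool.Agent.Lib.MP_bd7745_co
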