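import Pool.Agent.Lib.MP_bd7745_co.Conc

/-! The 4-uniform case. -/

set_option autoImplicit false

noncomputable section

namespace Pool.Agent.Lib.MP_bd7745_co

open Finset

theorem four_M {n : ℕ} (hn : 100 ≤ n) : (n : ℝ) ^ 3 / 256 ≤ (N0 3 n / 4 : ℕ) := by
  obtain ⟨a, ha⟩ : ∃ a, 2 * (n / 4) = a + 2 := ⟨2 * (n / 4) - 2, by omega⟩
  have h1 : 6 * N0 3 n = a * ((a + 1) * (a + 2)) := by
    have := Nat.descFactorial_eq_factorial_mul_choose (a + 2) 3
    simp only [Nat.descFactorial, Nat.factorial] at this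
    rw [N0, ha]
    simpa using this.symm
  have h2 : N0 3 n ≤ 4 * (N0 3 n / 4) + 3 := by omega
  have h3 : n ≤ 2 * a + 7 := by omega
  generalize N0 3 n / 4 = M at h2 ⊢
  have h4 : (a : ℝ) * ((a + 1) * (a + 2)) ≤ 24 * M + 18 := by
    exact_mod_cast (by omega : a * ((a + 1) * (a + 2)) ≤ 24 * M + 18)
  have h5 : (n : ℝ) ≤ 2 * a + 7 := by exact_mod_cast h3
  have h6 : (100 : ℝ) ≤ n := by exact_mod_cast hn
  have h7 : 0.46 * (n : ℝ) ≤ a := by linarith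
  have h8 : (0.46 * (n : ℝ)) ^ 3 ≤ (a : ℝ) ^ 3 := pow_le_pow_left₀ (by positivity) h7 3
  have h9 : (100 : ℝ) ^ 3 ≤ (n : ℝ) ^ 3 := pow_le_pow_left₀ (by positivity) h6 3
  have h10 : (0 : ℝ) ≤ a := Nat.cast_nonneg a
  nlinarith [mul_nonneg h10 h10]

/-- The numerical facts used in both bounds. -/
theorem four_facts {n : ℕ} (hn : 40000 ≤ n) : ∃ (s : ℝ) (M : ℕ), 200 ≤ s ∧ s ^ 2 = n ∧
    Real.sqrt (3 * n / (2 * Real.pi)) ≤ s ∧ 1 ≤ M ∧ 4 * M ≤ N0 3 n ∧ (n : ℝ) ^ 3 / 256 ≤ M ∧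
    (n : ℝ) / Real.sqrt M ≤ 16 / s ∧
    (n : ℝ) ^ 2 * Real.exp (-(N0 3 n : ℝ) / 8) ≤ Real.exp (-s) := by
  have h1 : (40000 : ℝ) ≤ n := by exact_mod_cast hn
  have h2 := four_M (le_trans (by norm_num) hn)
  have h3 : 4 * (N0 3 n / 4) ≤ N0 3 n := Nat.mul_div_le _ _
  generalize N0 3 n / 4 = M at h2 h3
  have s1 : 200 ≤ Real.sqrt n := Real.le_sqrt_of_sq_le (by linarith)
  have s2 : Real.sqrt n ^ 2 = n := Real.sq_sqrt (by linarith)
  have h4 : (40000 : ℝ) ^ 2 ≤ (n : ℝ) ^ 2 := pow_le_pow_left₀ (by positivity) h1 2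
  have h5 : 1024 * (n : ℝ) ≤ (n : ℝ) ^ 3 / 256 := by nlinarith
  refine ⟨Real.sqrt n, M, s1, s2, Real.sqrt_le_sqrt ?_, ?_, h3, h2, ?_, ?_⟩
  · rw [div_le_iff₀ (by positivity)]
    nlinarith [Real.pi_gt_three]
  · exact_mod_cast (by linarith : (1 : ℝ) ≤ M)
  · have h6 : n * Real.sqrt n / 16 ≤ Real.sqrt M := Real.le_sqrt_of_sq_le (by
      rw [div_pow, mul_pow, s2]; linarith)
    have h7 : 0 < n * Real.sqrt n / 16 := by positivity
    rw [div_le_div_iff₀ (by linarith) (by linarith)]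
    linarith
  · have h6 : (4 : ℝ) * M ≤ N0 3 n := by exact_mod_cast h3
    have h7 : (n : ℝ) ≤ Real.exp n := by linarith [Real.add_one_le_exp (n : ℝ)]
    refine le_trans (mul_le_mul_of_nonneg_right (pow_le_pow_left₀ (by positivity) h7 2)
      (Real.exp_pos _).le) ?_
    rw [← Real.exp_nat_mul, ← Real.exp_add, Real.exp_le_exp]
    push_cast
    nlinarith

theorem four_low : ∃ c : ℝ, 0 < c ∧ ∃ N : ℕ, ∀ n : ℕ, N ≤ n →
    c * Real.exp (-Real.sqrt (3 * n / (2 * Real.pi))) ≤ PP 3 n := by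
  refine ⟨Real.exp (-400) / 2, by positivity, 40000, fun n hn => ?_⟩
  obtain ⟨s, M, s1, s2, h1, h2, h3, -, h5, h6⟩ := four_facts hn
  have h7 := lam_le (n := n) (by omega)
  have h8 := lam_ge (n := n) (by omega)
  have h9 := Real.sqrt_nonneg (3 * n / (2 * Real.pi))
  generalize Real.sqrt (3 * n / (2 * Real.pi)) = L at h1 h7 h8 h9 ⊢
  have n1 : (40000 : ℝ) ≤ n := by exact_mod_cast hn
  have d1 : 48 / s ≤ 1 / 4 := by rw [div_le_div_iff₀ (by linarith) (by norm_num)]; linarith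
  have d2 : 48 / s * s = 48 := div_mul_cancel₀ _ (by linarith)
  have d3 : 0 ≤ 48 / s := by positivity
  have key := std_low (k := 3) (d := 48 / s) (c := L + 400) (by norm_num) h2 h3 (by
    calc (2 * (n : ℝ) + 3) / Real.sqrt M ≤ 3 * n / Real.sqrt M :=
          div_le_div_of_nonneg_right (by linarith) (Real.sqrt_nonneg _)
      _ = 3 * (n / Real.sqrt M) := mul_div_assoc _ _ _
      _ ≤ 3 * (16 / s) := by linarith
      _ = 48 / s := by ring) d1 (by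
    generalize (n : ℝ) * (n - 1) / 2 * cb ((n - 2).choose 3) = A at h7 h8
    nlinarith [mul_le_mul_of_nonneg_left (show A ≤ s + 4 by linarith) d3]) (by
    have e1 : Real.exp (-s) ≤ 1 := Real.exp_le_one_iff.2 (by linarith)
    have e2 : 0 ≤ (n : ℝ) * Real.exp (-(N0 3 n : ℝ) / 8) := by positivity
    have e3 : 1 + (L + 400) ≤ (n : ℝ) / 2 := by nlinarith
    nlinarith [mul_le_mul_of_nonneg_right e3 e2])
  refine le_trans (le_of_eq ?_) key
  rw [neg_add, Real.exp_add]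
  ring

theorem four_up : ∃ C : ℝ, ∃ N : ℕ, ∀ n : ℕ, N ≤ n →
    PP 3 n ≤ C * Real.exp (-Real.sqrt (3 * n / (2 * Real.pi))) := by
  refine ⟨3 + Real.exp (2 + 1 + 64 + 1280 + 2048 * 256 ^ 2), 40000, fun n hn => ?_⟩
  obtain ⟨s, M, s1, s2, h1, h2, h3, h4, h5, h6⟩ := four_facts hn
  have h7 := lam_le (n := n) (by omega)
  have h8 := lam_ge (n := n) (by omega)
  refine (std_up (k := 3) (by norm_num) (by omega) h2 h3 ⌈s⌉₊).trans ?_
  generalize Real.sqrt (3 * n / (2 * Real.pi)) = L at h1 h7 h8 ⊢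
  have n1 : (40000 : ℝ) ≤ n := by exact_mod_cast hn
  have t1 : s ≤ ⌈s⌉₊ := Nat.le_ceil s
  have t2 : (⌈s⌉₊ : ℝ) ≤ s + 1 := (Nat.ceil_lt_add_one (by linarith)).le
  generalize ⌈s⌉₊ = t at t1 t2 ⊢
  have e0 : Real.exp (-s) ≤ Real.exp (-L) := Real.exp_le_exp.2 (by linarith)
  have e1 : Real.exp (-s) ≤ 1 := Real.exp_le_one_iff.2 (by linarith)
  have e2 := Real.exp_pos (-(N0 3 n : ℝ) / 8)
  generalize Real.exp (-(N0 3 n : ℝ) / 8) = E at h6 e2 ⊢
  have M0 : (0 : ℝ) < M := by exact_mod_cast h2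
  have q0 : 0 ≤ (n : ℝ) / Real.sqrt M := by positivity
  have a1 : n * E ≤ Real.exp (-L) := by nlinarith [mul_pos (show (0 : ℝ) < n by linarith) e2]
  have a2 : n * ((n : ℝ) / Real.sqrt M) ^ t ≤ 2 * Real.exp (-L) := by
    have b1 : 16 / s ≤ Real.exp (-2) := by
      have b2 : Real.exp 2 ≤ 9 := by
        rw [show (2 : ℝ) = 1 + 1 by norm_num, Real.exp_add]
        nlinarith [Real.exp_one_lt_d9, Real.exp_pos 1]
      rw [Real.exp_neg, ← one_div, div_le_div_iff₀ (by linarith) (Real.exp_pos _)]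
      linarith
    have b3 : ((n : ℝ) / Real.sqrt M) ^ t ≤ Real.exp (-s) * Real.exp (-s) := by
      refine (pow_le_pow_left₀ q0 (h5.trans b1) t).trans ?_
      rw [← Real.exp_nat_mul, ← Real.exp_add, Real.exp_le_exp]
      linarith
    have b4 : n * Real.exp (-s) ≤ 2 := by
      have b5 := Real.quadratic_le_exp_of_nonneg (show 0 ≤ s by linarith)
      rw [Real.exp_neg, ← div_eq_mul_inv, div_le_iff₀ (Real.exp_pos _)]
      linarith
    calc n * ((n : ℝ) / Real.sqrt M) ^ t ≤ n * (Real.exp (-s) * Real.exp (-s)) :=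
          mul_le_mul_of_nonneg_left b3 (by linarith)
      _ = n * Real.exp (-s) * Real.exp (-s) := by ring
      _ ≤ 2 * Real.exp (-L) := mul_le_mul b4 e0 (Real.exp_pos _).le (by norm_num)
  have c1 : 2 * n * cb ((n - 2).choose 3) ≤ 2 := by
    generalize cb ((n - 2).choose 3) = b at h7
    have b1 : (n * b) * ((n - 1) / 2) ≤ 1 * (((n : ℝ) - 1) / 2) := by nlinarith
    have b2 := le_of_mul_le_mul_right b1 (by linarith)
    linarith
  have c2 : 2 * t * n / Real.sqrt M ≤ 64 := by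
    have b1 : 16 / s * s = 16 := div_mul_cancel₀ _ (by linarith)
    have b2 : (t : ℝ) * (n / Real.sqrt M) ≤ 2 * s * (16 / s) :=
      mul_le_mul (by linarith) h5 q0 (by linarith)
    rw [mul_div_assoc]
    linarith
  have c3 : (n : ℝ) ^ 3 / M ≤ 256 := by rw [div_le_iff₀ M0]; linarith
  have c4 : 128 * (((3 : ℕ) : ℝ) + 1) ^ 2 * (n : ℝ) ^ (3 + 3) / (M : ℝ) ^ 2 ≤ 2048 * 256 ^ 2 :=
    calc _ = 2048 * ((n : ℝ) ^ 3 / M) ^ 2 := by push_cast; ring
      _ ≤ 2048 * 256 ^ 2 :=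
        mul_le_mul_of_nonneg_left (pow_le_pow_left₀ (by positivity) c3 2) (by norm_num)
  have c5 : 5 * (n : ℝ) ^ 3 / M ≤ 1280 := by rw [mul_div_assoc]; linarith
  rw [add_mul, ← Real.exp_add]
  refine add_le_add (by linarith) (Real.exp_le_exp.2 ?_)
  linarith

end Pool.Agent.Lib.MP_bd7745_co
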