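import Pool.Agent.Lib.MP_bd7745_co.Sys

/-! Paired vertices of a uniform hypergraph and the swap coins. Edges have `k + 1` vertices. -/

set_option autoImplicit false

noncomputable section

namespace Pool.Agent.Lib.MP_bd7745_co

open Finset

/-- Vertices paired into units, each unit on one of two sides. -/
structure Pr (V I : Type*) where
  /-- the two vertices of a unit -/
  e : I × Bool → V
  /-- the side of a unit -/
  side : I → Bool
  inj : Function.Injective e

variable {V I : Type*} [Fintype V] [DecidableEq V] [Fintype I] [DecidableEq I]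

/-- All possible edges. -/
def UU (V : Type*) [Fintype V] (k : ℕ) : Finset (Finset V) := univ.powersetCard (k + 1)

/-- Degree of a vertex. -/
def deg (H : Finset (Finset V)) (u : V) : ℕ := cnt H fun s => u ∈ s

/-- All degrees are different. -/
def Irr (H : Finset (Finset V)) : Prop := ∀ u w : V, u ≠ w → deg H u ≠ deg H w

namespace Pr

variable (P : Pr V I)

/-- Vertices of the units of the other side. -/
def A (i : I) : Finset V := (univ.filter fun v : I × Bool => P.side v.1 ≠ P.side i).image P.e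

/-- The coins of unit `i`. -/
def F (k : ℕ) (i : I) : Finset (Finset V) := (P.A i).powersetCard k

/-- The edge made of a vertex and a coin. -/
def ed (v : I × Bool) (S : Finset V) : Finset V := insert (P.e v) S

/-- Exactly one of the two edges of the coin is present. -/
def ac (i : I) (S : Finset V) (H : Finset (Finset V)) : Prop :=
  ¬ (P.ed (i, true) S ∈ H ↔ P.ed (i, false) S ∈ H)

/-- Number of active coins. -/
def MM (k : ℕ) (H : Finset (Finset V)) (i : I) : ℕ := cnt (P.F k i) fun S => P.ac i S H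

/-- Number of active coins that point to the first vertex. -/
def XX (k : ℕ) (H : Finset (Finset V)) (i : I) : ℕ :=
  cnt (P.F k i) fun S => P.ac i S H ∧ P.ed (i, true) S ∈ H

/-- Degree without the coins. -/
def BB (k : ℕ) (H : Finset (Finset V)) (v : I × Bool) : ℤ :=
  (deg H (P.e v) : ℤ) - eps v.2 * (P.XX k H v.1 : ℤ)

/-- Degrees of the vertices outside all units. -/
def ZZ (H : Finset (Finset V)) : Finset ℤ :=
  (univ \ univ.image P.e).image fun z => (deg H z : ℤ)

theorem val_BB (k : ℕ) (H : Finset (Finset V)) (v : I × Bool) :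
    val (P.BB k H) v (P.XX k H) = (deg H (P.e v) : ℤ) := by
  unfold val BB; ring

theorem BB_add (k : ℕ) (H : Finset (Finset V)) (v : I × Bool) :
    P.BB k H v + P.BB k H (pt v) = (deg H (P.e (v.1, true)) : ℤ) + deg H (P.e (v.1, false)) := by
  obtain ⟨i, c⟩ := v
  cases c <;> simp [BB, pt, eps] <;> ring

theorem mem_A {i : I} {u : V} : u ∈ P.A i ↔ ∃ v : I × Bool, P.side v.1 ≠ P.side i ∧ P.e v = u := by
  simp only [A, mem_image, mem_filter, mem_univ, true_and]

theorem e_mem_A {i : I} {v : I × Bool} : P.e v ∈ P.A i ↔ P.side v.1 ≠ P.side i := by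
  rw [mem_A]
  exact ⟨fun ⟨w, h1, h2⟩ => P.inj h2 ▸ h1, fun h => ⟨v, h, rfl⟩⟩

theorem card_F (k : ℕ) (i : I) :
    (P.F k i).card = (2 * cnt univ fun j : I => P.side j ≠ P.side i).choose k := by
  have e : (univ.filter fun v : I × Bool => P.side v.1 ≠ P.side i) =
      (univ.filter fun j : I => P.side j ≠ P.side i) ×ˢ univ := by
    ext v
    simp
  rw [F, card_powersetCard, A, card_image_of_injective _ P.inj, e, card_product, cnt_eq, card_univ,
    Fintype.card_bool, mul_comm]

theorem hy_not {k : ℕ} {v w : I × Bool} {S : Finset V} (hS : S ∈ P.F k v.1)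
    (h : P.side w.1 = P.side v.1) : P.e w ∉ S :=
  fun m => P.e_mem_A.1 ((mem_powersetCard.1 hS).1 m) h

theorem ed_mem_UU {k : ℕ} {v : I × Bool} {S : Finset V} (hS : S ∈ P.F k v.1) :
    P.ed v S ∈ UU V k := by
  refine mem_powersetCard.2 ⟨subset_univ _, ?_⟩
  rw [ed, card_insert_of_notMem (P.hy_not hS rfl), (mem_powersetCard.1 hS).2]

/-- The edge determines the vertex and the coin. -/
theorem ed_inj {k : ℕ} (hk : 2 ≤ k) {v w : I × Bool} {S T : Finset V} (hS : S ∈ P.F k v.1)
    (hT : T ∈ P.F k w.1) (h : P.ed v S = P.ed w T) : v = w ∧ S = T := by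
  have hs : P.side v.1 = P.side w.1 := by
    by_contra c
    obtain ⟨u, u1, u2⟩ := exists_mem_ne (s := S) (by rw [(mem_powersetCard.1 hS).2]; omega) (P.e w)
    have u3 : u ∈ P.ed w T := h ▸ mem_insert_of_mem u1
    obtain ⟨x, x1, rfl⟩ := P.mem_A.1 ((mem_powersetCard.1 hS).1 u1)
    have x2 := P.e_mem_A.1 ((mem_powersetCard.1 hT).1 ((mem_insert.1 u3).resolve_left u2))
    revert c x1 x2
    cases P.side v.1 <;> cases P.side w.1 <;> cases P.side x.1 <;> simp
  have m : P.e v ∈ P.ed w T := h ▸ mem_insert_self _ _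
  obtain rfl : v = w := P.inj ((mem_insert.1 m).resolve_right (P.hy_not hT hs))
  refine ⟨rfl, ?_⟩
  rw [← erase_insert (P.hy_not hS rfl), ← erase_insert (P.hy_not hT rfl)]
  exact congrArg (fun x => erase x (P.e v)) h

omit [Fintype V] in
theorem hy_deg {a b : Finset V} (hab : a ≠ b) (H : Finset (Finset V)) (u : V) :
    (deg (swp a b H) u : ℝ) =
      deg H u + (ind (a ∈ H) - ind (b ∈ H)) * (ind (u ∈ b) - ind (u ∈ a)) := by
  have e : ∀ s ∈ H, ind (u ∈ Equiv.swap a b s) = ind (u ∈ s) +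
      ((if s = a then ind (u ∈ b) - ind (u ∈ a) else 0) -
        if s = b then ind (u ∈ b) - ind (u ∈ a) else 0) := fun s _ => by
    by_cases h1 : s = a
    · subst h1
      simp [hab]
    by_cases h2 : s = b
    · subst h2
      simp [h1]
    simp [Equiv.swap_apply_of_ne_of_ne h1 h2, h1, h2]
  rw [deg, deg, cnt_cast, cnt_cast, swp, sum_image (Equiv.swap a b).injective.injOn,
    sum_congr rfl e, sum_add_distrib, sum_sub_distrib, sum_ite_eq', sum_ite_eq']
  by_cases h1 : a ∈ H <;> by_cases h2 : b ∈ H <;> simp [ind, h1, h2]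

/-- The swap of the two edges of a coin. -/
def sw (i : I) (S : Finset V) (H : Finset (Finset V)) : Finset (Finset V) :=
  swp (P.ed (i, true) S) (P.ed (i, false) S) H

/-- Everything except the directions of the active coins. -/
def dat (k : ℕ) (H : Finset (Finset V)) : (I → ℕ) × (I × Bool → ℤ) × Finset ℤ :=
  (P.MM k H, P.BB k H, P.ZZ H)

section Swap

variable {k : ℕ} (hk : 2 ≤ k) {i : I} {S : Finset V} (hS : S ∈ P.F k i) (H : Finset (Finset V))

include hk hS

theorem hy_other {j : I} {T : Finset V} (hT : T ∈ P.F k j) (h : ¬ (j = i ∧ T = S)) (c : Bool) :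
    P.ed (j, c) T ∈ P.sw i S H ↔ P.ed (j, c) T ∈ H := by
  have k1 : ∀ c', P.ed (j, c) T ≠ P.ed (i, c') S := fun c' e => by
    have := P.ed_inj hk (v := (j, c)) (w := (i, c')) hT hS e
    exact h ⟨congrArg Prod.fst this.1, this.2⟩
  rw [sw, mem_swp, Equiv.swap_apply_of_ne_of_ne (k1 _) (k1 _)]

omit hk hS [Fintype V] [Fintype I] [DecidableEq I] in
theorem hy_true : P.ed (i, true) S ∈ P.sw i S H ↔ P.ed (i, false) S ∈ H := by
  rw [sw, mem_swp, Equiv.swap_apply_left]

omit hk hS [Fintype V] [Fintype I] [DecidableEq I] in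
theorem hy_false : P.ed (i, false) S ∈ P.sw i S H ↔ P.ed (i, true) S ∈ H := by
  rw [sw, mem_swp, Equiv.swap_apply_right]

theorem hy_ac {j : I} {T : Finset V} (hT : T ∈ P.F k j) : P.ac j T (P.sw i S H) ↔ P.ac j T H := by
  unfold ac
  by_cases h : j = i ∧ T = S
  · obtain ⟨rfl, rfl⟩ := h
    rw [hy_true, hy_false]
    exact not_congr Iff.comm
  · rw [P.hy_other hk hS H hT h, P.hy_other hk hS H hT h]

theorem hy_MM : P.MM k (P.sw i S H) = P.MM k H :=
  funext fun _ => cnt_congr fun _ hT => P.hy_ac hk hS H hT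

theorem hy_XX {j : I} (h : j ≠ i) : P.XX k (P.sw i S H) j = P.XX k H j :=
  cnt_congr fun _ hT => and_congr (P.hy_ac hk hS H hT) (P.hy_other hk hS H hT (fun c => h c.1) _)

theorem hy_XXi : (P.XX k (P.sw i S H) i : ℝ) =
    P.XX k H i - (ind (P.ed (i, true) S ∈ H) - ind (P.ed (i, false) S ∈ H)) := by
  have e : ∀ T ∈ (P.F k i).erase S, ind (P.ac i T (P.sw i S H) ∧ P.ed (i, true) T ∈ P.sw i S H) =
      ind (P.ac i T H ∧ P.ed (i, true) T ∈ H) := fun T hT => ind_congr (and_congr
    (P.hy_ac hk hS H (mem_of_mem_erase hT)) (P.hy_other hk hS H (mem_of_mem_erase hT)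
      (fun c => ne_of_mem_erase hT c.2) _))
  rw [XX, XX, cnt_cast, cnt_cast, ← add_sum_erase _ _ hS, ← add_sum_erase _ _ hS, sum_congr rfl e,
    P.hy_ac hk hS H hS, hy_true, ac]
  by_cases h1 : P.ed (i, true) S ∈ H <;> by_cases h2 : P.ed (i, false) S ∈ H <;>
    simp [ind, h1, h2] <;> ring

theorem hy_ne : P.ed (i, true) S ≠ P.ed (i, false) S := fun e => by
  simpa using (P.ed_inj hk (v := (i, true)) (w := (i, false)) hS hS e).1

theorem hy_out {u : V} (h : ∀ c, u ≠ P.e (i, c)) : deg (P.sw i S H) u = deg H u := by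
  have := hy_deg (P.hy_ne hk hS) H u
  rw [show ind (u ∈ P.ed (i, false) S) = ind (u ∈ P.ed (i, true) S) from
    ind_congr (by simp [ed, h]), sub_self, mul_zero, add_zero] at this
  exact_mod_cast this

theorem hy_BB : P.BB k (P.sw i S H) = P.BB k H := by
  funext ⟨j, c⟩
  by_cases h : j = i
  · subst h
    have h1 := hy_deg (P.hy_ne hk hS) H (P.e (j, c))
    have h2 := P.hy_XXi hk hS H
    have h3 : P.e (j, c) ∉ S := P.hy_not (v := (j, c)) hS rfl
    have h4 : ind (P.e (j, c) ∈ P.ed (j, false) S) - ind (P.e (j, c) ∈ P.ed (j, true) S) =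
        -(eps c : ℝ) := by
      cases c <;> simp [ind, ed, h3, P.inj.eq_iff, eps]
    have : (P.BB k (P.sw j S H) (j, c) : ℝ) = P.BB k H (j, c) := by
      simp only [BB]
      push_cast
      rw [h2, sw, h1, h4]
      ring
    exact_mod_cast this
  · simp only [BB]
    rw [P.hy_XX hk hS H h, P.hy_out hk hS H fun c' e => h (congrArg Prod.fst (P.inj e))]

theorem hy_dat : P.dat k (P.sw i S H) = P.dat k H := by
  have : P.ZZ (P.sw i S H) = P.ZZ H := image_congr fun z hz => by
    have hz' := (mem_sdiff.1 (mem_coe.1 hz)).2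
    rw [P.hy_out hk hS H fun c e => hz' (mem_image.2 ⟨_, mem_univ _, e.symm⟩)]
  rw [dat, dat, P.hy_MM hk hS, P.hy_BB hk hS, this]

end Swap

/-- The system of the hypergraphs with given data. -/
def sys {k : ℕ} (hk : 2 ≤ k) (d : (I → ℕ) × (I × Bool → ℤ) × Finset ℤ) : Sys I where
  E :=
    { toFun := fun f => av (UU V k) fun H => ind (P.dat k H = d) * f (P.XX k H)
      map_add' := fun f g => by simp only [Pi.add_apply, mul_add, av_add]
      map_smul' := fun c f => by
        simp only [Pi.smul_apply, smul_eq_mul, RingHom.id_apply, mul_left_comm _ c, av_mul] }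
  M := d.1
  B := d.2.1
  mono := fun f g h => av_mono _ fun H _ => mul_le_mul_of_nonneg_left (h _) (ind_nonneg _)
  res := fun i f => by
    have := bin_rep (UU V k) (P.F k i) (P.sw i) (P.ac i) (fun S H => P.ed (i, true) S ∈ H)
      (fun S hS => av_swp _ (P.ed_mem_UU (v := (i, true)) hS) (P.ed_mem_UU (v := (i, false)) hS))
      (fun T hT S hS H => P.hy_ac hk hS H hT)
      (fun T hT S hS h H => P.hy_other hk hS H hT (fun c => h c.2) _)
      (fun S _ H h => by
        rw [hy_true]
        unfold ac at h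
        tauto)
      (fun H a => ind (P.dat k H = d) * f (Function.update (P.XX k H) i a))
      (fun S hS H => funext fun a => by
        rw [P.hy_dat hk hS]
        congr 2
        funext j
        by_cases h : j = i
        · simp [h]
        · simp [h, P.hy_XX hk hS H h])
    refine (av_congr _ fun H _ => ?_).trans (this.trans (av_congr _ fun H _ => ?_))
    · exact congrArg (fun X => ind (P.dat k H = d) * f X) (Function.update_eq_self i _).symm
    · by_cases h : P.dat k H = d
      · subst h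
        rw [mul_sum]
        exact sum_congr rfl fun a _ => mul_left_comm _ _ _
      · simp [ind_false h]

theorem hy_split {k : ℕ} (G : (I → ℕ) × (I × Bool → ℤ) × Finset ℤ → Finset (Finset V) → ℝ) :
    av (UU V k) (fun H => G (P.dat k H) H) = ∑ d ∈ (UU V k).powerset.image (P.dat k),
      av (UU V k) fun H => ind (P.dat k H = d) * G d H := by
  rw [← av_sum]
  refine av_congr _ fun H hH => ?_
  rw [sum_eq_single_of_mem (P.dat k H) (mem_image_of_mem _ (mem_powerset.2 hH)), ind_true rfl,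
    one_mul]
  intro d _ hd
  rw [ind_false hd.symm, zero_mul]

/-- Conditioning on everything except the directions of the active coins. -/
theorem cond {k : ℕ} (hk : 2 ≤ k)
    (Φ : (I → ℕ) → (I × Bool → ℤ) → Finset ℤ → (I → ℕ) → ℝ)
    (Ψ : (I → ℕ) → (I × Bool → ℤ) → Finset ℤ → ℝ)
    (h : ∀ (Y : Sys I) (Z : Finset ℤ), Y.E (Φ Y.M Y.B Z) ≤ Ψ Y.M Y.B Z * Y.E fun _ => 1) :
    av (UU V k) (fun H => Φ (P.MM k H) (P.BB k H) (P.ZZ H) (P.XX k H)) ≤
      av (UU V k) fun H => Ψ (P.MM k H) (P.BB k H) (P.ZZ H) := by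
  refine (P.hy_split fun d H => Φ d.1 d.2.1 d.2.2 (P.XX k H)).trans_le
    (le_trans (sum_le_sum fun d _ => ?_) (P.hy_split fun d _ => Ψ d.1 d.2.1 d.2.2).ge)
  refine (h (P.sys hk d) d.2.2).trans_eq ((av_mul _ _ _).symm.trans (av_congr _ fun H _ => ?_))
  change Ψ d.1 d.2.1 d.2.2 * (_ * 1) = _
  ring

theorem cond' {k : ℕ} (hk : 2 ≤ k)
    (Φ : (I → ℕ) → (I × Bool → ℤ) → Finset ℤ → (I → ℕ) → ℝ)
    (Ψ : (I → ℕ) → (I × Bool → ℤ) → Finset ℤ → ℝ)
    (h : ∀ (Y : Sys I) (Z : Finset ℤ), (Ψ Y.M Y.B Z * Y.E fun _ => 1) ≤ Y.E (Φ Y.M Y.B Z)) :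
    (av (UU V k) fun H => Ψ (P.MM k H) (P.BB k H) (P.ZZ H)) ≤
      av (UU V k) (fun H => Φ (P.MM k H) (P.BB k H) (P.ZZ H) (P.XX k H)) := by
  have h1 := P.cond hk (fun M B Z X => -Φ M B Z X) (fun M B Z => -Ψ M B Z) fun Y Z => by
    have h2 := h Y Z
    have h3 : Y.E (fun X => -Φ Y.M Y.B Z X) = -Y.E (Φ Y.M Y.B Z) := map_neg Y.E _
    rw [h3]
    linarith
  rw [av_neg, av_neg] at h1
  linarith

end Pr

end Pool.Agent.Lib.MP_bd7745_co
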