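import Pool.Agent.Lib.MP_bd7745_co.Hyp

/-! Three laws obtained by changing the membership of single edges. -/

set_option autoImplicit false

noncomputable section

namespace Pool.Agent.Lib.MP_bd7745_co

open Finset

variable {V I : Type*} [Fintype V] [DecidableEq V] [Fintype I] [DecidableEq I]

theorem laws_rep {ι κ : Type*} [DecidableEq ι] (U : Finset ι) (s : Finset κ) (ε : κ → ι)
    (hε : ∀ j ∈ s, ε j ∈ U) (sg : κ → Finset ι → Prop)
    (hsg : ∀ i ∈ s, ∀ j ∈ s, i ≠ j → ∀ H, sg i (flp (ε j) H) ↔ sg i H)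
    (hfl : ∀ j ∈ s, ∀ H, sg j (flp (ε j) H) ↔ ¬ sg j H)
    (G : Finset ι → ℕ → ℝ) (hG : ∀ j ∈ s, ∀ H, G (flp (ε j) H) = G H) :
    av U (fun H => G H (cnt s fun j => sg j H)) =
      av U fun H => ∑ k ∈ range (s.card + 1), bin s.card k * G H k := by
  have h := bin_rep U s (fun j => flp (ε j)) (fun _ _ => True) sg
    (fun j hj f => av_flp U (hε j hj) f) (fun _ _ _ _ _ => Iff.rfl) hsg
    (fun j hj H _ => hfl j hj H) G hG
  have e : cnt s (fun _ => True) = s.card := by rw [cnt_eq, filter_true]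
  simpa only [true_and, e] using h

theorem laws_cnt (k : ℕ) {u w : V} (huw : u ≠ w) :
    cnt (UU V k) (fun e => w ∈ e ∧ u ∉ e) = (Fintype.card V - 2).choose k := by
  have h1 : ((univ.erase u).erase w : Finset V).card = Fintype.card V - 2 := by
    rw [card_erase_of_mem (by simp [huw.symm]), card_erase_of_mem (mem_univ _), card_univ]
    omega
  rw [cnt_eq, ← h1, ← card_powersetCard]
  refine card_nbij' (fun e => e.erase w) (fun e => insert w e) (fun e he => ?_) (fun e he => ?_)
    (fun e he => ?_) fun e he => ?_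
  · simp only [UU, coe_filter, mem_powersetCard, Set.mem_ofPred_eq] at he
    rw [mem_coe, mem_powersetCard, card_erase_of_mem he.2.1, he.1.2]
    refine ⟨fun x hx => ?_, rfl⟩
    rw [mem_erase] at hx
    exact mem_erase.2 ⟨hx.1, mem_erase.2 ⟨fun e => he.2.2 (e ▸ hx.2), mem_univ _⟩⟩
  · rw [mem_coe, mem_powersetCard] at he
    have h2 : w ∉ e := fun h => (mem_erase.1 (he.1 h)).1 rfl
    have h3 : u ∉ e := fun h => (mem_erase.1 (mem_erase.1 (he.1 h)).2).1 rfl
    simp only [UU, coe_filter, mem_powersetCard, Set.mem_ofPred_eq]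
    exact ⟨⟨subset_univ _, by rw [card_insert_of_notMem h2, he.2]⟩, mem_insert_self _ _,
      fun h => (mem_insert.1 h).elim huw h3⟩
  · simp only [coe_filter, Set.mem_ofPred_eq] at he
    exact insert_erase he.2.1
  · rw [mem_coe, mem_powersetCard] at he
    exact erase_insert fun h => (mem_erase.1 (he.1 h)).1 rfl

omit [Fintype V] [DecidableEq V] in
theorem laws_deg {U H : Finset (Finset V)} (h : H ⊆ U) (u : V) :
    (deg H u : ℝ) = ∑ e ∈ U, ind (e ∈ H) * ind (u ∈ e) := by
  rw [deg, cnt_cast, ← sum_subset h fun e _ he => by rw [ind_false he, zero_mul]]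
  exact sum_congr rfl fun e he => by rw [ind_true he, one_mul]

theorem law_deg (k : ℕ) {u w : V} (huw : u ≠ w) :
    av (UU V k) (fun H => ind (deg H u = deg H w)) = cb ((Fintype.card V - 2).choose k) := by
  set K := (Fintype.card V - 2).choose k
  set s := (UU V k).filter fun e => ¬ (u ∈ e ↔ w ∈ e) with hs
  have h1 := congrArg (Nat.cast : ℕ → ℝ) (laws_cnt k huw)
  have h2 := congrArg (Nat.cast : ℕ → ℝ) (laws_cnt k huw.symm)
  rw [cnt_cast] at h1 h2
  have h3 : ∀ p : Finset V → Prop, (cnt s p : ℝ) =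
      ∑ e ∈ UU V k, ind (¬ (u ∈ e ↔ w ∈ e)) * ind (p e) := fun p => by
    rw [cnt_cast, hs, sum_filter]
    refine sum_congr rfl fun e _ => ?_
    split_ifs with h
    · rw [ind_false (not_not.2 h), zero_mul]
    · rw [ind_true h, one_mul]
  have h4 : s.card = 2 * K := by
    have h5 := h3 fun _ => True
    rw [cnt_eq, filter_true] at h5
    have h6 : (s.card : ℝ) = 2 * K := by
      rw [h5, two_mul]
      nth_rewrite 1 [← h1]
      rw [← h2, ← sum_add_distrib]
      refine sum_congr rfl fun e _ => ?_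
      by_cases a : u ∈ e <;> by_cases b : w ∈ e <;> simp [ind, a, b]
    exact_mod_cast h6
  have h7 := laws_rep (UU V k) s id (fun e he => (mem_filter.1 he).1)
    (fun e H => e ∈ H ↔ u ∈ e) (fun a _ b _ hab H => by simp [mem_flp, hab])
    (fun a _ H => by simp only [mem_flp, id, if_true]; tauto) (fun _ c => ind (c = K))
    fun _ _ _ => rfl
  rw [av_const, h4] at h7
  refine (av_congr _ fun H hH => ind_congr ?_).trans (h7.trans ?_)
  · have h8 : (cnt s (fun e => e ∈ H ↔ u ∈ e) : ℝ) = K + deg H u - deg H w := by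
      rw [h3, ← h1, laws_deg hH, laws_deg hH, ← sum_add_distrib, ← sum_sub_distrib]
      refine sum_congr rfl fun e _ => ?_
      by_cases a : u ∈ e <;> by_cases b : w ∈ e <;> by_cases c : e ∈ H <;> simp [ind, a, b, c]
    rw [← Nat.cast_inj (R := ℝ), ← Nat.cast_inj (R := ℝ) (n := K), h8]
    constructor <;> intro h <;> linarith
  · rw [sum_eq_single K (fun c _ hc => by rw [ind_false hc, mul_zero])
      fun h => absurd (mem_range.2 (by omega)) h, ind_true rfl, mul_one, cb]

namespace Pr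

variable (P : Pr V I)

theorem law_M {k : ℕ} (hk : 2 ≤ k) (i : I) {M0 N0 : ℕ} (h4 : 4 * M0 ≤ N0)
    (hN : N0 ≤ (P.F k i).card) :
    av (UU V k) (fun H => ind (P.MM k H i < M0)) ≤ Real.exp (-(N0 : ℝ) / 8) := by
  have h1 : ∀ c, ∀ S ∈ P.F k i, ∀ T ∈ P.F k i, S ≠ T → P.ed (i, c) S ≠ P.ed (i, true) T :=
    fun c S hS T hT hne e => hne (P.ed_inj hk (v := (i, c)) (w := (i, true)) hS hT e).2
  have h2 : ∀ S ∈ P.F k i, P.ed (i, false) S ≠ P.ed (i, true) S := fun S hS e => by
    simpa using (P.ed_inj hk (v := (i, false)) (w := (i, true)) hS hS e).1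
  have h := laws_rep (UU V k) (P.F k i) (P.ed (i, true))
    (fun S hS => P.ed_mem_UU (v := (i, true)) hS) (P.ac i)
    (fun S hS T hT hne H => by simp only [ac, mem_flp, if_neg (h1 _ S hS T hT hne)])
    (fun S hS H => by simp only [ac, mem_flp, if_true, if_neg (h2 S hS)]; tauto)
    (fun _ c => ind (c < M0)) fun _ _ _ => rfl
  rw [av_const] at h
  refine (h.le.trans (bin_tail (h4.trans hN))).trans (Real.exp_le_exp.2 ?_)
  have : (N0 : ℝ) ≤ (P.F k i).card := by exact_mod_cast hN
  linarith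

theorem law_good {k : ℕ} (hk : 2 ≤ k) {M0 N0 : ℕ} (h4 : 4 * M0 ≤ N0)
    (hN : ∀ i, N0 ≤ (P.F k i).card) :
    av (UU V k) (fun H => ind (¬ ∀ i, M0 ≤ P.MM k H i)) ≤
      Fintype.card I * Real.exp (-(N0 : ℝ) / 8) := by
  refine (av_mono _ (g := fun H => ∑ i, ind (P.MM k H i < M0)) fun H _ => ?_).trans ?_
  · by_cases h : ∀ i, M0 ≤ P.MM k H i
    · rw [ind_false (not_not.2 h)]
      exact sum_nonneg fun _ _ => ind_nonneg _
    · rw [ind_true h]
      obtain ⟨i, hi⟩ := not_forall.1 h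
      exact (ind_true (not_le.1 hi)).ge.trans
        (single_le_sum (f := fun i => ind (P.MM k H i < M0)) (fun _ _ => ind_nonneg _) (mem_univ i))
  · rw [av_sum]
    refine (sum_le_card_nsmul _ _ _ fun i _ => P.law_M hk i h4 (hN i)).trans_eq ?_
    rw [card_univ, nsmul_eq_mul]

theorem law_qq {k : ℕ} (hk : 2 ≤ k) {v w : I × Bool} (hvw : v.1 ≠ w.1) :
    av (UU V k) (fun H => qq (P.MM k H) (P.BB k H) v w) =
      cb ((Fintype.card V - 2).choose k) := by
  have h : ∀ Y : Sys I, Y.E (fun X => ind (val Y.B v X = val Y.B w X)) =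
      qq Y.M Y.B v w * Y.E fun _ => 1 := fun Y => by
    simpa only [one_mul] using Y.pair hvw (fun _ => 1) (fun _ _ => rfl) fun _ _ => rfl
  have h1 := P.cond hk (fun _ B _ X => ind (val B v X = val B w X)) (fun M B _ => qq M B v w)
    fun Y _ => (h Y).le
  have h2 := P.cond' hk (fun _ B _ X => ind (val B v X = val B w X)) (fun M B _ => qq M B v w)
    fun Y _ => (h Y).ge
  rw [le_antisymm h2 h1, ← law_deg k fun e => hvw (congrArg Prod.fst (P.inj e))]
  simp only [val_BB, Nat.cast_inj]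

end Pr

end Pool.Agent.Lib.MP_bd7745_co
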