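import Pool.Agent.Lib.MP_bd7745_co.Laws

/-! A Lipschitz minorant of the mean number of coincidences. -/

set_option autoImplicit false

noncomputable section

namespace Pool.Agent.Lib.MP_bd7745_co

open Finset

variable {V I : Type*} [Fintype V] [DecidableEq V] [Fintype I] [DecidableEq I]

/-- Number of ordered pairs of `S` in different units. -/
def cr (S : Finset (I × Bool)) : ℝ := ∑ v ∈ S, ∑ w ∈ S, ind (v.1 ≠ w.1)

theorem lip_cnt {κ : Type*} (F : Finset κ) (Q Q' : κ → Prop) (R : Prop)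
    (h1 : ∀ a ∈ F, ¬ (Q a ↔ Q' a) → R)
    (h2 : ∀ a ∈ F, ∀ b ∈ F, ¬ (Q a ↔ Q' a) → ¬ (Q b ↔ Q' b) → a = b) :
    |(cnt F Q : ℝ) - cnt F Q'| ≤ ind R := by
  rw [cnt_cast, cnt_cast, ← sum_sub_distrib]
  by_cases h : ∃ a ∈ F, ¬ (Q a ↔ Q' a)
  · obtain ⟨a, ha, h⟩ := h
    rw [sum_eq_single_of_mem a ha fun b hb hne => sub_eq_zero.2
      (ind_congr (by_contra fun c => hne (h2 b hb a ha c h))), ind_true (h1 a ha h), abs_le]
    constructor <;> linarith [ind_nonneg (Q a), ind_le_one (Q a), ind_nonneg (Q' a),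
      ind_le_one (Q' a)]
  · rw [sum_eq_zero fun b hb => sub_eq_zero.2 (ind_congr (by_contra fun c => h ⟨b, hb, c⟩)),
      abs_zero]
    exact ind_nonneg _

omit [Fintype V] in
theorem lip_flp {s t : Finset V} (H : Finset (Finset V)) (h : t ≠ s) : t ∈ flp s H ↔ t ∈ H := by
  rw [mem_flp, if_neg h]

theorem lip_deg (s : Finset V) (H : Finset (Finset V)) (u : V) :
    |(deg (flp s H) u : ℝ) - deg H u| ≤ ind (u ∈ s) := by
  have e : ∀ G : Finset (Finset V), deg G u = cnt univ fun t => t ∈ G ∧ u ∈ t := fun G => by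
    rw [deg, cnt_eq, cnt_eq]
    congr 1
    ext t
    simp
  have k : ∀ t, ¬ (t ∈ flp s H ∧ u ∈ t ↔ t ∈ H ∧ u ∈ t) → t = s := fun t c =>
    by_contra fun h => c (by rw [lip_flp H h])
  rw [e, e]
  refine lip_cnt _ _ _ _ (fun t _ c => ?_) fun a _ b _ ca cb => (k a ca).trans (k b cb).symm
  obtain rfl := k t c
  exact by_contra fun h => c (by simp [h])

namespace Pr

variable (P : Pr V I)

theorem lip_coin {k : ℕ} (hk : 2 ≤ k) (s : Finset V) (i : I) (Q Q' : Finset V → Prop)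
    (h : ∀ S, (∀ c, P.ed (i, c) S ≠ s) → (Q S ↔ Q' S)) :
    |(cnt (P.F k i) Q : ℝ) - cnt (P.F k i) Q'| ≤ ind (∃ c, P.e (i, c) ∈ s) := by
  have k1 : ∀ S, ¬ (Q S ↔ Q' S) → ∃ c, P.ed (i, c) S = s := fun S c =>
    by_contra fun n => c (h S fun d e => n ⟨d, e⟩)
  refine lip_cnt _ _ _ _ (fun S _ c => ?_) fun S hS T hT cS cT => ?_
  · obtain ⟨d, e⟩ := k1 S c
    exact ⟨d, e ▸ mem_insert_self _ _⟩
  · obtain ⟨d, e⟩ := k1 S cS
    obtain ⟨d', e'⟩ := k1 T cT
    exact (P.ed_inj hk (v := (i, d)) (w := (i, d')) hS hT (e.trans e'.symm)).2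

theorem lip_MM {k : ℕ} (hk : 2 ≤ k) (s : Finset V) (H : Finset (Finset V)) (i : I) :
    |(P.MM k (flp s H) i : ℝ) - P.MM k H i| ≤ ind (∃ c, P.e (i, c) ∈ s) :=
  P.lip_coin hk s i _ _ fun S h => by rw [ac, ac, lip_flp H (h _), lip_flp H (h _)]

theorem lip_BB {k : ℕ} (hk : 2 ≤ k) (s : Finset V) (H : Finset (Finset V)) (v : I × Bool) :
    |(P.BB k (flp s H) v : ℝ) - P.BB k H v| ≤ 2 * ind (∃ c, P.e (v.1, c) ∈ s) := by
  have h1 : |(P.XX k (flp s H) v.1 : ℝ) - P.XX k H v.1| ≤ ind (∃ c, P.e (v.1, c) ∈ s) :=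
    P.lip_coin hk s v.1 _ _ fun S h => by rw [ac, ac, lip_flp H (h _), lip_flp H (h _)]
  have h2 := (lip_deg s H (P.e v)).trans
    (ind_mono (q := ∃ c, P.e (v.1, c) ∈ s) fun h => ⟨v.2, h⟩)
  rw [abs_le] at h1 h2 ⊢
  simp only [BB, eps]
  split_ifs <;> push_cast <;> constructor <;> linarith [h1.1, h1.2, h2.1, h2.2]

omit [Fintype V] [Fintype I] [DecidableEq I] in
theorem lip_meet (s : Finset V) (S : Finset (I × Bool)) :
    ∑ v ∈ S, ind (∃ c, P.e (v.1, c) ∈ s) ≤ 2 * s.card := by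
  have h1 : ∀ f : I × Bool → V, Function.Injective f → ∑ v ∈ S, ind (f v ∈ s) ≤ s.card := by
    intro f hf
    rw [← cnt_cast, cnt_eq, Nat.cast_le]
    exact card_le_card_of_injOn f (fun v hv => (mem_filter.1 (mem_coe.1 hv)).2) hf.injOn
  have h2 : Function.Injective (pt : I × Bool → I × Bool) := fun v w e => by
    simpa [pt, Prod.ext_iff] using e
  have h3 := h1 _ P.inj
  have h4 := h1 _ (P.inj.comp h2)
  refine le_trans (sum_le_sum (g := fun v => ind (P.e v ∈ s) + ind (P.e (pt v) ∈ s))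
    fun v _ => ?_) (by rw [sum_add_distrib]; exact (add_le_add h3 h4).trans_eq (by ring))
  by_cases h : ∃ c, P.e (v.1, c) ∈ s
  · obtain ⟨c, hc⟩ := h
    have h5 := ind_le_one (∃ c, P.e (v.1, c) ∈ s)
    have h6 := ind_nonneg (P.e v ∈ s)
    have h7 := ind_nonneg (P.e (pt v) ∈ s)
    by_cases e : c = v.2
    · rw [ind_true (p := P.e v ∈ s) (by subst e; exact hc)]
      linarith
    · rw [ind_true (p := P.e (pt v) ∈ s) (by rw [Bool.eq_not_iff.2 e] at hc; exact hc)]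
      linarith
  · rw [ind_false h]
    exact add_nonneg (ind_nonneg _) (ind_nonneg _)

/-- The minorant. -/
def ff (k M0 : ℕ) (S : Finset (I × Bool)) (H : Finset (Finset V)) : ℝ :=
  (∑ v ∈ S, ∑ w ∈ S, ind (v.1 ≠ w.1) *
    gg M0 (P.MM k H v.1 + P.MM k H w.1) (tau (P.MM k H) (P.BB k H) v w)) / 2

theorem ff_le (k M0 : ℕ) (S : Finset (I × Bool)) (H : Finset (Finset V)) :
    P.ff k M0 S H ≤ Lam (P.MM k H) (P.BB k H) S := by
  refine div_le_div_of_nonneg_right (sum_le_sum fun v _ => sum_le_sum fun w _ =>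
    mul_le_mul_of_nonneg_left ?_ (ind_nonneg _)) two_pos.le
  rw [qq_eq]
  exact gg_le _ _ _

theorem ff_lip {k : ℕ} (hk : 2 ≤ k) {M0 : ℕ} (h0 : 1 ≤ M0) (S : Finset (I × Bool))
    {s : Finset V} (hs : s ∈ UU V k) (H : Finset (Finset V)) :
    |P.ff k M0 S (flp s H) - P.ff k M0 S H| ≤ 32 * ((k : ℝ) + 1) * S.card / M0 := by
  have hM : (0 : ℝ) < M0 := Nat.cast_pos.2 h0
  have hc : (s.card : ℝ) = k + 1 := by exact_mod_cast (mem_powersetCard.1 hs).2
  have h1 := P.lip_meet s S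
  have h2 := P.lip_MM hk s H
  have h3 := P.lip_BB hk s H
  obtain ⟨d, hd⟩ : ∃ d : I → ℝ, ∀ i, ind (∃ c, P.e (i, c) ∈ s) = d i := ⟨_, fun _ => rfl⟩
  have d0 : ∀ i, 0 ≤ d i := fun i => hd i ▸ ind_nonneg _
  simp only [hd] at h1 h2 h3
  unfold ff
  generalize P.MM k (flp s H) = M' at h2 ⊢
  generalize P.MM k H = M at h2 ⊢
  generalize P.BB k (flp s H) = B' at h3 ⊢
  generalize P.BB k H = B at h3 ⊢
  have h4 : ∀ v w : I × Bool, |ind (v.1 ≠ w.1) * gg M0 (M' v.1 + M' w.1) (tau M' B' v w) -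
      ind (v.1 ≠ w.1) * gg M0 (M v.1 + M w.1) (tau M B v w)| ≤ 8 / M0 * (d v.1 + d w.1) := by
    intro v w
    rw [← mul_sub, abs_mul, abs_of_nonneg (ind_nonneg _)]
    refine (mul_le_of_le_one_left (abs_nonneg _) (ind_le_one _)).trans
      ((gg_lip h0 _ _ _ _).trans ?_)
    have a1 := abs_le.1 (h2 v.1)
    have a2 := abs_le.1 (h2 w.1)
    have a3 := abs_le.1 (h3 v)
    have a4 := abs_le.1 (h3 w)
    have a5 : |((M' v.1 + M' w.1 : ℕ) : ℝ) - (M v.1 + M w.1 : ℕ)| ≤ d v.1 + d w.1 := by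
      rw [abs_le]
      push_cast
      constructor <;> linarith [a1.1, a1.2, a2.1, a2.2]
    have a6 : |((tau M' B' v w : ℤ) : ℝ) - (tau M B v w : ℤ)| ≤ 3 * (d v.1 + d w.1) := by
      rw [abs_le]
      unfold tau
      split_ifs <;> push_cast <;> constructor <;>
        linarith [a1.1, a1.2, a2.1, a2.2, a3.1, a3.2, a4.1, a4.2, d0 v.1, d0 w.1]
    exact (mul_le_mul_of_nonneg_left (add_le_add a5 a6) (by positivity)).trans_eq (by ring)
  rw [← sub_div, ← sum_sub_distrib, abs_div, abs_two, div_le_iff₀ two_pos]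
  refine (abs_sum_le_sum_abs _ _).trans ((sum_le_sum (g := fun v => ∑ w ∈ S,
    8 / M0 * (d v.1 + d w.1)) fun v _ => ?_).trans ?_)
  · rw [← sum_sub_distrib]
    exact (abs_sum_le_sum_abs _ _).trans (sum_le_sum fun w _ => h4 v w)
  · simp only [← mul_sum, sum_add_distrib, sum_const, nsmul_eq_mul]
    rw [hc] at h1
    calc _ = 16 / M0 * S.card * ∑ v ∈ S, d v.1 := by ring
      _ ≤ 16 / M0 * S.card * (4 * (k + 1)) :=
          mul_le_mul_of_nonneg_left (by linarith [(Nat.cast_nonneg k : (0 : ℝ) ≤ k)])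
            (by positivity)
      _ = _ := by ring

theorem av_ff {k : ℕ} (hk : 2 ≤ k) {M0 N0 : ℕ} (h0 : 1 ≤ M0) (h4 : 4 * M0 ≤ N0)
    (hN : ∀ i, N0 ≤ (P.F k i).card) (S : Finset (I × Bool)) :
    cr S / 2 * (cb ((Fintype.card V - 2).choose k) - 2 * Real.exp (-(N0 : ℝ) / 8)) ≤
      av (UU V k) (P.ff k M0 S) := by
  unfold ff
  rw [av_div, av_sum, cr, div_mul_eq_mul_div, sum_mul]
  refine div_le_div_of_nonneg_right (sum_le_sum fun v _ => ?_) two_pos.le
  rw [av_sum, sum_mul]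
  refine sum_le_sum fun w _ => ?_
  rw [av_mul]
  by_cases h : v.1 ≠ w.1
  · refine mul_le_mul_of_nonneg_left ?_ (ind_nonneg _)
    have h1 := P.law_M hk v.1 h4 (hN _)
    have h2 := P.law_M hk w.1 h4 (hN _)
    have h3 := av_mono (UU V k) (f := fun H => qq (P.MM k H) (P.BB k H) v w -
      ind (P.MM k H v.1 < M0) - ind (P.MM k H w.1 < M0)) (g := fun H =>
      gg M0 (P.MM k H v.1 + P.MM k H w.1) (tau (P.MM k H) (P.BB k H) v w)) fun H _ => by
        have a1 := ind_nonneg (P.MM k H v.1 < M0)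
        have a2 := ind_nonneg (P.MM k H w.1 < M0)
        have a3 := binZ_le_one (P.MM k H v.1 + P.MM k H w.1) (tau (P.MM k H) (P.BB k H) v w)
        have a4 := gg_nonneg M0 (P.MM k H v.1 + P.MM k H w.1) (tau (P.MM k H) (P.BB k H) v w)
        rw [qq_eq]
        by_cases c1 : P.MM k H v.1 < M0
        · rw [ind_true c1]
          linarith
        by_cases c2 : P.MM k H w.1 < M0
        · rw [ind_true c2]
          linarith
        rw [gg_eq h0 (by omega)]
        linarith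
    rw [av_sub, av_sub, P.law_qq hk h] at h3
    linarith
  · rw [ind_false h, zero_mul, zero_mul]

theorem av_Lam {k : ℕ} (hk : 2 ≤ k) (S : Finset (I × Bool)) :
    av (UU V k) (fun H => Lam (P.MM k H) (P.BB k H) S) =
      cr S / 2 * cb ((Fintype.card V - 2).choose k) := by
  unfold Lam
  rw [av_div, av_sum, cr, div_mul_eq_mul_div, sum_mul]
  refine congrArg (· / 2) (sum_congr rfl fun v _ => ?_)
  rw [av_sum, sum_mul]
  refine sum_congr rfl fun w _ => ?_
  rw [av_mul]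
  by_cases h : v.1 ≠ w.1
  · rw [P.law_qq hk h]
  · rw [ind_false h, zero_mul, zero_mul]

end Pr

end Pool.Agent.Lib.MP_bd7745_co
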