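import Pool.Agent.Lib.MP_bd7745_co.Bin

/-! Systems of independent binomial units; each unit carries two values. -/

set_option autoImplicit false

noncomputable section

namespace Pool.Agent.Lib.MP_bd7745_co

open Finset

/-- A monotone linear functional under which coordinate `i` is binomial with `M i` trials and
independent of the other coordinates, with offsets `B`. -/
structure Sys (I : Type*) [DecidableEq I] where
  /-- the functional -/
  E : ((I → ℕ) → ℝ) →ₗ[ℝ] ℝ
  /-- numbers of trials -/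
  M : I → ℕ
  /-- offsets -/
  B : I × Bool → ℤ
  mono : ∀ f g : (I → ℕ) → ℝ, (∀ X, f X ≤ g X) → E f ≤ E g
  res : ∀ (i : I) (f : (I → ℕ) → ℝ), E f =
    E fun X => ∑ a ∈ range (M i + 1), bin (M i) a * f (Function.update X i a)

variable {I : Type*}

/-- The value of vertex `v`. -/
def val (B : I × Bool → ℤ) (v : I × Bool) (X : I → ℕ) : ℤ := B v + eps v.2 * (X v.1 : ℤ)

/-- Probability that two vertices of different units have the same value. -/
def qq (M : I → ℕ) (B : I × Bool → ℤ) (v w : I × Bool) : ℝ :=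
  ∑ x ∈ range (M v.1 + 1), ∑ y ∈ range (M w.1 + 1),
    bin (M v.1) x * bin (M w.1) y * ind (B v + eps v.2 * (x : ℤ) = B w + eps w.2 * (y : ℤ))

/-- The values on `S` are pairwise distinct and outside `Z`. -/
def Dis (B : I × Bool → ℤ) (Z : Finset ℤ) (S : Finset (I × Bool)) (X : I → ℕ) : Prop :=
  (∀ v ∈ S, ∀ w ∈ S, val B v X = val B w X → v = w) ∧ ∀ v ∈ S, val B v X ∉ Z

/-- Mean number of coincidences between different units. -/
def Lam (M : I → ℕ) (B : I × Bool → ℤ) (S : Finset (I × Bool)) : ℝ :=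
  (∑ v ∈ S, ∑ w ∈ S, ind (v.1 ≠ w.1) * qq M B v w) / 2

/-- The other vertex of the unit. -/
def pt (v : I × Bool) : I × Bool := (v.1, !v.2)

/-- Pairs whose coincidence forces the coincidence of the partners. -/
def Bad (B : I × Bool → ℤ) (S : Finset (I × Bool)) (v w : I × Bool) : Prop :=
  v.1 ≠ w.1 ∧ pt v ∈ S ∧ pt w ∈ S ∧ B v + B (pt v) = B w + B (pt w)

/-- Number of ordered bad pairs. -/
def Rb (B : I × Bool → ℤ) (S : Finset (I × Bool)) : ℝ := ∑ v ∈ S, ∑ w ∈ S, ind (Bad B S v w)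

/-- Index of the convolution. -/
def tau (M : I → ℕ) (B : I × Bool → ℤ) (v w : I × Bool) : ℤ :=
  B w - B v + (if v.2 then 0 else (M v.1 : ℤ)) + (if w.2 then (M w.1 : ℤ) else 0)

theorem qq_eq (M : I → ℕ) (B : I × Bool → ℤ) (v w : I × Bool) :
    qq M B v w = binZ (M v.1 + M w.1) (tau M B v w) := conv_eq _ _ _ _ _ _

theorem qq_nonneg (M : I → ℕ) (B : I × Bool → ℤ) (v w : I × Bool) : 0 ≤ qq M B v w := by
  rw [qq_eq]; exact binZ_nonneg _ _

theorem qq_symm (M : I → ℕ) (B : I × Bool → ℤ) (v w : I × Bool) : qq M B v w = qq M B w v := by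
  unfold qq
  rw [sum_comm]
  refine sum_congr rfl fun y _ => sum_congr rfl fun x _ => ?_
  rw [mul_comm (bin (M v.1) x), ind_congr eq_comm]

theorem eps_inj (c : Bool) (b : ℤ) {x y : ℕ} (h : b + eps c * (x : ℤ) = b + eps c * (y : ℤ)) :
    x = y := by
  cases c <;> simp [eps] at h <;> omega

theorem sys_one {M : ℕ} {p : ℝ} (hp : ∀ a, bin M a ≤ p) (t b : ℤ) (c : Bool) :
    ∑ y ∈ range (M + 1), bin M y * ind (t = b + eps c * (y : ℤ)) ≤ p := by
  have h0 : 0 ≤ p := (bin_nonneg M 0).trans (hp 0)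
  by_cases h : ∃ y : ℕ, t = b + eps c * (y : ℤ)
  · obtain ⟨y, hy⟩ := h
    rw [sum_eq_single y (fun x _ hx => by
      rw [ind_false fun e => hx (eps_inj c b (e.symm.trans hy)), mul_zero]) fun hm => by
      rw [bin, Nat.choose_eq_zero_of_lt (by simpa using hm)]; simp, ind_true hy, mul_one]
    exact hp y
  · exact (sum_eq_zero fun y _ => by rw [ind_false fun e => h ⟨y, e⟩, mul_zero]).trans_le h0

variable [DecidableEq I]

omit [DecidableEq I] in
theorem qq_le (M : I → ℕ) (B : I × Bool → ℤ) {p : ℝ} (hp : ∀ i a, bin (M i) a ≤ p)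
    (v w : I × Bool) : qq M B v w ≤ p := by
  calc qq M B v w ≤ ∑ x ∈ range (M v.1 + 1), bin (M v.1) x * p :=
        sum_le_sum fun x _ => by
          simp only [mul_assoc]
          rw [← mul_sum]
          exact mul_le_mul_of_nonneg_left (sys_one (hp w.1) _ _ _) (bin_nonneg _ _)
    _ = p := by rw [← sum_mul, sum_bin, one_mul]

/-- Two resamplings. -/
theorem Sys.res2 (Y : Sys I) {i j : I} (hij : i ≠ j) (f : (I → ℕ) → ℝ) :
    Y.E f = Y.E fun X => ∑ x ∈ range (Y.M i + 1), ∑ y ∈ range (Y.M j + 1),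
      bin (Y.M i) x * bin (Y.M j) y * f (Function.update (Function.update X i x) j y) := by
  have _ := hij
  rw [Y.res j f, Y.res i]
  simp only [mul_sum, mul_assoc]

theorem Sys.pair (Y : Sys I) {v w : I × Bool} (hvw : v.1 ≠ w.1) (f : (I → ℕ) → ℝ)
    (hv : ∀ X a, f (Function.update X v.1 a) = f X)
    (hw : ∀ X a, f (Function.update X w.1 a) = f X) :
    Y.E (fun X => f X * ind (val Y.B v X = val Y.B w X)) = qq Y.M Y.B v w * Y.E f := by
  rw [Y.res2 hvw, ← smul_eq_mul, ← map_smul]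
  refine congrArg Y.E (funext fun X => ?_)
  simp only [hv, hw, val, Function.update_self, Function.update_of_ne hvw, Pi.smul_apply,
    smul_eq_mul, qq, sum_mul]
  exact sum_congr rfl fun x _ => sum_congr rfl fun y _ => by ring

end Pool.Agent.Lib.MP_bd7745_co
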